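import Pool.Agent.Lib.MP_bf093f_an.Scale

set_option autoImplicit false

/-! # The minimality inequality and the uniform bound -/

namespace Pool.Agent.Lib.MP_bf093f_an

open MeasureTheory Filter Topology Metric
open scoped ContDiff ENNReal NNReal

variable {N : ℕ}

lemma IsTest.isH1 {φ : Sp N → ℝ} (h : IsTest φ) : IsH1 φ (gradient φ) :=
  ⟨h.memLp 2, h.memLp_gradient 2, fun _ => φ, fun _ => h, by simp, by simp⟩

lemma quadForm_nonneg {a : ℝ} (ha : 0 ≤ a) (u : Sp N → ℝ) (g : Sp N → Sp N) :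
    0 ≤ quadForm a u g :=
  integral_nonneg fun x => by positivity

lemma quadForm_const_mul {a : ℝ} (t : ℝ) (u : Sp N → ℝ) (g : Sp N → Sp N) :
    quadForm a (fun x => t * u x) (fun x => t • g x) = t ^ 2 * quadForm a u g := by
  unfold quadForm
  rw [← integral_const_mul]
  congr 1
  funext x
  rw [norm_smul, mul_pow, Real.norm_eq_abs, sq_abs]
  ring

lemma coreInt_const_mul {Q : Sp N → ℝ} {p : ℝ} {t : ℝ} (ht : 0 ≤ t) (u : Sp N → ℝ) :
    coreInt Q p (fun x => t * u x) = t ^ p * coreInt Q p u := by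
  unfold coreInt
  rw [← integral_const_mul]
  congr 1
  funext x
  rw [abs_mul, abs_of_nonneg ht, Real.mul_rpow ht (abs_nonneg _)]
  ring

lemma IsSobolev.const_mul {r : ℝ≥0∞} {u : Sp N → ℝ} {g : Sp N → Sp N} (h : IsSobolev r u g)
    (t : ℝ) : IsSobolev r (fun x => t * u x) (fun x => t • g x) := by
  have := h.scale t (s := 1) one_ne_zero 0
  simpa only [one_smul, add_zero, mul_one] using this

lemma IsNehari.energy_eq {a : ℝ} {Q : Sp N → ℝ} {p : ℝ} {u : Sp N → ℝ} {g : Sp N → Sp N}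
    (h : IsNehari a Q p u g) : energy a Q p u g = (1 / 2 - 1 / p) * quadForm a u g := by
  rw [energy, ← h.2.2]
  ring

/-- The minimality inequality. -/
lemma IsLES.quadForm_le {a : ℝ} {Q : Sp N → ℝ} {p : ℝ} (hp : 2 < p)
    {u : Sp N → ℝ} {g : Sp N → Sp N} (h : IsLES a Q p u g) {w : Sp N → ℝ} {k : Sp N → Sp N}
    (hw : IsH1 w k) (hA : 0 < quadForm a w k) (hB : 0 < coreInt Q p w) :
    quadForm a u g ≤ (quadForm a w k / coreInt Q p w) ^ (2 / (p - 2)) * quadForm a w k := by
  set A := quadForm a w k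
  set B := coreInt Q p w
  have hp2 : p - 2 ≠ 0 := by linarith
  have hAB : 0 < A / B := div_pos hA hB
  set t := (A / B) ^ (1 / (p - 2)) with ht
  have ht0 : 0 < t := Real.rpow_pos_of_pos hAB _
  have ht2 : t ^ 2 = (A / B) ^ (2 / (p - 2)) := by
    rw [ht, ← Real.rpow_natCast, ← Real.rpow_mul hAB.le]
    congr 1
    push_cast
    field_simp
  have htp : t ^ p = t ^ 2 * (A / B) := by
    have h1 : t ^ (p - 2) = A / B := by
      rw [ht, ← Real.rpow_mul hAB.le, one_div, inv_mul_cancel₀ hp2, Real.rpow_one]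
    rw [← h1, ← Real.rpow_natCast, ← Real.rpow_add ht0]
    congr 1
    push_cast
    ring
  have hN : IsNehari a Q p (fun x => t * w x) (fun x => t • k x) := by
    refine ⟨hw.const_mul t, ?_, ?_⟩
    · intro h0
      apply hB.ne'
      have h1 : w =ᵐ[volume] 0 := by
        filter_upwards [h0] with x hx
        rw [Pi.zero_apply, mul_eq_zero] at hx
        exact hx.resolve_left ht0.ne'
      change ∫ x, Q x * |w x| ^ p = 0
      have h2 : (fun x => Q x * |w x| ^ p) =ᵐ[volume] 0 := by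
        filter_upwards [h1] with x hx
        rw [hx, Pi.zero_apply, abs_zero, Real.zero_rpow (by linarith), mul_zero]
      rw [integral_congr_ae h2]
      simp
    · rw [quadForm_const_mul, coreInt_const_mul ht0.le, htp]
      field_simp
      rfl
  have key := h.2.2 _ _ hN
  rw [h.1.energy_eq, hN.energy_eq, quadForm_const_mul, ht2] at key
  have hpos : 0 < 1 / 2 - 1 / p := by
    rw [sub_pos]
    exact one_div_lt_one_div_of_lt (by norm_num) hp
  exact le_of_mul_le_mul_left key hpos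

/-! ## The coefficient near the origin -/

open scoped Classical in
/-- The limit coefficient. -/
noncomputable def Qlim (N : ℕ) (x : Sp N) : ℝ := if x ∈ ball (0 : Sp N) 1 then 1 else -1

lemma Qlim_of_mem {x : Sp N} (h : x ∈ ball (0 : Sp N) 1) : Qlim N x = 1 := if_pos h

lemma Qlim_of_notMem {x : Sp N} (h : x ∉ ball (0 : Sp N) 1) : Qlim N x = -1 := if_neg h

lemma lat_zero : lat (0 : Fin N → ℤ) = 0 := by
  ext i
  simp [lat]

lemma cen_zero {ε : ℝ} : cen ε (0 : Fin N → ℤ) = 0 := by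
  rw [cen, lat_zero, smul_zero]

lemma mem_cores_of_mem_ball {ε : ℝ} {x : Sp N} (h : x ∈ ball (0 : Sp N) 1) : x ∈ cores N ε := by
  rw [cores, Set.mem_iUnion]
  exact ⟨0, by rwa [cen_zero]⟩

lemma norm_cen {ε : ℝ} (hε : 0 < ε) {k : Fin N → ℤ} (hk : k ≠ 0) : 1 / ε ≤ ‖cen ε k‖ := by
  have := dist_cen hε hk
  rwa [cen_zero, dist_zero_right] at this

lemma mem_ball_of_mem_cores {ε : ℝ} (hε : 0 < ε) {x : Sp N} (hx : ‖x‖ < 1 / ε - 1)
    (h : x ∈ cores N ε) : x ∈ ball (0 : Sp N) 1 := by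
  rw [cores, Set.mem_iUnion] at h
  obtain ⟨k, hk⟩ := h
  rcases eq_or_ne k 0 with h0 | h0
  · rwa [h0, cen_zero] at hk
  · exfalso
    rw [mem_ball, dist_eq_norm] at hk
    have h1 := norm_cen hε h0
    have h2 : ‖cen ε k‖ ≤ ‖x‖ + ‖x - cen ε k‖ := by
      have := norm_sub_le x (x - cen ε k)
      rwa [sub_sub_cancel] at this
    linarith

lemma Qt_eq_Qlim {ε : ℝ} (hε : 0 < ε) {x : Sp N} (hx : ‖x‖ < 1 / ε - 1) : Qt N ε x = Qlim N x := by
  by_cases h : x ∈ ball (0 : Sp N) 1
  · rw [Qlim_of_mem h, Qt, coreSign_of_mem hε (mem_cores_of_mem_ball h)]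
  · rw [Qlim_of_notMem h, Qt, coreSign_of_notMem hε fun h' => h (mem_ball_of_mem_cores hε hx h')]

lemma abs_Qt_le {ε : ℝ} (hε : 0 < ε) (x : Sp N) : |Qt N ε x| ≤ 1 := by
  by_cases h : x ∈ cores N ε
  · rw [Qt, coreSign_of_mem hε h, abs_one]
  · rw [Qt, coreSign_of_notMem hε h, abs_neg, abs_one]

/-! ## The uniform bound -/

lemma coreInt_bump {ε : ℝ} (hε : 0 < ε) {p : ℝ} (hp : 2 < p) :
    coreInt (Qt N ε) p (fun x => bump N x) = ∫ x : Sp N, |bump N x| ^ p := by
  unfold coreInt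
  congr 1
  funext x
  by_cases h : x ∈ ball (0 : Sp N) 1
  · rw [Qt, coreSign_of_mem hε (mem_cores_of_mem_ball h), one_mul]
  · have h1 : bump N x = 0 := by
      apply (bump N).zero_of_le_dist
      rw [mem_ball, not_lt] at h
      exact le_trans (by change (1 / 3 : ℝ) ≤ 1; norm_num) h
    simp only [h1]
    rw [abs_zero, Real.zero_rpow (by linarith), mul_zero]

lemma integral_bump_pos {p : ℝ} (hp : 2 < p) : 0 < ∫ x : Sp N, |bump N x| ^ p := by
  have hc : Continuous fun x : Sp N => |bump N x| ^ p :=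
    (isTest_bump (N := N)).continuous.abs.rpow_const fun x => Or.inr (by linarith)
  have hs : HasCompactSupport fun x : Sp N => |bump N x| ^ p := by
    have := (isTest_bump (N := N)).2.comp_left (g := fun t : ℝ => |t| ^ p)
      (by simp only [abs_zero]; exact Real.zero_rpow (by linarith))
    exact this
  apply hc.integral_pos_of_hasCompactSupport_nonneg_nonzero hs (x := 0)
  · intro x
    exact Real.rpow_nonneg (abs_nonneg _) _
  · have : bump N (0 : Sp N) = 1 := (bump N).one_of_mem_closedBall (mem_closedBall_self (by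
      change (0 : ℝ) ≤ 1 / 4; norm_num))
    rw [this]
    simp

lemma quadForm_pos_of_coreInt {ε : ℝ} (hε : 0 < ε) {Q : Sp N → ℝ} {p : ℝ} (hp : 2 < p)
    {w : Sp N → ℝ} {k : Sp N → Sp N}
    (hw : IsH1 w k) (hB : coreInt Q p w ≠ 0) : 0 < quadForm (ε ^ 2) w k := by
  refine lt_of_le_of_ne (quadForm_nonneg (by positivity) _ _) fun h0 => ?_
  apply hB
  have h1 := lintegral_dens hε.le hw
  rw [← h0, ENNReal.ofReal_zero] at h1
  have h2 := ae_zero_of_lintegral_dens hε hw h1
  have h3 : (fun x => Q x * |w x| ^ p) =ᵐ[volume] 0 := by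
    filter_upwards [h2] with x hx
    rw [hx, Pi.zero_apply, abs_zero, Real.zero_rpow (by linarith), mul_zero]
  rw [coreInt, integral_congr_ae h3]
  simp

lemma quadForm_mono {a b : ℝ} (hab : a ≤ b) {w : Sp N → ℝ} {k : Sp N → Sp N}
    (hw : IsH1 w k) : quadForm a w k ≤ quadForm b w k := by
  unfold quadForm
  apply integral_mono hw.integrable hw.integrable
  intro x
  dsimp only
  gcongr

/-- Least energy solutions are uniformly bounded. -/
lemma exists_uniform_bound (N : ℕ) {p : ℝ} (hp : 2 < p) :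
    ∃ C : ℝ, ∀ ε : ℝ, 0 < ε → ε ≤ 1 → ∀ (u : Sp N → ℝ) (g : Sp N → Sp N),
      IsLES (ε ^ 2) (Qt N ε) p u g → quadForm (ε ^ 2) u g ≤ C := by
  set B := ∫ x : Sp N, |bump N x| ^ p
  set A := quadForm 1 (fun x : Sp N => bump N x) (gradient fun x : Sp N => bump N x)
  refine ⟨(A / B) ^ (2 / (p - 2)) * A, fun ε hε hε' u g h => ?_⟩
  have hB : 0 < B := integral_bump_pos hp
  have hBe : coreInt (Qt N ε) p (fun x => bump N x) = B := coreInt_bump hε hp
  have hH1 := (isTest_bump (N := N)).isH1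
  have hA := quadForm_pos_of_coreInt hε (Q := Qt N ε) hp hH1 (by rw [hBe]; exact hB.ne')
  have key := h.quadForm_le hp hH1 hA (by rw [hBe]; exact hB)
  rw [hBe] at key
  refine key.trans ?_
  have h1 : quadForm (ε ^ 2) (fun x : Sp N => bump N x) (gradient fun x : Sp N => bump N x) ≤ A :=
    quadForm_mono (by nlinarith) hH1
  have h2 : 0 ≤ 2 / (p - 2) := by
    apply div_nonneg <;> linarith
  have hA0 : 0 ≤ A := hA.le.trans h1
  gcongr

end Pool.Agent.Lib.MP_bf093f_an
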