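import Pool.Agent.Lib.MP_bf093f_an.Local

set_option autoImplicit false

/-! # The Sobolev inequality on a cell, and the nonvanishing estimate -/

namespace Pool.Agent.Lib.MP_bf093f_an

open MeasureTheory Filter Topology Metric
open scoped ContDiff ENNReal NNReal

variable {N : ℕ}

/-! ## Cutoff functions -/

/-- A fixed cutoff function, equal to `1` on the ball of radius `1/4` and supported in the ball
of radius `1/3`. -/
noncomputable def bump (N : ℕ) : ContDiffBump (0 : Sp N) :=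
  ⟨1 / 4, 1 / 3, by norm_num, by norm_num⟩

lemma isTest_bump : IsTest (fun x : Sp N => bump N x) :=
  ⟨(bump N).contDiff, (bump N).hasCompactSupport⟩

lemma exists_bump_bound (N : ℕ) : ∃ C : ℝ, 0 ≤ C ∧ ∀ x, ‖gradient (fun x : Sp N => bump N x) x‖ ≤ C := by
  obtain ⟨C, hC⟩ := (isTest_bump (N := N)).hasCompactSupport_gradient.exists_bound_of_continuous
    (isTest_bump (N := N)).continuous_gradient
  exact ⟨C, (norm_nonneg _).trans (hC 0), hC⟩

/-- A bound for the gradient of the cutoff function. -/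
noncomputable def bumpC (N : ℕ) : ℝ := (exists_bump_bound N).choose

lemma bumpC_nonneg : 0 ≤ bumpC N := (exists_bump_bound N).choose_spec.1

lemma norm_gradient_bump_le (x : Sp N) : ‖gradient (fun x : Sp N => bump N x) x‖ ≤ bumpC N :=
  (exists_bump_bound N).choose_spec.2 x

/-- The affine map `x ↦ s x + c`. -/
lemma gradient_comp_affine {φ : Sp N → ℝ} (h : Differentiable ℝ φ) (l s : ℝ) (c x : Sp N) :
    gradient (fun x => l * φ (s • x + c)) x = (l * s) • gradient φ (s • x + c) := by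
  have h1 : HasFDerivAt (fun x : Sp N => s • x + c) (s • ContinuousLinearMap.id ℝ (Sp N)) x :=
    ((hasFDerivAt_id x).const_smul s).add_const c
  have h2 : HasFDerivAt (fun x => φ (s • x + c))
      ((fderiv ℝ φ (s • x + c)).comp (s • ContinuousLinearMap.id ℝ (Sp N))) x :=
    (h (s • x + c)).hasFDerivAt.comp x h1
  have h3 := h2.const_mul l
  rw [gradient, h3.fderiv, gradient, ← LinearIsometryEquiv.map_smul]
  congr 1
  ext v
  simp [mul_assoc]

lemma isTest_comp_affine {φ : Sp N → ℝ} (h : IsTest φ) (l : ℝ) {s : ℝ} (hs : s ≠ 0) (c : Sp N) :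
    IsTest (fun x => l * φ (s • x + c)) := by
  refine ⟨contDiff_const.mul (h.1.comp ((contDiff_const_smul s).add contDiff_const)), ?_⟩
  have h1 : HasCompactSupport (fun x : Sp N => φ (s • x + c)) := by
    have := h.2.comp_homeomorph ((Homeomorph.smulOfNeZero s hs).trans (Homeomorph.addRight c))
    exact this
  exact h1.mul_left

/-- The cutoff function of the cell of size `1/ε` around `c`. -/
noncomputable def cut (ε : ℝ) (c : Sp N) (x : Sp N) : ℝ := bump N (ε • x + (-ε • c))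

lemma cut_arg (ε : ℝ) (c x : Sp N) : ε • x + (-ε • c) = ε • (x - c) := by
  rw [smul_sub, neg_smul, sub_eq_add_neg]

lemma isTest_cut {ε : ℝ} (hε : 0 < ε) (c : Sp N) : IsTest (cut ε c) := by
  have := isTest_comp_affine (isTest_bump (N := N)) 1 hε.ne' (-ε • c)
  simp only [one_mul] at this
  exact this

lemma norm_gradient_cut_le {ε : ℝ} (hε : 0 < ε) (c x : Sp N) :
    ‖gradient (cut ε c) x‖ ≤ ε * bumpC N := by
  have := gradient_comp_affine (isTest_bump (N := N)).differentiable 1 ε (-ε • c) x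
  simp only [one_mul] at this
  change ‖gradient (fun x => bump N (ε • x + (-ε • c))) x‖ ≤ _
  rw [this, norm_smul, Real.norm_of_nonneg hε.le]
  gcongr
  exact norm_gradient_bump_le _

lemma cut_nonneg {ε : ℝ} {c x : Sp N} : 0 ≤ cut ε c x := (bump N).nonneg

lemma cut_le_one {ε : ℝ} {c x : Sp N} : cut ε c x ≤ 1 := (bump N).le_one

lemma cut_eq_one {ε : ℝ} (hε : 0 < ε) (hε' : ε ≤ 1 / 4) {c x : Sp N} (hx : x ∈ ball c 1) :
    cut ε c x = 1 := by
  rw [cut, cut_arg]
  apply (bump N).one_of_mem_closedBall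
  rw [mem_closedBall_zero_iff, norm_smul, Real.norm_of_nonneg hε.le]
  rw [mem_ball, dist_eq_norm] at hx
  change ε * ‖x - c‖ ≤ 1 / 4
  nlinarith [norm_nonneg (x - c)]

/-- The cell around `c`. -/
def cell (ε : ℝ) (c : Sp N) : Set (Sp N) := closedBall c (1 / (3 * ε))

lemma measurableSet_cell {ε : ℝ} {c : Sp N} : MeasurableSet (cell ε c) := measurableSet_closedBall

lemma cut_eventually_zero {ε : ℝ} (hε : 0 < ε) {c x : Sp N} (hx : x ∉ cell ε c) :
    cut ε c =ᶠ[𝓝 x] 0 := by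
  have h1 : (cell ε c)ᶜ ∈ 𝓝 x := isClosed_closedBall.isOpen_compl.mem_nhds hx
  filter_upwards [h1] with y hy
  rw [cut, cut_arg, Pi.zero_apply]
  apply (bump N).zero_of_le_dist
  rw [dist_zero_right, norm_smul, Real.norm_of_nonneg hε.le]
  rw [cell, Set.mem_compl_iff, mem_closedBall, not_le, dist_eq_norm] at hy
  change 1 / 3 ≤ ε * ‖y - c‖
  have h2 : ε * (1 / (3 * ε)) = 1 / 3 := by field_simp
  rw [← h2]
  exact mul_le_mul_of_nonneg_left hy.le hε.le

/-! ## The local Sobolev inequality -/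

lemma eLpNorm_cut_mul_le (hN : 3 ≤ N) {ε : ℝ} (hε : 0 < ε) (hε' : ε ≤ 1 / 4) (c : Sp N)
    {φ : Sp N → ℝ} (hφ : IsTest φ) :
    eLpNorm φ (qs N) (volume.restrict (ball c 1)) ≤
      sobC N * (eLpNorm (gradient φ) 2 (volume.restrict (cell ε c)) +
        ENNReal.ofReal (ε * bumpC N) * eLpNorm φ 2 (volume.restrict (cell ε c))) := by
  have hη := isTest_cut hε c
  have hηφ : IsTest (fun x => cut ε c x * φ x) := IsTest.mul hη.1 hφ
  have h1 : eLpNorm φ (qs N) (volume.restrict (ball c 1))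
      ≤ eLpNorm (fun x => cut ε c x * φ x) (qs N) volume := by
    refine le_trans (le_of_eq ?_) (eLpNorm_mono_measure _
      (Measure.restrict_le_self (s := ball c 1)))
    apply eLpNorm_congr_ae
    filter_upwards [ae_restrict_mem measurableSet_ball] with x hx
    rw [cut_eq_one hε hε' hx, one_mul]
  refine h1.trans ((sobolev_test hN hηφ).trans ?_)
  gcongr
  have hD : 0 ≤ ε * bumpC N := mul_nonneg hε.le bumpC_nonneg
  have h2 : eLpNorm (gradient (fun x => cut ε c x * φ x)) 2 volume ≤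
      eLpNorm ((cell ε c).indicator (fun x => ‖gradient φ x‖ + (ε * bumpC N) * ‖φ x‖)) 2 volume := by
    apply eLpNorm_mono_real
    intro x
    by_cases hx : x ∈ cell ε c
    · rw [Set.indicator_of_mem hx, gradient_mul' hη.differentiable hφ.differentiable]
      refine (norm_add_le _ _).trans ?_
      rw [norm_smul, norm_smul, Real.norm_of_nonneg cut_nonneg]
      have h3 := norm_gradient_cut_le hε c x
      have h4 : cut ε c x ≤ 1 := cut_le_one
      have h5 := norm_nonneg (gradient φ x)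
      have h6 := norm_nonneg (φ x)
      nlinarith
    · rw [Set.indicator_of_notMem hx]
      have h3 : (fun x => cut ε c x * φ x) =ᶠ[𝓝 x] fun _ => 0 := by
        filter_upwards [cut_eventually_zero hε hx] with y hy
        rw [hy, Pi.zero_apply, zero_mul]
      have h4 : gradient (fun x => cut ε c x * φ x) x = 0 := by
        rw [gradient, h3.fderiv_eq]
        simp
      rw [h4, norm_zero]
  refine h2.trans ?_
  rw [eLpNorm_indicator_eq_eLpNorm_restrict measurableSet_cell]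
  refine (eLpNorm_add_le (f := fun x => ‖gradient φ x‖) (g := fun x => (ε * bumpC N) * ‖φ x‖)
    hφ.continuous_gradient.norm.aestronglyMeasurable
    (hφ.continuous.norm.aestronglyMeasurable.const_mul _) (by norm_num)).trans ?_
  gcongr
  · rw [eLpNorm_norm]
  · rw [show (fun x => (ε * bumpC N) * ‖φ x‖) = (ε * bumpC N) • fun x => ‖φ x‖ from rfl,
      eLpNorm_const_smul, eLpNorm_norm, Real.enorm_of_nonneg hD]

variable [hN : Fact (3 ≤ N)]

lemma IsH1.eLpNorm_ball_le {ε : ℝ} (hε : 0 < ε) (hε' : ε ≤ 1 / 4) (c : Sp N)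
    {u : Sp N → ℝ} {g : Sp N → Sp N} (h : IsH1 u g) :
    eLpNorm u (qs N) (volume.restrict (ball c 1)) ≤
      sobC N * (eLpNorm g 2 (volume.restrict (cell ε c)) +
        ENNReal.ofReal (ε * bumpC N) * eLpNorm u 2 (volume.restrict (cell ε c))) := by
  obtain ⟨φ, hφ, h1, h2⟩ := h.2.2
  obtain ⟨h3, h4⟩ := h.isD12_of_approx hφ h1 h2
  have l1 : Tendsto (fun n => eLpNorm (φ n) (qs N) (volume.restrict (ball c 1))) atTop
      (𝓝 (eLpNorm u (qs N) (volume.restrict (ball c 1)))) :=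
    tendsto_eLpNorm (one_le_qs hN.out) (fun n => ((hφ n).memLp _).restrict _) (h3.restrict _)
      (tendsto_eLpNorm_restrict h4 _)
  have l2 : Tendsto (fun n => eLpNorm (gradient (φ n)) 2 (volume.restrict (cell ε c))) atTop
      (𝓝 (eLpNorm g 2 (volume.restrict (cell ε c)))) :=
    tendsto_eLpNorm (by norm_num) (fun n => ((hφ n).memLp_gradient _).restrict _)
      (h.2.1.restrict _) (tendsto_eLpNorm_restrict h2 _)
  have l3 : Tendsto (fun n => eLpNorm (φ n) 2 (volume.restrict (cell ε c))) atTop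
      (𝓝 (eLpNorm u 2 (volume.restrict (cell ε c)))) :=
    tendsto_eLpNorm (by norm_num) (fun n => ((hφ n).memLp _).restrict _)
      (h.1.restrict _) (tendsto_eLpNorm_restrict h1 _)
  have l4 : Tendsto (fun n => (sobC N : ℝ≥0∞) * (eLpNorm (gradient (φ n)) 2
      (volume.restrict (cell ε c)) + ENNReal.ofReal (ε * bumpC N) *
        eLpNorm (φ n) 2 (volume.restrict (cell ε c)))) atTop
      (𝓝 (sobC N * (eLpNorm g 2 (volume.restrict (cell ε c)) +
        ENNReal.ofReal (ε * bumpC N) * eLpNorm u 2 (volume.restrict (cell ε c))))) := by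
    apply ENNReal.Tendsto.const_mul _ (Or.inr ENNReal.coe_ne_top)
    exact l2.add (ENNReal.Tendsto.const_mul l3 (Or.inr ENNReal.ofReal_ne_top))
  exact le_of_tendsto_of_tendsto' l1 l4 fun n => eLpNorm_cut_mul_le hN.out hε hε' c (hφ n)

/-- The energy density `|g|² + ε² |u|²`. -/
noncomputable def dens (ε : ℝ) (u : Sp N → ℝ) (g : Sp N → Sp N) (x : Sp N) : ℝ≥0∞ :=
  ‖g x‖ₑ ^ 2 + ENNReal.ofReal ε ^ 2 * ‖u x‖ₑ ^ 2

/-- The constant in the cell estimate. -/
noncomputable def cellK (N : ℕ) : ℝ≥0∞ := 2 * (sobC N : ℝ≥0∞) ^ 2 * (1 + ENNReal.ofReal (bumpC N) ^ 2)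

omit hN in
lemma cellK_ne_top : cellK N ≠ ⊤ := by
  unfold cellK
  finiteness

lemma ennreal_add_sq_le (a b : ℝ≥0∞) : (a + b) ^ 2 ≤ 2 * (a ^ 2 + b ^ 2) := by
  have := ENNReal.rpow_add_le_mul_rpow_add_rpow a b (p := 2) (by norm_num)
  norm_num at this
  simpa using this

omit hN in
lemma eLpNorm_two_sq {F : Type} [NormedAddCommGroup F] (f : Sp N → F) (μ : Measure (Sp N)) :
    eLpNorm f 2 μ ^ 2 = ∫⁻ x, ‖f x‖ₑ ^ 2 ∂μ := (lintegral_sq_eq f μ).symm

lemma IsH1.sq_eLpNorm_ball_le {ε : ℝ} (hε : 0 < ε) (hε' : ε ≤ 1 / 4) (c : Sp N)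
    {u : Sp N → ℝ} {g : Sp N → Sp N} (h : IsH1 u g) :
    eLpNorm u (qs N) (volume.restrict (ball c 1)) ^ 2 ≤
      cellK N * ∫⁻ x in cell ε c, dens ε u g x := by
  have h1 := h.eLpNorm_ball_le hε hε' c
  have h2 : eLpNorm u (qs N) (volume.restrict (ball c 1)) ^ 2 ≤
      (sobC N : ℝ≥0∞) ^ 2 * (2 * (eLpNorm g 2 (volume.restrict (cell ε c)) ^ 2 +
        (ENNReal.ofReal (ε * bumpC N) * eLpNorm u 2 (volume.restrict (cell ε c))) ^ 2)) := by
    refine (pow_le_pow_left' h1 2).trans ?_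
    rw [mul_pow]
    gcongr
    exact ennreal_add_sq_le _ _
  refine h2.trans ?_
  rw [mul_pow, eLpNorm_two_sq, eLpNorm_two_sq, ENNReal.ofReal_mul hε.le, mul_pow]
  have h3 : ∫⁻ x in cell ε c, dens ε u g x = (∫⁻ x in cell ε c, ‖g x‖ₑ ^ 2) +
      ENNReal.ofReal ε ^ 2 * ∫⁻ x in cell ε c, ‖u x‖ₑ ^ 2 := by
    unfold dens
    rw [lintegral_add_left' (h.2.1.1.enorm.pow_const 2).restrict, lintegral_const_mul']
    finiteness
  rw [h3]
  set X := ∫⁻ x in cell ε c, ‖g x‖ₑ ^ 2
  set Y := ∫⁻ x in cell ε c, ‖u x‖ₑ ^ 2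
  set e := ENNReal.ofReal ε ^ 2
  set b := ENNReal.ofReal (bumpC N) ^ 2
  unfold cellK
  calc (sobC N : ℝ≥0∞) ^ 2 * (2 * (X + e * b * Y))
      ≤ (sobC N : ℝ≥0∞) ^ 2 * (2 * ((X + e * b * Y) + (e * Y + b * X))) := by
        have h4 : X + e * b * Y ≤ (X + e * b * Y) + (e * Y + b * X) := le_self_add
        gcongr _ * (2 * ?_)
    _ = _ := by ring

/-! ## The `L^p` estimate on a ball of radius one -/

/-- The Hölder constant. -/
noncomputable def holdC (N : ℕ) (p : ℝ) : ℝ≥0∞ :=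
  volume (ball (0 : Sp N) 1) ^ (1 / p - 1 / twoStar N)

omit hN in
lemma holdC_ne_top {p : ℝ} (hp : 0 < p) (hp' : p < twoStar N) : holdC N p ≠ ⊤ := by
  unfold holdC
  apply ENNReal.rpow_ne_top_of_nonneg
  · have : 1 / twoStar N ≤ 1 / p := one_div_le_one_div_of_le hp hp'.le
    linarith
  · exact measure_ball_lt_top.ne

lemma eLpNorm_ball_p_le {p : ℝ} (hp : 0 < p) (hp' : p < twoStar N) (c : Sp N)
    {u : Sp N → ℝ} (h : AEStronglyMeasurable u volume) :
    eLpNorm u (ENNReal.ofReal p) (volume.restrict (ball c 1)) ≤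
      holdC N p * eLpNorm u (qs N) (volume.restrict (ball c 1)) := by
  have := eLpNorm_le_eLpNorm_mul_rpow_measure_univ (μ := volume.restrict (ball c 1))
    (p := ENNReal.ofReal p) (q := qs N) (ENNReal.ofReal_le_ofReal hp'.le) h.restrict
  refine this.trans (le_of_eq ?_)
  rw [mul_comm, holdC, ENNReal.toReal_ofReal hp.le, qs_toReal hN.out,
    Measure.restrict_apply MeasurableSet.univ, Set.univ_inter, Measure.addHaar_ball_center]

omit hN in
lemma eLpNorm_pow_eq {p : ℝ} (hp : 0 < p) (u : Sp N → ℝ) (μ : Measure (Sp N)) :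
    ∫⁻ x, ‖u x‖ₑ ^ p ∂μ = eLpNorm u (ENNReal.ofReal p) μ ^ p := by
  have h0 : ENNReal.ofReal p ≠ 0 := by
    rw [Ne, ENNReal.ofReal_eq_zero, not_le]; exact hp
  rw [eLpNorm_eq_lintegral_rpow_enorm_toReal h0 ENNReal.ofReal_ne_top,
    ENNReal.toReal_ofReal hp.le, ← ENNReal.rpow_mul, one_div, inv_mul_cancel₀ hp.ne',
    ENNReal.rpow_one]

lemma IsH1.lintegral_ball_le {p ε : ℝ} (hp : 2 < p) (hp' : p < twoStar N)
    (hε : 0 < ε) (hε' : ε ≤ 1 / 4) (c : Sp N)
    {u : Sp N → ℝ} {g : Sp N → Sp N} (h : IsH1 u g) :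
    ∫⁻ x in ball c 1, ‖u x‖ₑ ^ p ≤
      eLpNorm u (ENNReal.ofReal p) (volume.restrict (ball c 1)) ^ (p - 2) *
        (holdC N p ^ 2 * cellK N * ∫⁻ x in cell ε c, dens ε u g x) := by
  have h1 := eLpNorm_ball_p_le (by linarith : 0 < p) hp' c h.1.1
  have h2 := h.sq_eLpNorm_ball_le hε hε' c
  rw [eLpNorm_pow_eq (by linarith)]
  have h3 : eLpNorm u (ENNReal.ofReal p) (volume.restrict (ball c 1)) ^ p =
      eLpNorm u (ENNReal.ofReal p) (volume.restrict (ball c 1)) ^ (p - 2) *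
      eLpNorm u (ENNReal.ofReal p) (volume.restrict (ball c 1)) ^ 2 := by
    rw [← ENNReal.rpow_natCast, ← ENNReal.rpow_add_of_nonneg _ _ (by linarith) (by norm_num)]
    congr 1
    norm_num
  rw [h3]
  gcongr
  calc eLpNorm u (ENNReal.ofReal p) (volume.restrict (ball c 1)) ^ 2
      ≤ (holdC N p * eLpNorm u (qs N) (volume.restrict (ball c 1))) ^ 2 := by gcongr
    _ = holdC N p ^ 2 * eLpNorm u (qs N) (volume.restrict (ball c 1)) ^ 2 := by rw [mul_pow]
    _ ≤ holdC N p ^ 2 * (cellK N * ∫⁻ x in cell ε c, dens ε u g x) := by gcongr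
    _ = _ := by ring

end Pool.Agent.Lib.MP_bf093f_an
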