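import Pool.Agent.Lib.MP_bf093f_an.Unique

set_option autoImplicit false

/-! # The chain rule, and general test functions -/

namespace Pool.Agent.Lib.MP_bf093f_an

open MeasureTheory Filter Topology Metric
open scoped ContDiff ENNReal NNReal

variable {N : ℕ}

lemma gradient_comp' {f : ℝ → ℝ} (hf : Differentiable ℝ f) {φ : Sp N → ℝ}
    (hφ : Differentiable ℝ φ) (x : Sp N) :
    gradient (fun x => f (φ x)) x = deriv f (φ x) • gradient φ x := by
  have h1 : HasFDerivAt (fun x => f (φ x)) (deriv f (φ x) • fderiv ℝ φ x) x :=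
    (hf (φ x)).hasDerivAt.comp_hasFDerivAt x (hφ x).hasFDerivAt
  rw [gradient, h1.fderiv, gradient, LinearIsometryEquiv.map_smul]

/-- The chain rule in `H¹`, with a cutoff. -/
lemma IsH1.comp {V : Sp N → ℝ} {W : Sp N → Sp N} (h : IsH1 V W) {f : ℝ → ℝ}
    (hf : ContDiff ℝ ∞ f) {C C' : ℝ} (hC : ∀ t, |f t| ≤ C) (hC' : ∀ t, |deriv f t| ≤ C')
    {η : Sp N → ℝ} (hη : IsTest η) :
    IsH1 (fun x => η x * f (V x))
      (fun x => f (V x) • gradient η x + (η x * deriv f (V x)) • W x) := by
  obtain ⟨φ, hφ, h1, h2⟩ := h.2.2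
  obtain ⟨σ, hσ, hae⟩ := exists_subseq_ae (r := 2) (by norm_num)
    (fun n => ((hφ n).memLp 2).1) h.1.1 h1
  have hfd : Differentiable ℝ f := hf.differentiable (by simp)
  have hfc : Continuous f := hf.continuous
  have hfc' : Continuous (deriv f) := hf.continuous_deriv (by simp)
  obtain ⟨D, hD0, hD⟩ := hη.exists_bound
  obtain ⟨D', hD0', hD'⟩ := hη.exists_bound_gradient
  have hC0 : 0 ≤ C := (abs_nonneg _).trans (hC 0)
  have hC0' : 0 ≤ C' := (abs_nonneg _).trans (hC' 0)
  have hlip : ∀ a b, |f a - f b| ≤ C' * |a - b| := by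
    intro a b
    have := Convex.norm_image_sub_le_of_norm_deriv_le (f := f) (s := Set.univ) (x := b) (y := a)
      (C := C') (fun x _ => hfd x) (fun x _ => hC' x) convex_univ (Set.mem_univ _)
      (Set.mem_univ _)
    exact this
  have hVm := h.1.1
  have hWm := h.2.1.1
  have hηm := hη.continuous.aestronglyMeasurable (μ := volume)
  have hηm' := hη.continuous_gradient.aestronglyMeasurable (μ := volume)
  have hfV : AEStronglyMeasurable (fun x => f (V x)) volume := hfc.comp_aestronglyMeasurable hVm
  have hfV' : AEStronglyMeasurable (fun x => deriv f (V x)) volume :=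
    hfc'.comp_aestronglyMeasurable hVm
  refine ⟨?_, ?_, fun n x => η x * f (φ (σ n) x), fun n => ?_, ?_, ?_⟩
  · refine ((hη.memLp 2).const_mul C).of_le (hηm.mul hfV) (Eventually.of_forall fun x => ?_)
    rw [norm_mul, norm_mul, mul_comm, Real.norm_of_nonneg hC0]
    exact mul_le_mul_of_nonneg_right (hC _) (norm_nonneg _)
  · apply MemLp.add
    · refine ((hη.memLp_gradient 2).const_smul C).of_le (hfV.smul hηm')
        (Eventually.of_forall fun x => ?_)
      rw [norm_smul, Pi.smul_apply, norm_smul, Real.norm_of_nonneg hC0]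
      exact mul_le_mul_of_nonneg_right (hC _) (norm_nonneg _)
    · refine (h.2.1.const_smul (D * C')).of_le ((hηm.mul hfV').smul hWm)
        (Eventually.of_forall fun x => ?_)
      rw [norm_smul, Pi.smul_apply, norm_smul, Real.norm_of_nonneg (by positivity : 0 ≤ D * C'),
        norm_mul]
      gcongr
      · exact hD x
      · exact hC' _
  · exact ⟨hη.1.mul (hf.comp (hφ _).1), hη.2.mul_right⟩
  · have h3 : Tendsto (fun n => ‖D * C'‖ₑ * eLpNorm (fun x => φ (σ n) x - V x) 2 volume) atTop
        (𝓝 0) := by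
      have := ENNReal.Tendsto.const_mul (a := ‖D * C'‖ₑ) (h1.comp hσ.tendsto_atTop)
        (Or.inr enorm_ne_top)
      rwa [mul_zero] at this
    refine tendsto_of_tendsto_of_tendsto_of_le_of_le tendsto_const_nhds h3 (fun _ => bot_le)
      fun n => ?_
    simp only
    rw [← eLpNorm_const_smul]
    apply eLpNorm_mono
    intro x
    rw [← mul_sub, norm_mul, Pi.smul_apply, norm_smul, Real.norm_of_nonneg
      (by positivity : 0 ≤ D * C'), mul_assoc]
    gcongr
    · exact hD x
    · exact hlip _ _
  · -- the gradients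
    have e1 : ∀ n, (fun x => gradient (fun x => η x * f (φ (σ n) x)) x -
        (f (V x) • gradient η x + (η x * deriv f (V x)) • W x)) =
        (fun x => (f (φ (σ n) x) - f (V x)) • gradient η x) +
        ((fun x => (η x * deriv f (φ (σ n) x)) • (gradient (φ (σ n)) x - W x)) +
        (fun x => (η x * (deriv f (φ (σ n) x) - deriv f (V x))) • W x)) := by
      intro n
      funext x
      have hd : Differentiable ℝ fun x => f (φ (σ n) x) := hfd.comp (hφ _).differentiable
      rw [gradient_mul' hη.differentiable hd, gradient_comp' hfd (hφ _).differentiable]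
      simp only [Pi.add_apply]
      module
    have mφ : ∀ n, AEStronglyMeasurable (φ (σ n)) volume := fun n => ((hφ _).memLp 2).1
    have m1 : ∀ n, AEStronglyMeasurable (fun x => (f (φ (σ n) x) - f (V x)) • gradient η x) volume :=
      fun n => ((hfc.comp_aestronglyMeasurable (mφ n)).sub hfV).smul hηm'
    have m2 : ∀ n, AEStronglyMeasurable (fun x => (η x * deriv f (φ (σ n) x)) •
        (gradient (φ (σ n)) x - W x)) volume := fun n =>
      (hηm.mul (hfc'.comp_aestronglyMeasurable (mφ n))).smul
        (((hφ _).memLp_gradient 2).1.sub hWm)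
    have m3 : ∀ n, AEStronglyMeasurable (fun x => (η x * (deriv f (φ (σ n) x) - deriv f (V x))) •
        W x) volume := fun n =>
      (hηm.mul ((hfc'.comp_aestronglyMeasurable (mφ n)).sub hfV')).smul hWm
    have t1 : Tendsto (fun n => eLpNorm (fun x => (f (φ (σ n) x) - f (V x)) • gradient η x) 2
        volume) atTop (𝓝 0) := by
      have h3 : Tendsto (fun n => ‖C' * D'‖ₑ * eLpNorm (fun x => φ (σ n) x - V x) 2 volume) atTop
          (𝓝 0) := by
        have := ENNReal.Tendsto.const_mul (a := ‖C' * D'‖ₑ) (h1.comp hσ.tendsto_atTop)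
          (Or.inr enorm_ne_top)
        rwa [mul_zero] at this
      refine tendsto_of_tendsto_of_tendsto_of_le_of_le tendsto_const_nhds h3 (fun _ => bot_le)
        fun n => ?_
      simp only
      rw [← eLpNorm_const_smul]
      apply eLpNorm_mono
      intro x
      rw [norm_smul, Pi.smul_apply, norm_smul, Real.norm_of_nonneg
        (by positivity : 0 ≤ C' * D')]
      calc ‖f (φ (σ n) x) - f (V x)‖ * ‖gradient η x‖
          ≤ (C' * ‖φ (σ n) x - V x‖) * D' := by
            gcongr
            · exact hlip _ _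
            · exact hD' x
        _ = _ := by ring
    have t2 : Tendsto (fun n => eLpNorm (fun x => (η x * deriv f (φ (σ n) x)) •
        (gradient (φ (σ n)) x - W x)) 2 volume) atTop (𝓝 0) := by
      have h3 : Tendsto (fun n => ‖D * C'‖ₑ *
          eLpNorm (fun x => gradient (φ (σ n)) x - W x) 2 volume) atTop (𝓝 0) := by
        have := ENNReal.Tendsto.const_mul (a := ‖D * C'‖ₑ) (h2.comp hσ.tendsto_atTop)
          (Or.inr enorm_ne_top)
        rwa [mul_zero] at this
      refine tendsto_of_tendsto_of_tendsto_of_le_of_le tendsto_const_nhds h3 (fun _ => bot_le)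
        fun n => ?_
      simp only
      rw [← eLpNorm_const_smul]
      apply eLpNorm_mono
      intro x
      rw [norm_smul, Pi.smul_apply, norm_smul, Real.norm_of_nonneg
        (by positivity : 0 ≤ D * C'), norm_mul]
      gcongr
      · exact hD x
      · exact hC' _
    have t3 : Tendsto (fun n => eLpNorm (fun x => (η x * (deriv f (φ (σ n) x) - deriv f (V x))) •
        W x) 2 volume) atTop (𝓝 0) := by
      have h3 : Tendsto (fun n => ∫⁻ x, ‖(η x * (deriv f (φ (σ n) x) - deriv f (V x))) • W x‖ₑ ^ 2)
          atTop (𝓝 (∫⁻ _ : Sp N, 0)) := by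
        refine tendsto_lintegral_of_dominated_convergence' (fun x => ‖(D * (2 * C')) • W x‖ₑ ^ 2)
          (fun n => (m3 n).enorm.pow_const 2) (fun n => Eventually.of_forall fun x => ?_) ?_ ?_
        · dsimp only
          gcongr
          rw [enorm_le_iff_norm_le, norm_smul, norm_smul,
            Real.norm_of_nonneg (by positivity : 0 ≤ D * (2 * C')), norm_mul]
          gcongr
          · exact hD x
          · refine (norm_sub_le _ _).trans ?_
            have a1 := hC' (φ (σ n) x)
            have a2 := hC' (V x)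
            rw [Real.norm_eq_abs, Real.norm_eq_abs]
            linarith
        · rw [lintegral_sq_eq]
          have := (h.2.1.const_smul (D * (2 * C'))).eLpNorm_ne_top
          exact ENNReal.pow_ne_top this
        · filter_upwards [hae] with x hx
          have h4 : Tendsto (fun n => (η x * (deriv f (φ (σ n) x) - deriv f (V x))) • W x) atTop
              (𝓝 ((η x * (deriv f (V x) - deriv f (V x))) • W x)) :=
            ((((hfc'.tendsto _).comp hx).sub_const _).const_mul _).smul_const _
          rw [sub_self, mul_zero, zero_smul] at h4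
          have h5 := ENNReal.Tendsto.pow (n := 2) h4.enorm
          simpa using h5
      simp only [lintegral_zero, lintegral_sq_eq] at h3
      have h4 := h3.ennrpow_const (1 / 2)
      rw [ENNReal.zero_rpow_of_pos (by norm_num)] at h4
      refine h4.congr fun n => ?_
      rw [← ENNReal.rpow_natCast, ← ENNReal.rpow_mul]
      simp
    have t4 := t1.add (t2.add t3)
    rw [add_zero, add_zero] at t4
    refine tendsto_of_tendsto_of_tendsto_of_le_of_le tendsto_const_nhds t4 (fun _ => bot_le)
      fun n => ?_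
    simp only
    rw [e1]
    exact (eLpNorm_add_le (m1 n) ((m2 n).add (m3 n)) (by norm_num)).trans
      (add_le_add le_rfl (eLpNorm_add_le (m2 n) (m3 n) (by norm_num)))

variable [hN : Fact (3 ≤ N)]

/-- The weak formulation extends to test functions in `H¹`. -/
lemma IsWeakSol.extend {a : ℝ} {Q : Sp N → ℝ} {p : ℝ} (hp : 2 < p) (hp' : p < twoStar N)
    {V : Sp N → ℝ} {W : Sp N → Sp N} (hV : IsH1 V W) (hsol : IsWeakSol a Q p V W)
    (hQ : Measurable Q) (hQ1 : ∀ x, |Q x| ≤ 1) {ψ : Sp N → ℝ} {Ψ : Sp N → Sp N}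
    (hψ : IsH1 ψ Ψ) :
    (∫ x, inner ℝ (W x) (Ψ x)) + a * ∫ x, V x * ψ x =
      ∫ x, (Q x * (|V x| ^ (p - 2) * V x)) * ψ x := by
  obtain ⟨φ, hφ, h1, h2⟩ := hψ.2.2
  obtain ⟨h3, h4⟩ := hψ.memLp_of_approx hp hp' hφ h1 h2
  have hVp := hV.memLp_p hp hp'
  have m3 : MemLp (fun x => Q x * (|V x| ^ (p - 2) * V x))
      (ENNReal.ofReal (p / (p - 1))) volume := by
    have h5 := memLp_pow (by linarith) hVp
    refine h5.of_le (hQ.aestronglyMeasurable.mul h5.1) ?_
    refine Eventually.of_forall fun x => ?_
    rw [norm_mul]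
    exact mul_le_of_le_one_left (norm_nonneg _) (hQ1 x)
  have t1 := tendsto_integral_inner hV.2.1 (fun n => (hφ n).memLp_gradient 2) hψ.2.1 h2
  have t2 := tendsto_integral_inner hV.1 (fun n => (hφ n).memLp 2) hψ.1 h1
  have t3 := tendsto_integral_mul_p (by linarith) m3 (fun n => (hφ n).memLp _) h3 h4
  have e : ∀ n, (∫ x, inner ℝ (W x) (gradient (φ n) x)) + a * (∫ x, inner ℝ (V x) (φ n x)) =
      ∫ x, (Q x * (|V x| ^ (p - 2) * V x)) * φ n x := by
    intro n
    rw [← hsol (φ n) (hφ n), ← integral_const_mul, ← integral_add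
      (integrable_inner' hV.2.1 ((hφ n).memLp_gradient 2))
      ((integrable_inner' hV.1 ((hφ n).memLp 2)).const_mul a)]
    congr 1
    funext x
    simp only [RCLike.inner_apply, conj_trivial]
    ring
  have e3 := tendsto_nhds_unique ((t1.add (t2.const_mul a)).congr e) t3
  rw [← e3]
  congr 3
  funext x
  simp only [RCLike.inner_apply, conj_trivial]
  ring

end Pool.Agent.Lib.MP_bf093f_an
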