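import Pool.Agent.Lib.MP_bf093f_an.QOne

set_option autoImplicit false

/-! # Cutoffs at infinity and density -/

namespace Pool.Agent.Lib.MP_bf093f_an

open MeasureTheory Filter Topology Metric
open scoped ContDiff ENNReal NNReal

variable {N : ℕ}

/-! ## Tails -/

lemma tendsto_tail {F : Type} [NormedAddCommGroup F] {r : ℝ≥0∞} (hr : r ≠ 0) (hr' : r ≠ ⊤)
    {f : Sp N → F} (hf : MemLp f r volume) {ρ : ℕ → ℝ} (hρ : Tendsto ρ atTop atTop) :
    Tendsto (fun n => eLpNorm f r (volume.restrict (ball 0 (ρ n))ᶜ)) atTop (𝓝 0) := by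
  have hr0 : 0 < r.toReal := ENNReal.toReal_pos hr hr'
  have h1 : Tendsto (fun n => ∫⁻ x, ((ball (0 : Sp N) (ρ n))ᶜ).indicator
      (fun x => ‖f x‖ₑ ^ r.toReal) x) atTop (𝓝 (∫⁻ _ : Sp N, 0)) := by
    refine tendsto_lintegral_of_dominated_convergence' (fun x => ‖f x‖ₑ ^ r.toReal)
      (fun n => ?_) (fun n => ?_) ?_ ?_
    · exact ((hf.1.enorm.pow_const _).indicator measurableSet_ball.compl)
    · refine Eventually.of_forall fun x => ?_
      exact Set.indicator_le_self _ _ x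
    · exact (lintegral_rpow_enorm_lt_top_of_eLpNorm_lt_top hr hr' hf.2).ne
    · refine Eventually.of_forall fun x => ?_
      apply tendsto_const_nhds.congr'
      filter_upwards [hρ.eventually_gt_atTop ‖x‖] with n hn
      rw [Set.indicator_of_notMem]
      simpa using hn
  rw [lintegral_zero] at h1
  have h2 := h1.ennrpow_const (1 / r.toReal)
  rw [ENNReal.zero_rpow_of_pos (by positivity)] at h2
  refine h2.congr fun n => ?_
  rw [eLpNorm_eq_lintegral_rpow_enorm_toReal hr hr', lintegral_indicator measurableSet_ball.compl]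

/-! ## The cutoff functions -/

lemma cut_zero_eq_one {δ : ℝ} (hδ : 0 < δ) {x : Sp N} (hx : x ∈ ball (0 : Sp N) (1 / (4 * δ))) :
    cut δ 0 x = 1 := by
  rw [cut, cut_arg, sub_zero]
  apply (bump N).one_of_mem_closedBall
  rw [mem_closedBall_zero_iff, norm_smul, Real.norm_of_nonneg hδ.le]
  rw [mem_ball_zero_iff] at hx
  change δ * ‖x‖ ≤ 1 / 4
  have h2 : δ * (1 / (4 * δ)) = 1 / 4 := by field_simp
  rw [← h2]
  exact mul_le_mul_of_nonneg_left hx.le hδ.le

lemma gradient_cut_zero {δ : ℝ} (hδ : 0 < δ) {x : Sp N}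
    (hx : x ∈ ball (0 : Sp N) (1 / (4 * δ))) : gradient (cut δ 0) x = 0 := by
  have h1 : cut δ 0 =ᶠ[𝓝 x] fun _ => (1 : ℝ) := by
    filter_upwards [isOpen_ball.mem_nhds hx] with y hy
    exact cut_zero_eq_one hδ hy
  rw [gradient, h1.fderiv_eq]
  simp

lemma gradient_cut_zero' {δ : ℝ} (hδ : 0 < δ) {x : Sp N}
    (hx : x ∉ cell δ (0 : Sp N)) : gradient (cut δ 0) x = 0 := by
  rw [gradient, (cut_eventually_zero hδ hx).fderiv_eq]
  simp

lemma cut_eq_zero {δ : ℝ} (hδ : 0 < δ) {x : Sp N}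
    (hx : x ∉ cell δ (0 : Sp N)) : cut δ 0 x = 0 :=
  (cut_eventually_zero hδ hx).self_of_nhds

/-- The constant in the estimate of the commutator with the cutoff. -/
noncomputable def comC (N : ℕ) : ℝ≥0∞ :=
  ENNReal.ofReal (bumpC N) * (ENNReal.ofReal (1 / 3) * volume (ball (0 : Sp N) 1) ^ (1 / (N : ℝ)))

lemma comC_ne_top : comC N ≠ ⊤ := by
  unfold comC
  refine ENNReal.mul_ne_top ENNReal.ofReal_ne_top (ENNReal.mul_ne_top ENNReal.ofReal_ne_top ?_)
  exact ENNReal.rpow_ne_top_of_nonneg (by positivity) measure_ball_lt_top.ne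

variable [hN : Fact (3 ≤ N)]

lemma volume_cell_rpow {δ : ℝ} (hδ : 0 < δ) :
    volume (cell δ (0 : Sp N)) ^ (1 / (N : ℝ)) =
      ENNReal.ofReal (1 / (3 * δ)) * volume (ball (0 : Sp N) 1) ^ (1 / (N : ℝ)) := by
  have hN0 : (N : ℝ) ≠ 0 := by
    have := hN.out
    positivity
  rw [cell, Measure.addHaar_closedBall _ _ (by positivity), ENNReal.mul_rpow_of_nonneg _ _
    (by positivity)]
  congr 1
  rw [show Module.finrank ℝ (Sp N) = N by simp, ENNReal.ofReal_pow (by positivity),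
    ← ENNReal.rpow_natCast, ← ENNReal.rpow_mul]
  rw [mul_one_div_cancel hN0, ENNReal.rpow_one]

/-- The commutator estimate. -/
lemma eLpNorm_mul_gradient_cut_le {δ : ℝ} (hδ : 0 < δ) {v : Sp N → ℝ}
    (hv : AEStronglyMeasurable v volume) :
    eLpNorm (fun x => v x • gradient (cut δ 0) x) 2 volume ≤
      comC N * eLpNorm v (qs N) (volume.restrict (ball 0 (1 / (4 * δ)))ᶜ) := by
  set S : Set (Sp N) := cell δ 0 ∩ (ball 0 (1 / (4 * δ)))ᶜ with hS
  have hSm : MeasurableSet S := measurableSet_cell.inter measurableSet_ball.compl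
  have hD : 0 ≤ δ * bumpC N := mul_nonneg hδ.le bumpC_nonneg
  have h1 : eLpNorm (fun x => v x • gradient (cut δ 0) x) 2 volume ≤
      eLpNorm (S.indicator (fun x => (δ * bumpC N) * v x)) 2 volume := by
    apply eLpNorm_mono
    intro x
    by_cases hx : x ∈ S
    · rw [Set.indicator_of_mem hx, norm_smul, norm_mul, Real.norm_of_nonneg hD, mul_comm]
      gcongr
      exact norm_gradient_cut_le hδ _ _
    · have h2 : gradient (cut δ 0) x = 0 := by
        rw [hS, Set.mem_inter_iff, not_and_or] at hx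
        rcases hx with hx | hx
        · exact gradient_cut_zero' hδ hx
        · exact gradient_cut_zero hδ (not_not.mp hx)
      rw [h2, smul_zero, norm_zero]
      exact norm_nonneg _
  refine h1.trans ?_
  rw [eLpNorm_indicator_eq_eLpNorm_restrict hSm]
  rw [show (fun x => (δ * bumpC N) * v x) = (δ * bumpC N) • v from rfl, eLpNorm_const_smul,
    Real.enorm_of_nonneg hD]
  have h3 := eLpNorm_le_eLpNorm_mul_rpow_measure_univ (μ := volume.restrict S) (p := 2)
    (q := qs N) (two_le_qs hN.out) hv.restrict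
  have h4 : 1 / (2 : ℝ≥0∞).toReal - 1 / (qs N).toReal = 1 / (N : ℝ) := by
    rw [qs_toReal hN.out, one_div (twoStar N), inv_twoStar hN.out]
    simp
  rw [h4, Measure.restrict_apply MeasurableSet.univ, Set.univ_inter] at h3
  have hNpos : 0 ≤ 1 / (N : ℝ) := by positivity
  have h5 : volume S ^ (1 / (N : ℝ)) ≤
      ENNReal.ofReal (1 / (3 * δ)) * volume (ball (0 : Sp N) 1) ^ (1 / (N : ℝ)) := by
    rw [← volume_cell_rpow hδ]
    exact ENNReal.rpow_le_rpow (measure_mono Set.inter_subset_left) hNpos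
  have h6 : eLpNorm v (qs N) (volume.restrict S) ≤
      eLpNorm v (qs N) (volume.restrict (ball 0 (1 / (4 * δ)))ᶜ) :=
    eLpNorm_mono_measure _ (Measure.restrict_mono_set _ Set.inter_subset_right)
  have h7 : ENNReal.ofReal (δ * bumpC N) * ENNReal.ofReal (1 / (3 * δ)) =
      ENNReal.ofReal (bumpC N) * ENNReal.ofReal (1 / 3) := by
    rw [← ENNReal.ofReal_mul hD, ← ENNReal.ofReal_mul bumpC_nonneg]
    congr 1
    field_simp
  calc ENNReal.ofReal (δ * bumpC N) * eLpNorm v 2 (volume.restrict S)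
      ≤ ENNReal.ofReal (δ * bumpC N) *
        (eLpNorm v (qs N) (volume.restrict (ball 0 (1 / (4 * δ)))ᶜ) *
          (ENNReal.ofReal (1 / (3 * δ)) * volume (ball (0 : Sp N) 1) ^ (1 / (N : ℝ)))) := by
        refine mul_le_mul_right (h3.trans ?_) _
        exact mul_le_mul' h6 h5
    _ = (ENNReal.ofReal (δ * bumpC N) * ENNReal.ofReal (1 / (3 * δ))) *
          volume (ball (0 : Sp N) 1) ^ (1 / (N : ℝ)) *
          eLpNorm v (qs N) (volume.restrict (ball 0 (1 / (4 * δ)))ᶜ) := by ring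
    _ = _ := by
        rw [h7, comC]
        ring

omit hN in
lemma eLpNorm_one_sub_cut_le {F : Type} [NormedAddCommGroup F] [NormedSpace ℝ F]
    {δ : ℝ} (hδ : 0 < δ) {r : ℝ≥0∞} (f : Sp N → F) :
    eLpNorm (fun x => cut δ 0 x • f x - f x) r volume ≤
      eLpNorm f r (volume.restrict (ball 0 (1 / (4 * δ)))ᶜ) := by
  rw [← eLpNorm_indicator_eq_eLpNorm_restrict measurableSet_ball.compl]
  apply eLpNorm_mono
  intro x
  by_cases hx : x ∈ ball (0 : Sp N) (1 / (4 * δ))
  · rw [cut_zero_eq_one hδ hx, one_smul, sub_self, norm_zero]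
    exact norm_nonneg _
  · rw [Set.indicator_of_mem (Set.mem_compl hx)]
    have h1 : cut δ 0 x • f x - f x = (cut δ 0 x - 1) • f x := by rw [sub_smul, one_smul]
    rw [h1, norm_smul]
    have h2 : ‖cut δ 0 x - 1‖ ≤ 1 := by
      have h3 := cut_nonneg (ε := δ) (c := 0) (x := x)
      have h4 := cut_le_one (ε := δ) (c := 0) (x := x)
      rw [Real.norm_eq_abs, abs_le]
      constructor <;> linarith
    exact mul_le_of_le_one_left (norm_nonneg _) h2

end Pool.Agent.Lib.MP_bf093f_an
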