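import Mathlib

set_option autoImplicit false

/-!
# Definitions for the periodic self-focusing core problem

The space `H¹(ℝᴺ)` (resp. `D^{1,2}(ℝᴺ)`) is described as the set of limits of test functions
`φ ∈ C_c^∞(ℝᴺ)`, in the norm `‖φ‖_{L²} + ‖∇φ‖_{L²}` (resp. `‖φ‖_{L^{2*}} + ‖∇φ‖_{L²}`).  The
function is always given together with its gradient.
-/

namespace Pool.Agent.Lib.MP_bf093f_an

open MeasureTheory Filter Topology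
open scoped ContDiff ENNReal

/-- `ℝᴺ`. -/
abbrev Sp (N : ℕ) : Type := EuclideanSpace ℝ (Fin N)

/-- Test functions: `φ ∈ C_c^∞(ℝᴺ)`. -/
def IsTest {N : ℕ} (φ : Sp N → ℝ) : Prop := ContDiff ℝ ∞ φ ∧ HasCompactSupport φ

/-- `u ∈ L^r`, `g ∈ L²`, and there are test functions `φ n` with `φ n → u` in `L^r` and
`∇ (φ n) → g` in `L²`. -/
def IsSobolev {N : ℕ} (r : ℝ≥0∞) (u : Sp N → ℝ) (g : Sp N → Sp N) : Prop :=
  MemLp u r volume ∧ MemLp g 2 volume ∧ ∃ φ : ℕ → Sp N → ℝ, (∀ n, IsTest (φ n)) ∧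
    Tendsto (fun n => eLpNorm (fun x => φ n x - u x) r volume) atTop (𝓝 0) ∧
    Tendsto (fun n => eLpNorm (fun x => gradient (φ n) x - g x) 2 volume) atTop (𝓝 0)

/-- `u ∈ H¹(ℝᴺ)` with gradient `g`. -/
def IsH1 {N : ℕ} (u : Sp N → ℝ) (g : Sp N → Sp N) : Prop := IsSobolev 2 u g

/-- The critical exponent `2* = 2N/(N-2)`. -/
noncomputable def twoStar (N : ℕ) : ℝ := 2 * N / (N - 2)

/-- `u ∈ D^{1,2}(ℝᴺ)` with gradient `g`. -/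
def IsD12 {N : ℕ} (u : Sp N → ℝ) (g : Sp N → Sp N) : Prop :=
  IsSobolev (ENNReal.ofReal (twoStar N)) u g

/-- The lattice point `k ∈ ℤᴺ ⊂ ℝᴺ`. -/
def lat {N : ℕ} (k : Fin N → ℤ) : Sp N := WithLp.toLp 2 (fun i => (k i : ℝ))

open scoped Classical in
/-- `Q_ε`: equal to `1` on the union of the balls `B_ε(k)`, `k ∈ ℤᴺ`, and to `-1` elsewhere. -/
noncomputable def coreSign {N : ℕ} (ε : ℝ) (x : Sp N) : ℝ :=
  if ∃ k : Fin N → ℤ, dist x (lat k) < ε then 1 else -1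

/-- `∫ (|∇u|² + a u²)`, where `g` is the gradient of `u`. -/
noncomputable def quadForm {N : ℕ} (a : ℝ) (u : Sp N → ℝ) (g : Sp N → Sp N) : ℝ :=
  ∫ x, (‖g x‖ ^ 2 + a * u x ^ 2)

/-- `∫ Q |u|^p`. -/
noncomputable def coreInt {N : ℕ} (Q : Sp N → ℝ) (p : ℝ) (u : Sp N → ℝ) : ℝ :=
  ∫ x, Q x * |u x| ^ p

/-- The energy `½ ∫ (|∇u|² + a u²) - (1/p) ∫ Q |u|^p`. -/
noncomputable def energy {N : ℕ} (a : ℝ) (Q : Sp N → ℝ) (p : ℝ) (u : Sp N → ℝ)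
    (g : Sp N → Sp N) : ℝ :=
  quadForm a u g / 2 - coreInt Q p u / p

/-- `u` (with gradient `g`) belongs to the Nehari manifold. -/
def IsNehari {N : ℕ} (a : ℝ) (Q : Sp N → ℝ) (p : ℝ) (u : Sp N → ℝ) (g : Sp N → Sp N) : Prop :=
  IsH1 u g ∧ ¬ (u =ᵐ[volume] 0) ∧ quadForm a u g = coreInt Q p u

/-- `u` (with gradient `g`) is a weak solution of `-Δu + a u = Q |u|^{p-2} u`. -/
def IsWeakSol {N : ℕ} (a : ℝ) (Q : Sp N → ℝ) (p : ℝ) (u : Sp N → ℝ) (g : Sp N → Sp N) : Prop :=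
  ∀ φ : Sp N → ℝ, IsTest φ →
    ∫ x, (inner ℝ (g x) (gradient φ x) + a * u x * φ x) = ∫ x, Q x * (|u x| ^ (p - 2) * u x) * φ x

/-- `u` is a least energy solution of `-Δu + a u = Q |u|^{p-2} u`, `u ∈ H¹(ℝᴺ)`. -/
def IsLeastEnergySol {N : ℕ} (a : ℝ) (Q : Sp N → ℝ) (p : ℝ) (u : Sp N → ℝ) : Prop :=
  ∃ g : Sp N → Sp N, IsNehari a Q p u g ∧ IsWeakSol a Q p u g ∧
    ∀ w h, IsNehari a Q p w h → energy a Q p u g ≤ energy a Q p w h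

/-- The rescaled function `v(x) = ε^{2/(p-2)} u(εx + k)`. -/
noncomputable def rescale {N : ℕ} (p ε : ℝ) (k : Fin N → ℤ) (u : Sp N → ℝ) : Sp N → ℝ :=
  fun x => ε ^ (2 / (p - 2)) * u (ε • x + lat k)

/-- Weak convergence `v n ⇀ v` in `D^{1,2}(ℝᴺ)`. -/
def WeakConv {N : ℕ} (v : ℕ → Sp N → ℝ) (v' : Sp N → ℝ) : Prop :=
  ∃ (G : ℕ → Sp N → Sp N) (g : Sp N → Sp N), (∀ n, IsD12 (v n) (G n)) ∧ IsD12 v' g ∧
    ∀ w h, IsD12 w h →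
      Tendsto (fun n => ∫ x, inner ℝ (G n x) (h x)) atTop (𝓝 (∫ x, inner ℝ (g x) (h x)))

/-- Strong convergence `v n → v'` in `D^{1,2}(ℝᴺ) ∩ L^p(ℝᴺ)`. -/
def StrongConv {N : ℕ} (p : ℝ) (v : ℕ → Sp N → ℝ) (v' : Sp N → ℝ) : Prop :=
  (∃ (G : ℕ → Sp N → Sp N) (g : Sp N → Sp N), (∀ n, IsD12 (v n) (G n)) ∧ IsD12 v' g ∧
    Tendsto (fun n => eLpNorm (fun x => G n x - g x) 2 volume) atTop (𝓝 0)) ∧
  (∀ n, MemLp (v n) (ENNReal.ofReal p) volume) ∧ MemLp v' (ENNReal.ofReal p) volume ∧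
    Tendsto (fun n => eLpNorm (fun x => v n x - v' x) (ENNReal.ofReal p) volume) atTop (𝓝 0)

end Pool.Agent.Lib.MP_bf093f_an
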