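import Pool.Agent.Lib.MP_bf093f_an.Cutoff

set_option autoImplicit false

/-! # Density of test functions in `D^{1,2} ∩ L^p` -/

namespace Pool.Agent.Lib.MP_bf093f_an

open MeasureTheory Filter Topology Metric
open scoped ContDiff ENNReal NNReal

variable {N : ℕ} [hN : Fact (3 ≤ N)]

/-- The Hölder constant on the cell. -/
noncomputable def cellH (N : ℕ) (p δ : ℝ) : ℝ≥0∞ :=
  volume (cell δ (0 : Sp N)) ^ (1 / p - 1 / twoStar N)

omit hN in
lemma cellH_ne_top {p δ : ℝ} (hp : 0 < p) (hp' : p < twoStar N) : cellH N p δ ≠ ⊤ := by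
  unfold cellH
  apply ENNReal.rpow_ne_top_of_nonneg
  · have : 1 / twoStar N ≤ 1 / p := one_div_le_one_div_of_le hp hp'.le
    linarith
  · exact measure_closedBall_lt_top.ne

lemma eLpNorm_cut_smul_le {p δ : ℝ} (hp : 0 < p) (hp' : p < twoStar N) (hδ : 0 < δ)
    {f : Sp N → ℝ} (hf : AEStronglyMeasurable f volume) :
    eLpNorm (fun x => cut δ 0 x * f x) (ENNReal.ofReal p) volume ≤
      cellH N p δ * eLpNorm f (qs N) volume := by
  have h1 : eLpNorm (fun x => cut δ 0 x * f x) (ENNReal.ofReal p) volume ≤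
      eLpNorm ((cell δ (0 : Sp N)).indicator f) (ENNReal.ofReal p) volume := by
    apply eLpNorm_mono
    intro x
    by_cases hx : x ∈ cell δ (0 : Sp N)
    · rw [Set.indicator_of_mem hx, norm_mul, Real.norm_of_nonneg cut_nonneg]
      exact mul_le_of_le_one_left (norm_nonneg _) cut_le_one
    · rw [Set.indicator_of_notMem hx, cut_eq_zero hδ hx, zero_mul]
  refine h1.trans ?_
  rw [eLpNorm_indicator_eq_eLpNorm_restrict measurableSet_cell]
  have h2 := eLpNorm_le_eLpNorm_mul_rpow_measure_univ (μ := volume.restrict (cell δ (0 : Sp N)))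
    (p := ENNReal.ofReal p) (q := qs N) (ENNReal.ofReal_le_ofReal hp'.le) hf.restrict
  rw [ENNReal.toReal_ofReal hp.le, qs_toReal hN.out, Measure.restrict_apply MeasurableSet.univ,
    Set.univ_inter] at h2
  refine h2.trans ?_
  rw [mul_comm, cellH]
  gcongr
  exact Measure.restrict_le_self

lemma approx_err_p {p δ : ℝ} (hp : 1 ≤ p) (hp' : p < twoStar N) (hδ : 0 < δ)
    {v φ : Sp N → ℝ} (hv : AEStronglyMeasurable v volume) (hφ : IsTest φ) :
    eLpNorm (fun x => cut δ 0 x * φ x - v x) (ENNReal.ofReal p) volume ≤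
      cellH N p δ * eLpNorm (fun x => φ x - v x) (qs N) volume +
      eLpNorm v (ENNReal.ofReal p) (volume.restrict (ball 0 (1 / (4 * δ)))ᶜ) := by
  have hc := (isTest_cut hδ (0 : Sp N)).continuous.aestronglyMeasurable (μ := volume)
  have h1 := eLpNorm_add_le (μ := (volume : Measure (Sp N))) (p := ENNReal.ofReal p)
    (f := fun x => cut δ 0 x * (φ x - v x)) (g := fun x => cut δ 0 x • v x - v x)
    (hc.mul (hφ.continuous.aestronglyMeasurable.sub hv)) ((hc.smul hv).sub hv) (by
      rw [← ENNReal.ofReal_one]; exact ENNReal.ofReal_le_ofReal hp)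
  refine le_trans (le_of_eq ?_) (h1.trans (add_le_add (eLpNorm_cut_smul_le (by linarith) hp' hδ
    (hφ.continuous.aestronglyMeasurable.sub hv)) (eLpNorm_one_sub_cut_le hδ v)))
  congr 1
  funext x
  simp only [Pi.add_apply, smul_eq_mul]
  ring

lemma approx_err_grad {δ : ℝ} (hδ : 0 < δ) {v φ : Sp N → ℝ} {g : Sp N → Sp N}
    (hv : AEStronglyMeasurable v volume) (hg : AEStronglyMeasurable g volume) (hφ : IsTest φ) :
    eLpNorm (fun x => gradient (fun x => cut δ 0 x * φ x) x - g x) 2 volume ≤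
      (eLpNorm (fun x => gradient φ x - g x) 2 volume +
        comC N * eLpNorm (fun x => φ x - v x) (qs N) volume) +
      (eLpNorm g 2 (volume.restrict (ball 0 (1 / (4 * δ)))ᶜ) +
        comC N * eLpNorm v (qs N) (volume.restrict (ball 0 (1 / (4 * δ)))ᶜ)) := by
  have hη := isTest_cut hδ (0 : Sp N)
  have hc := hη.continuous.aestronglyMeasurable (μ := volume)
  have hc' := hη.continuous_gradient.aestronglyMeasurable (μ := volume)
  have hφm := hφ.continuous.aestronglyMeasurable (μ := volume)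
  have hφm' := hφ.continuous_gradient.aestronglyMeasurable (μ := volume)
  have m1 : AEStronglyMeasurable (fun x => cut δ 0 x • (gradient φ x - g x)) volume :=
    hc.smul (hφm'.sub hg)
  have m2 : AEStronglyMeasurable (fun x => (φ x - v x) • gradient (cut δ 0) x) volume :=
    (hφm.sub hv).smul hc'
  have m3 : AEStronglyMeasurable (fun x => cut δ 0 x • g x - g x) volume := (hc.smul hg).sub hg
  have m4 : AEStronglyMeasurable (fun x => v x • gradient (cut δ 0) x) volume := hv.smul hc'
  have e1 : (fun x => gradient (fun x => cut δ 0 x * φ x) x - g x) =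
      ((fun x => cut δ 0 x • (gradient φ x - g x)) + (fun x => (φ x - v x) • gradient (cut δ 0) x)) +
      ((fun x => cut δ 0 x • g x - g x) + (fun x => v x • gradient (cut δ 0) x)) := by
    funext x
    simp only [Pi.add_apply]
    rw [gradient_mul' hη.differentiable hφ.differentiable]
    module
  rw [e1]
  refine (eLpNorm_add_le (m1.add m2) (m3.add m4) (by norm_num)).trans (add_le_add ?_ ?_)
  · refine (eLpNorm_add_le m1 m2 (by norm_num)).trans (add_le_add ?_ ?_)
    · apply eLpNorm_mono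
      intro x
      rw [norm_smul, Real.norm_of_nonneg cut_nonneg]
      exact mul_le_of_le_one_left (norm_nonneg _) cut_le_one
    · refine (eLpNorm_mul_gradient_cut_le hδ (hφm.sub hv)).trans ?_
      gcongr
      exact eLpNorm_mono_measure _ Measure.restrict_le_self
  · refine (eLpNorm_add_le m3 m4 (by norm_num)).trans (add_le_add ?_ ?_)
    · exact eLpNorm_one_sub_cut_le hδ g
    · exact eLpNorm_mul_gradient_cut_le hδ hv

/-- Test functions are dense in `D^{1,2} ∩ L^p`. -/
lemma IsD12.exists_approx {p : ℝ} (hp : 1 ≤ p) (hp' : p < twoStar N) {v : Sp N → ℝ}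
    {g : Sp N → Sp N} (h : IsD12 v g) (hvp : MemLp v (ENNReal.ofReal p) volume) :
    ∃ w : ℕ → Sp N → ℝ, (∀ m, IsTest (w m)) ∧
      Tendsto (fun m => eLpNorm (fun x => w m x - v x) (ENNReal.ofReal p) volume) atTop (𝓝 0) ∧
      Tendsto (fun m => eLpNorm (fun x => gradient (w m) x - g x) 2 volume) atTop (𝓝 0) := by
  obtain ⟨φ, hφ, h1, h2⟩ := h.2.2
  have hp0 : 0 < p := by linarith
  have hP : ENNReal.ofReal p ≠ 0 := by rw [Ne, ENNReal.ofReal_eq_zero, not_le]; exact hp0
  set δ : ℕ → ℝ := fun m => 1 / ((m : ℝ) + 1) with hδ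
  have hδ0 : ∀ m, 0 < δ m := fun m => by positivity
  have hρ : Tendsto (fun m => 1 / (4 * δ m)) atTop atTop := by
    have h3 : (fun m => 1 / (4 * δ m)) = fun m : ℕ => (1 / 4) * ((m : ℝ) + 1) := by
      funext m
      simp only [hδ]
      field_simp
    rw [h3]
    exact (tendsto_atTop_add_const_right _ _ tendsto_natCast_atTop_atTop).const_mul_atTop
      (by norm_num)
  -- choice of the index
  have hch : ∀ m : ℕ, ∃ j : ℕ,
      cellH N p (δ m) * eLpNorm (fun x => φ j x - v x) (qs N) volume ≤ ENNReal.ofReal (δ m) ∧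
      eLpNorm (fun x => gradient (φ j) x - g x) 2 volume +
        comC N * eLpNorm (fun x => φ j x - v x) (qs N) volume ≤ ENNReal.ofReal (δ m) := by
    intro m
    have h3 : Tendsto (fun j => cellH N p (δ m) * eLpNorm (fun x => φ j x - v x) (qs N) volume)
        atTop (𝓝 0) := by
      simpa using ENNReal.Tendsto.const_mul h1 (Or.inr (cellH_ne_top hp0 hp'))
    have h4 : Tendsto (fun j => eLpNorm (fun x => gradient (φ j) x - g x) 2 volume +
        comC N * eLpNorm (fun x => φ j x - v x) (qs N) volume) atTop (𝓝 0) := by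
      simpa using h2.add (ENNReal.Tendsto.const_mul h1 (Or.inr comC_ne_top))
    have h5 : 0 < ENNReal.ofReal (δ m) := ENNReal.ofReal_pos.mpr (hδ0 m)
    exact ((ENNReal.tendsto_nhds_zero.mp h3 _ h5).and
      (ENNReal.tendsto_nhds_zero.mp h4 _ h5)).exists
  choose j hj1 hj2 using hch
  have hδlim : Tendsto (fun m => ENNReal.ofReal (δ m)) atTop (𝓝 0) := by
    rw [← ENNReal.ofReal_zero]
    exact ENNReal.tendsto_ofReal tendsto_one_div_add_atTop_nhds_zero_nat
  refine ⟨fun m x => cut (δ m) 0 x * φ (j m) x, fun m => IsTest.mul (isTest_cut (hδ0 m) 0).1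
    (hφ _), ?_, ?_⟩
  · have h3 : Tendsto (fun m => ENNReal.ofReal (δ m) + eLpNorm v (ENNReal.ofReal p)
        (volume.restrict (ball 0 (1 / (4 * δ m)))ᶜ)) atTop (𝓝 0) := by
      simpa using hδlim.add (tendsto_tail hP ENNReal.ofReal_ne_top hvp hρ)
    refine tendsto_of_tendsto_of_tendsto_of_le_of_le tendsto_const_nhds h3 (fun _ => bot_le)
      fun m => ?_
    refine (approx_err_p hp hp' (hδ0 m) h.1.1 (hφ _)).trans ?_
    gcongr
    exact hj1 m
  · have h3 : Tendsto (fun m => ENNReal.ofReal (δ m) +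
        (eLpNorm g 2 (volume.restrict (ball 0 (1 / (4 * δ m)))ᶜ) +
        comC N * eLpNorm v (qs N) (volume.restrict (ball 0 (1 / (4 * δ m)))ᶜ))) atTop (𝓝 0) := by
      have h4 := tendsto_tail (by norm_num) (by norm_num) h.2.1 hρ
      have h5 := ENNReal.Tendsto.const_mul (a := comC N)
        (tendsto_tail (qs_ne_zero hN.out) qs_ne_top h.1 hρ) (Or.inr comC_ne_top)
      simpa using hδlim.add (h4.add h5)
    refine tendsto_of_tendsto_of_tendsto_of_le_of_le tendsto_const_nhds h3 (fun _ => bot_le)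
      fun m => ?_
    refine (approx_err_grad (hδ0 m) h.1.1 h.2.1.1 (hφ _)).trans ?_
    gcongr
    exact hj2 m

end Pool.Agent.Lib.MP_bf093f_an
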