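import Pool.Agent.Lib.MP_bf093f_an.Fatou

set_option autoImplicit false

/-! # Convergence of the energies -/

namespace Pool.Agent.Lib.MP_bf093f_an

open MeasureTheory Filter Topology Metric
open scoped ContDiff ENNReal NNReal

variable {N : ℕ}

lemma integral_inner_self_eq {g : Sp N → Sp N} (hg : MemLp g 2 volume) :
    ∫ x, inner ℝ (g x) (g x) = (eLpNorm g 2 volume).toReal ^ 2 := by
  rw [← integral_inner_toLp hg hg, real_inner_self_eq_norm_sq, Lp.norm_toLp]

lemma quadForm_eq {a : ℝ} {u : Sp N → ℝ} {g : Sp N → Sp N} (h : IsH1 u g) :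
    quadForm a u g = (∫ x, inner ℝ (g x) (g x)) + a * ∫ x, u x ^ 2 := by
  rw [quadForm, ← integral_const_mul, ← integral_add (integrable_inner' h.2.1 h.2.1)
    (h.1.integrable_sq.const_mul a)]
  congr 1
  funext x
  rw [real_inner_self_eq_norm_sq]

lemma tendsto_coreInt_Qlim {p : ℝ} (hp : 1 ≤ p) {w : ℕ → Sp N → ℝ} {v : Sp N → ℝ}
    (hw : ∀ n, MemLp (w n) (ENNReal.ofReal p) volume) (hv : MemLp v (ENNReal.ofReal p) volume)
    (h : Tendsto (fun n => eLpNorm (fun x => w n x - v x) (ENNReal.ofReal p) volume) atTop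
      (𝓝 0)) :
    Tendsto (fun n => coreInt (Qlim N) p (w n)) atTop (𝓝 (coreInt (Qlim N) p v)) := by
  have hp0 : 0 < p := by linarith
  have key : ∀ S : Set (Sp N), Tendsto (fun n => ∫ x in S, |w n x| ^ p) atTop
      (𝓝 (∫ x in S, |v x| ^ p)) := by
    intro S
    rw [integral_abs_rpow hp0 hv.1.restrict]
    have h1 := tendsto_toReal_rpow hp0 (hv.restrict S).eLpNorm_ne_top
      (tendsto_eLpNorm (one_le_ofReal hp) (fun n => (hw n).restrict S) (hv.restrict S)
        (tendsto_eLpNorm_restrict h S))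
    exact h1.congr fun n => (integral_abs_rpow hp0 (hw n).1.restrict).symm
  have e : ∀ {k : Sp N → ℝ}, MemLp k (ENNReal.ofReal p) volume → coreInt (Qlim N) p k =
      (∫ x in ball (0 : Sp N) 1, |k x| ^ p) - ∫ x in (ball (0 : Sp N) 1)ᶜ, |k x| ^ p :=
    fun hk => coreInt_split hp0 measurableSet_ball (fun x hx => Qlim_of_mem hx)
      (fun x hx => Qlim_of_notMem hx) hk
  rw [e hv]
  exact ((key _).sub (key _)).congr fun n => (e (hw n)).symm

lemma tendsto_inner_self {w : ℕ → Sp N → Sp N} {g : Sp N → Sp N}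
    (hw : ∀ n, MemLp (w n) 2 volume) (hg : MemLp g 2 volume)
    (h : Tendsto (fun n => eLpNorm (fun x => w n x - g x) 2 volume) atTop (𝓝 0)) :
    Tendsto (fun n => ∫ x, inner ℝ (w n x) (w n x)) atTop (𝓝 (∫ x, inner ℝ (g x) (g x))) := by
  rw [integral_inner_self_eq hg]
  have h1 := tendsto_eLpNorm (by norm_num) hw hg h
  have h2 := ((ENNReal.tendsto_toReal hg.eLpNorm_ne_top).comp h1).pow 2
  exact h2.congr fun n => (integral_inner_self_eq (hw n)).symm

/-- The value of the minimality quotient for test functions converges. -/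
lemma tendsto_quot {p : ℝ} {ε : ℕ → ℝ} (hε : ∀ n, 0 < ε n)
    (hlim : Tendsto ε atTop (𝓝 0)) {w : Sp N → ℝ} (hw : IsTest w)
    (hB : 0 < coreInt (Qlim N) p w) (hp : 2 < p) :
    Tendsto (fun n => (quadForm (ε n ^ 2) w (gradient w) / coreInt (Qt N (ε n)) p w) ^
      (2 / (p - 2)) * quadForm (ε n ^ 2) w (gradient w)) atTop
      (𝓝 (((∫ x, inner ℝ (gradient w x) (gradient w x)) / coreInt (Qlim N) p w) ^
        (2 / (p - 2)) * ∫ x, inner ℝ (gradient w x) (gradient w x))) := by
  have h1 : Tendsto (fun n => quadForm (ε n ^ 2) w (gradient w)) atTop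
      (𝓝 (∫ x, inner ℝ (gradient w x) (gradient w x))) := by
    simp only [quadForm_eq hw.isH1]
    have := ((hlim.pow 2).mul_const (∫ x, w x ^ 2)).const_add
      (∫ x, inner ℝ (gradient w x) (gradient w x))
    simpa using this
  have h2 : ∀ᶠ n in atTop, coreInt (Qt N (ε n)) p w = coreInt (Qlim N) p w := by
    obtain ⟨R, hR⟩ := hw.2.isBounded.subset_closedBall (0 : Sp N)
    have h3 : Tendsto (fun n => 1 / ε n) atTop atTop := by
      simp_rw [one_div]
      exact (tendsto_nhdsWithin_iff.mpr ⟨hlim, Eventually.of_forall hε⟩).inv_tendsto_nhdsGT_zero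
    filter_upwards [h3.eventually_gt_atTop (R + 1)] with n hn
    unfold coreInt
    congr 1
    funext x
    by_cases hx : x ∈ tsupport w
    · have h4 := hR hx
      rw [mem_closedBall_zero_iff] at h4
      rw [Qt_eq_Qlim (hε n) (by linarith)]
    · rw [image_eq_zero_of_notMem_tsupport hx, abs_zero, Real.zero_rpow (by linarith), mul_zero,
        mul_zero]
  have h3 : Tendsto (fun n => coreInt (Qt N (ε n)) p w) atTop (𝓝 (coreInt (Qlim N) p w)) :=
    tendsto_const_nhds.congr' (h2.mono fun n hn => hn.symm)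
  have h4 : 0 ≤ 2 / (p - 2) := by
    apply div_nonneg <;> linarith
  exact ((h1.div h3 hB.ne').rpow_const (Or.inr h4)).mul h1

variable [hN : Fact (3 ≤ N)]

/-- The energies are asymptotically bounded by the energy of the limit. -/
lemma LimitData.eventually_le {p : ℝ} (hp : 2 < p) (hp' : p < twoStar N) {ε : ℕ → ℝ}
    {V : ℕ → Sp N → ℝ} {W : ℕ → Sp N → Sp N} {v : Sp N → ℝ} {g : Sp N → Sp N}
    (h : LimitData p ε V W v g) (hB : 0 < coreInt (Qlim N) p v)
    (hvp : MemLp v (ENNReal.ofReal p) volume) {θ : ℝ}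
    (hθ : ((∫ x, inner ℝ (g x) (g x)) / coreInt (Qlim N) p v) ^ (2 / (p - 2)) *
      ∫ x, inner ℝ (g x) (g x) < θ) :
    ∀ᶠ n in atTop, quadForm (ε n ^ 2) (V n) (W n) < θ := by
  obtain ⟨w, hw, h1, h2⟩ := h.hv.exists_approx (by linarith : 1 ≤ p) hp' hvp
  have h3 := tendsto_inner_self (fun m => (hw m).memLp_gradient 2) h.hv.2.1 h2
  have h4 := tendsto_coreInt_Qlim (by linarith : 1 ≤ p) (fun m => (hw m).memLp _) hvp h1
  have h5 : 0 ≤ 2 / (p - 2) := by
    apply div_nonneg <;> linarith
  have h6 := ((h3.div h4 hB.ne').rpow_const (Or.inr h5)).mul h3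
  obtain ⟨m, hm1, hm2⟩ := ((h6.eventually_lt_const hθ).and (h4.eventually_const_lt hB)).exists
  have h7 := tendsto_quot h.eps_pos h.eps_lim (hw m) hm2 hp
  have hev : ∀ᶠ n in atTop, 0 < coreInt (Qt N (ε n)) p (w m) := by
    obtain ⟨R, hR⟩ := (hw m).2.isBounded.subset_closedBall (0 : Sp N)
    have h8 : Tendsto (fun n => 1 / ε n) atTop atTop := by
      simp_rw [one_div]
      exact (tendsto_nhdsWithin_iff.mpr ⟨h.eps_lim, Eventually.of_forall
        h.eps_pos⟩).inv_tendsto_nhdsGT_zero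
    filter_upwards [h8.eventually_gt_atTop (R + 1)] with n hn
    have h9 : coreInt (Qt N (ε n)) p (w m) = coreInt (Qlim N) p (w m) := by
      unfold coreInt
      congr 1
      funext x
      by_cases hx : x ∈ tsupport (w m)
      · have h4 := hR hx
        rw [mem_closedBall_zero_iff] at h4
        rw [Qt_eq_Qlim (h.eps_pos n) (by linarith)]
      · rw [image_eq_zero_of_notMem_tsupport hx, abs_zero, Real.zero_rpow (by linarith), mul_zero,
          mul_zero]
    rw [h9]
    exact hm2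
  filter_upwards [h7.eventually_lt_const hm1, hev] with n hn hn2
  have hA := quadForm_pos_of_coreInt (h.eps_pos n) (Q := Qt N (ε n)) hp (hw m).isH1 hn2.ne'
  exact ((h.les n).quadForm_le hp (hw m).isH1 hA hn2).trans_lt hn

lemma energy_pos {v : Sp N → ℝ} {g : Sp N → Sp N} (h : IsD12 v g) (hv : ¬ v =ᵐ[volume] 0) :
    0 < ∫ x, inner ℝ (g x) (g x) := by
  rw [integral_inner_self_eq h.2.1]
  have h1 : eLpNorm g 2 volume ≠ 0 := by
    intro h0
    apply hv
    have h2 := h.sobolev
    rw [h0, mul_zero, nonpos_iff_eq_zero] at h2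
    exact (eLpNorm_eq_zero_iff h.1.1 (qs_ne_zero hN.out)).mp h2
  have h2 := ENNReal.toReal_pos h1 h.2.1.eLpNorm_ne_top
  positivity

/-- The conclusions on the energies. -/
lemma LimitData.energies {p : ℝ} (hp : 2 < p) (hp' : p < twoStar N) {ε : ℕ → ℝ}
    {V : ℕ → Sp N → ℝ} {W : ℕ → Sp N → Sp N} {v : Sp N → ℝ} {g : Sp N → Sp N}
    (h : LimitData p ε V W v g) (hv : ¬ v =ᵐ[volume] 0) :
    coreInt (Qlim N) p v = (∫ x, inner ℝ (g x) (g x)) ∧
    Tendsto (fun n => quadForm (ε n ^ 2) (V n) (W n)) atTop (𝓝 (∫ x, inner ℝ (g x) (g x))) ∧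
    Tendsto (fun n => eLpNorm (fun x => W n x - g x) 2 volume) atTop (𝓝 0) ∧
    Tendsto (fun n => ε n ^ 2 * ∫ x, V n x ^ 2) atTop (𝓝 0) := by
  obtain ⟨hvp, hAB⟩ := h.memLp_and_le hp hp'
  have hg : MemLp g 2 volume := h.hv.2.1
  have hWm : ∀ n, MemLp (W n) 2 volume := fun n => (h.les n).1.1.2.1
  set A := ∫ x, inner ℝ (g x) (g x) with hA
  set B := coreInt (Qlim N) p v with hB
  have hA0 : 0 < A := energy_pos h.hv hv
  have hB0 : 0 < B := hA0.trans_le hAB
  have h5 : 0 < 2 / (p - 2) := by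
    apply div_pos <;> linarith
  have hle : (A / B) ^ (2 / (p - 2)) * A ≤ A := by
    have h1 : (A / B) ^ (2 / (p - 2)) ≤ 1 :=
      Real.rpow_le_one (by positivity) ((div_le_one hB0).mpr hAB) h5.le
    nlinarith
  have hW := h.weak g hg
  -- expansion of the square
  have hexp : ∀ n, ∫ x, inner ℝ (W n x - g x) (W n x - g x) =
      (∫ x, inner ℝ (W n x) (W n x)) - 2 * (∫ x, inner ℝ (W n x) (g x)) + A := by
    intro n
    have i1 : Integrable (fun x => inner ℝ (W n x) (W n x) - 2 * inner ℝ (W n x) (g x)) volume :=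
      (integrable_inner' (hWm n) (hWm n)).sub ((integrable_inner' (hWm n) hg).const_mul 2)
    rw [hA, ← integral_const_mul, ← integral_sub (integrable_inner' (hWm n) (hWm n))
      ((integrable_inner' (hWm n) hg).const_mul 2), ← integral_add i1 (integrable_inner' hg hg)]
    congr 1
    funext x
    rw [inner_sub_left, inner_sub_right, inner_sub_right, real_inner_comm (W n x) (g x)]
    ring
  have hmn : ∀ n, quadForm (ε n ^ 2) (V n) (W n) =
      (∫ x, inner ℝ (W n x) (W n x)) + ε n ^ 2 * ∫ x, V n x ^ 2 := fun n =>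
    quadForm_eq (h.les n).1.1
  have hV2 : ∀ n, 0 ≤ ε n ^ 2 * ∫ x, V n x ^ 2 := fun n =>
    mul_nonneg (sq_nonneg _) (integral_nonneg fun x => sq_nonneg _)
  have he0 : ∀ n, 0 ≤ ∫ x, inner ℝ (W n x - g x) (W n x - g x) := fun n =>
    integral_nonneg fun x => real_inner_self_nonneg
  have hm : Tendsto (fun n => quadForm (ε n ^ 2) (V n) (W n)) atTop (𝓝 A) := by
    rw [tendsto_order]
    constructor
    · intro a ha
      have h1 : Tendsto (fun n => 2 * (∫ x, inner ℝ (W n x) (g x)) - A) atTop (𝓝 A) := by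
        have := (hW.const_mul 2).sub_const A
        have e : 2 * A - A = A := by ring
        rwa [e] at this
      filter_upwards [h1.eventually_const_lt ha] with n hn
      have h2 := he0 n
      rw [hexp] at h2
      have := hV2 n
      rw [hmn]
      linarith
    · intro a ha
      exact h.eventually_le hp hp' hB0 hvp (hle.trans_lt ha)
  have he : Tendsto (fun n => ∫ x, inner ℝ (W n x - g x) (W n x - g x)) atTop (𝓝 0) := by
    have h1 : Tendsto (fun n => quadForm (ε n ^ 2) (V n) (W n) -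
        2 * (∫ x, inner ℝ (W n x) (g x)) + A) atTop (𝓝 0) := by
      have := (hm.sub (hW.const_mul 2)).add_const A
      have e : A - 2 * A + A = 0 := by ring
      rwa [e] at this
    refine squeeze_zero he0 (fun n => ?_) h1
    rw [hexp, hmn]
    have := hV2 n
    linarith
  refine ⟨?_, hm, ?_, ?_⟩
  · -- equality
    apply le_antisymm _ hAB
    by_contra hcon
    rw [not_le] at hcon
    have h1 : (A / B) ^ (2 / (p - 2)) * A < A := by
      have h2 : (A / B) ^ (2 / (p - 2)) < 1 :=
        Real.rpow_lt_one (by positivity) ((div_lt_one hB0).mpr hcon) h5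
      nlinarith
    obtain ⟨θ, hθ1, hθ2⟩ := exists_between h1
    have h2 := h.eventually_le hp hp' hB0 hvp hθ1
    have h3 : A ≤ θ := le_of_tendsto hm (h2.mono fun n hn => hn.le)
    linarith
  · have h1 : Tendsto (fun n => ENNReal.ofReal (√(∫ x, inner ℝ (W n x - g x) (W n x - g x))))
        atTop (𝓝 0) := by
      have h2 := (Real.continuous_sqrt.tendsto 0).comp he
      rw [Real.sqrt_zero] at h2
      have h3 := ENNReal.tendsto_ofReal h2
      rwa [ENNReal.ofReal_zero] at h3
    refine h1.congr fun n => ?_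
    have hd : MemLp (fun x => W n x - g x) 2 volume := (hWm n).sub hg
    rw [integral_inner_self_eq hd, Real.sqrt_sq ENNReal.toReal_nonneg,
      ENNReal.ofReal_toReal hd.eLpNorm_ne_top]
  · have h1 : Tendsto (fun n => quadForm (ε n ^ 2) (V n) (W n) -
        ((∫ x, inner ℝ (W n x - g x) (W n x - g x)) + 2 * (∫ x, inner ℝ (W n x) (g x)) - A))
        atTop (𝓝 0) := by
      have := hm.sub ((he.add (hW.const_mul 2)).sub_const A)
      have e : A - (0 + 2 * A - A) = 0 := by ring
      rwa [e] at this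
    refine h1.congr fun n => ?_
    rw [hexp, hmn]
    ring

end Pool.Agent.Lib.MP_bf093f_an
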