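import Pool.Agent.Lib.MP_bf093f_an.Density

set_option autoImplicit false

/-! # Testing the equation with a cutoff of the solution -/

namespace Pool.Agent.Lib.MP_bf093f_an

open MeasureTheory Filter Topology Metric
open scoped ContDiff ENNReal NNReal

variable {N : ℕ}

/-! ## Pairings -/

lemma integral_inner_toLp {F : Type} [NormedAddCommGroup F] [InnerProductSpace ℝ F]
    {f h : Sp N → F} (hf : MemLp f 2 volume) (hh : MemLp h 2 volume) :
    inner ℝ (hf.toLp f) (hh.toLp h) = ∫ x, inner ℝ (f x) (h x) := by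
  rw [L2.inner_def]
  apply integral_congr_ae
  filter_upwards [hf.coeFn_toLp, hh.coeFn_toLp] with x hx hx'
  rw [hx, hx']

lemma integrable_inner' {F : Type} [NormedAddCommGroup F] [InnerProductSpace ℝ F]
    {f h : Sp N → F} (hf : MemLp f 2 volume) (hh : MemLp h 2 volume) :
    Integrable (fun x => inner ℝ (f x) (h x)) volume := by
  refine (L2.integrable_inner (𝕜 := ℝ) (hf.toLp f) (hh.toLp h)).congr ?_
  filter_upwards [hf.coeFn_toLp, hh.coeFn_toLp] with x hx hx'
  rw [hx, hx']

lemma tendsto_integral_inner {F : Type} [NormedAddCommGroup F] [InnerProductSpace ℝ F]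
    {f : Sp N → F} {h : ℕ → Sp N → F} {h' : Sp N → F} (hf : MemLp f 2 volume)
    (hh : ∀ n, MemLp (h n) 2 volume) (hh' : MemLp h' 2 volume)
    (ht : Tendsto (fun n => eLpNorm (fun x => h n x - h' x) 2 volume) atTop (𝓝 0)) :
    Tendsto (fun n => ∫ x, inner ℝ (f x) (h n x)) atTop (𝓝 (∫ x, inner ℝ (f x) (h' x))) := by
  have h1 := tendsto_toLp hh hh' ht
  have h2 : Tendsto (fun n => inner ℝ (hf.toLp f) ((hh n).toLp (h n))) atTop
      (𝓝 (inner ℝ (hf.toLp f) (hh'.toLp h'))) := tendsto_const_nhds.inner h1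
  rw [integral_inner_toLp] at h2
  refine h2.congr fun n => ?_
  rw [integral_inner_toLp]

lemma holderConj {p : ℝ} (hp : 1 < p) : (p / (p - 1)).HolderConjugate p := by
  have h1 : p.HolderConjugate (p / (p - 1)) := (Real.holderConjugate_iff_eq_conjExponent hp).mpr rfl
  exact h1.symm

lemma tendsto_integral_mul_p {p : ℝ} (hp : 1 < p) {f : Sp N → ℝ} {h : ℕ → Sp N → ℝ}
    {h' : Sp N → ℝ} (hf : MemLp f (ENNReal.ofReal (p / (p - 1))) volume)
    (hh : ∀ n, MemLp (h n) (ENNReal.ofReal p) volume) (hh' : MemLp h' (ENNReal.ofReal p) volume)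
    (ht : Tendsto (fun n => eLpNorm (fun x => h n x - h' x) (ENNReal.ofReal p) volume)
      atTop (𝓝 0)) :
    Tendsto (fun n => ∫ x, f x * h n x) atTop (𝓝 (∫ x, f x * h' x)) := by
  have hc := (holderConj hp).ennrealOfReal
  have hi : ∀ k : Sp N → ℝ, MemLp k (ENNReal.ofReal p) volume →
      Integrable (fun x => f x * k x) volume := fun k hk => hf.integrable_mul hk
  apply tendsto_integral_of_L1' _ (hi _ hh').1 (Eventually.of_forall fun n => hi _ (hh n))
  have h1 : Tendsto (fun n => eLpNorm f (ENNReal.ofReal (p / (p - 1))) volume *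
      eLpNorm (fun x => h n x - h' x) (ENNReal.ofReal p) volume) atTop (𝓝 0) := by
    have := ENNReal.Tendsto.const_mul ht (Or.inr hf.eLpNorm_ne_top)
    rwa [mul_zero] at this
  refine tendsto_of_tendsto_of_tendsto_of_le_of_le tendsto_const_nhds h1 (fun _ => bot_le)
    fun n => ?_
  have h2 := eLpNorm_smul_le_mul_eLpNorm (p := ENNReal.ofReal (p / (p - 1)))
    (q := ENNReal.ofReal p) (r := 1) ((hh n).sub hh').1 hf.1
  refine le_trans (le_of_eq ?_) h2
  congr 1
  funext x
  simp only [Pi.sub_apply, Pi.smul_apply', smul_eq_mul]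
  ring

lemma memLp_pow {p : ℝ} (hp : 1 < p) {V : Sp N → ℝ} (hV : MemLp V (ENNReal.ofReal p) volume) :
    MemLp (fun x => |V x| ^ (p - 2) * V x) (ENNReal.ofReal (p / (p - 1))) volume := by
  have h1 := hV.norm_rpow_div (ENNReal.ofReal (p - 1))
  rw [ENNReal.toReal_ofReal (by linarith), ← ENNReal.ofReal_div_of_pos (by linarith)] at h1
  refine h1.of_le ((hV.1.norm.aemeasurable.pow_const _).aestronglyMeasurable.mul hV.1) ?_
  refine Eventually.of_forall fun x => ?_
  rw [norm_mul, Real.norm_eq_abs (|V x| ^ (p - 2)), abs_of_nonneg (by positivity),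
    Real.norm_eq_abs (V x), Real.norm_eq_abs (|V x| ^ (p - 1)),
    abs_of_nonneg (a := |V x| ^ (p - 1)) (by positivity)]
  rcases eq_or_ne (V x) 0 with h0 | h0
  · rw [h0, abs_zero, mul_zero]
    positivity
  · rw [show p - 1 = (p - 2) + 1 by ring, Real.rpow_add_one (abs_ne_zero.mpr h0)]

/-! ## Measurability of the coefficients -/

lemma measurable_Qt {ε : ℝ} (hε : 0 < ε) : Measurable (Qt N ε) := by
  classical
  have h1 : Qt N ε = fun x => if x ∈ cores N ε then (1 : ℝ) else -1 := by
    funext x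
    by_cases h : x ∈ cores N ε
    · rw [if_pos h, Qt, coreSign_of_mem hε h]
    · rw [if_neg h, Qt, coreSign_of_notMem hε h]
  rw [h1]
  exact Measurable.ite measurableSet_cores measurable_const measurable_const

lemma measurable_Qlim : Measurable (Qlim N) := by
  classical
  have h1 : Qlim N = fun x => if x ∈ ball (0 : Sp N) 1 then (1 : ℝ) else -1 := by
    funext x
    by_cases h : x ∈ ball (0 : Sp N) 1
    · rw [if_pos h, Qlim_of_mem h]
    · rw [if_neg h, Qlim_of_notMem h]
  rw [h1]
  exact Measurable.ite measurableSet_ball measurable_const measurable_const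

/-! ## Products with test functions -/

lemma IsTest.exists_bound {η : Sp N → ℝ} (h : IsTest η) : ∃ C : ℝ, 0 ≤ C ∧ ∀ x, ‖η x‖ ≤ C := by
  obtain ⟨C, hC⟩ := h.2.exists_bound_of_continuous h.continuous
  exact ⟨C, (norm_nonneg _).trans (hC 0), hC⟩

lemma IsTest.exists_bound_gradient {η : Sp N → ℝ} (h : IsTest η) :
    ∃ C : ℝ, 0 ≤ C ∧ ∀ x, ‖gradient η x‖ ≤ C := by
  obtain ⟨C, hC⟩ := h.hasCompactSupport_gradient.exists_bound_of_continuous h.continuous_gradient
  exact ⟨C, (norm_nonneg _).trans (hC 0), hC⟩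

lemma memLp_test_smul {F : Type} [NormedAddCommGroup F] [NormedSpace ℝ F] {η : Sp N → ℝ}
    (h : IsTest η) {r : ℝ≥0∞} {f : Sp N → F} (hf : MemLp f r volume) :
    MemLp (fun x => η x • f x) r volume := by
  obtain ⟨C, hC0, hC⟩ := h.exists_bound
  refine hf.of_le_mul (c := C) (h.continuous.aestronglyMeasurable.smul hf.1) ?_
  refine Eventually.of_forall fun x => ?_
  rw [norm_smul]
  exact mul_le_mul_of_nonneg_right (hC x) (norm_nonneg _)

lemma memLp_smul_gradient {η : Sp N → ℝ} (h : IsTest η) {r : ℝ≥0∞} {f : Sp N → ℝ}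
    (hf : MemLp f r volume) : MemLp (fun x => f x • gradient η x) r volume := by
  obtain ⟨C, hC0, hC⟩ := h.exists_bound_gradient
  refine hf.of_le_mul (c := C) (hf.1.smul h.continuous_gradient.aestronglyMeasurable) ?_
  refine Eventually.of_forall fun x => ?_
  rw [norm_smul, mul_comm]
  exact mul_le_mul_of_nonneg_right (hC x) (norm_nonneg _)

lemma memLp_inner_gradient {η : Sp N → ℝ} (h : IsTest η) {r : ℝ≥0∞} {G : Sp N → Sp N}
    (hG : MemLp G r volume) : MemLp (fun x => inner ℝ (G x) (gradient η x)) r volume := by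
  obtain ⟨C, hC0, hC⟩ := h.exists_bound_gradient
  refine hG.of_le_mul (c := C) (hG.1.inner h.continuous_gradient.aestronglyMeasurable) ?_
  refine Eventually.of_forall fun x => ?_
  refine (norm_inner_le_norm _ _).trans ?_
  rw [mul_comm]
  exact mul_le_mul_of_nonneg_right (hC x) (norm_nonneg _)

variable [hN : Fact (3 ≤ N)]

/-- `H¹ ⊂ L^p`, with convergence of the approximations. -/
lemma IsH1.memLp_of_approx {p : ℝ} (hp : 2 < p) (hp' : p < twoStar N)
    {u : Sp N → ℝ} {g : Sp N → Sp N} (h : IsH1 u g)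
    {φ : ℕ → Sp N → ℝ} (hφ : ∀ n, IsTest (φ n))
    (h1 : Tendsto (fun n => eLpNorm (fun x => φ n x - u x) 2 volume) atTop (𝓝 0))
    (h2 : Tendsto (fun n => eLpNorm (fun x => gradient (φ n) x - g x) 2 volume) atTop (𝓝 0)) :
    MemLp u (ENNReal.ofReal p) volume ∧
      Tendsto (fun n => eLpNorm (fun x => φ n x - u x) (ENNReal.ofReal p) volume) atTop
        (𝓝 0) := by
  obtain ⟨h3, h4⟩ := h.isD12_of_approx hφ h1 h2
  have h5 : MemLp u (ENNReal.ofReal p) volume := by
    refine ⟨h.1.1, ?_⟩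
    have h6 := lintegral_interpolate (μ := volume) hp hp' h.1.1
    rw [eLpNorm_pow_eq (by linarith), eLpNorm_pow_eq (by linarith),
      eLpNorm_pow_eq (twoStar_pos hN.out)] at h6
    have hq2 : 0 < twoStar N - 2 := by linarith
    have h7 : (eLpNorm u (ENNReal.ofReal 2) volume ^ (2 : ℝ)) ^ ((twoStar N - p) / (twoStar N - 2)) *
        (eLpNorm u (ENNReal.ofReal (twoStar N)) volume ^ twoStar N) ^
          ((p - 2) / (twoStar N - 2)) < ⊤ := by
      apply ENNReal.mul_lt_top
      · apply ENNReal.rpow_lt_top_of_nonneg (div_nonneg (by linarith) hq2.le)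
        apply ENNReal.rpow_ne_top_of_nonneg (by norm_num)
        have := h.1.eLpNorm_ne_top
        simpa using this
      · apply ENNReal.rpow_lt_top_of_nonneg (div_nonneg (by linarith) hq2.le)
        exact ENNReal.rpow_ne_top_of_nonneg (by linarith) h3.eLpNorm_ne_top
    have h8 := h6.trans_lt h7
    by_contra hcon
    rw [not_lt, top_le_iff] at hcon
    rw [hcon, ENNReal.top_rpow_of_pos (by linarith)] at h8
    exact absurd h8 (lt_irrefl _)
  refine ⟨h5, ?_⟩
  apply tendsto_interpolate hp hp' (M := 1) (fun n => ((hφ n).memLp 2).1.sub h.1.1)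
    ENNReal.one_ne_top _ h1
  exact ENNReal.tendsto_nhds_zero.mp h4 1 one_pos

lemma IsH1.memLp_p {p : ℝ} (hp : 2 < p) (hp' : p < twoStar N)
    {u : Sp N → ℝ} {g : Sp N → Sp N} (h : IsH1 u g) : MemLp u (ENNReal.ofReal p) volume := by
  obtain ⟨φ, hφ, h1, h2⟩ := h.2.2
  exact (h.memLp_of_approx hp hp' hφ h1 h2).1

/-- Testing the equation with `η V`. -/
lemma IsWeakSol.test_mul {a : ℝ} {Q : Sp N → ℝ} {p : ℝ} (hp : 2 < p) (hp' : p < twoStar N)
    {V : Sp N → ℝ} {G : Sp N → Sp N} (hV : IsH1 V G) (hsol : IsWeakSol a Q p V G)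
    (hQ : Measurable Q) (hQ1 : ∀ x, |Q x| ≤ 1) {η : Sp N → ℝ} (hη : IsTest η) :
    (∫ x, inner ℝ (η x • G x) (G x)) +
      (∫ x, (inner ℝ (G x) (gradient η x) + a * (η x * V x)) * V x) =
      ∫ x, (Q x * (η x * (|V x| ^ (p - 2) * V x))) * V x := by
  obtain ⟨φ, hφ, h1, h2⟩ := hV.2.2
  obtain ⟨h3, h4⟩ := hV.memLp_of_approx hp hp' hφ h1 h2
  have m1 : MemLp (fun x => η x • G x) 2 volume := memLp_test_smul hη hV.2.1
  have m2 : MemLp (fun x => inner ℝ (G x) (gradient η x) + a * (η x * V x)) 2 volume :=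
    (memLp_inner_gradient hη hV.2.1).add ((memLp_test_smul hη hV.1).const_mul a)
  have m3 : MemLp (fun x => Q x * (η x * (|V x| ^ (p - 2) * V x)))
      (ENNReal.ofReal (p / (p - 1))) volume := by
    have h5 := memLp_test_smul hη (memLp_pow (by linarith) h3)
    refine h5.of_le (hQ.aestronglyMeasurable.mul h5.1) ?_
    refine Eventually.of_forall fun x => ?_
    simp only [smul_eq_mul]
    rw [norm_mul]
    exact mul_le_of_le_one_left (norm_nonneg _) (hQ1 x)
  have t1 := tendsto_integral_inner m1 (fun n => (hφ n).memLp_gradient 2) hV.2.1 h2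
  have t2 := tendsto_integral_inner m2 (fun n => (hφ n).memLp 2) hV.1 h1
  have t3 := tendsto_integral_mul_p (by linarith) m3 (fun n => (hφ n).memLp _) h3 h4
  have e : ∀ n, (∫ x, inner ℝ (η x • G x) (gradient (φ n) x)) +
      (∫ x, inner ℝ (inner ℝ (G x) (gradient η x) + a * (η x * V x)) (φ n x)) =
      ∫ x, (Q x * (η x * (|V x| ^ (p - 2) * V x))) * φ n x := by
    intro n
    have h5 := hsol (fun x => η x * φ n x) (IsTest.mul hη.1 (hφ n))
    have i1 : Integrable (fun x => inner ℝ (η x • G x) (gradient (φ n) x)) volume :=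
      integrable_inner' m1 ((hφ n).memLp_gradient 2)
    have i2 : Integrable (fun x => inner ℝ (inner ℝ (G x) (gradient η x) + a * (η x * V x))
        (φ n x)) volume := integrable_inner' m2 ((hφ n).memLp 2)
    rw [← integral_add i1 i2]
    have e1 : (fun x => inner ℝ (η x • G x) (gradient (φ n) x) +
        inner ℝ (inner ℝ (G x) (gradient η x) + a * (η x * V x)) (φ n x)) =
        fun x => inner ℝ (G x) (gradient (fun x => η x * φ n x) x) + a * V x * (η x * φ n x) := by
      funext x
      rw [gradient_mul' hη.differentiable (hφ n).differentiable, inner_add_right,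
        inner_smul_right, inner_smul_right, inner_smul_left]
      simp only [conj_trivial, RCLike.inner_apply, conj_trivial]
      ring
    have e2 : (fun x => (Q x * (η x * (|V x| ^ (p - 2) * V x))) * φ n x) =
        fun x => Q x * (|V x| ^ (p - 2) * V x) * (η x * φ n x) := by
      funext x
      ring
    rw [e1, e2, h5]
  have t4 := (t1.add t2).congr e
  have e3 := tendsto_nhds_unique t4 t3
  rw [← e3]
  congr 1
  congr 1
  funext x
  simp only [RCLike.inner_apply, conj_trivial]
  ring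

end Pool.Agent.Lib.MP_bf093f_an
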