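import Pool.Agent.Lib.MP_bf093f_an.LimitIneq

set_option autoImplicit false

/-! # The weak limit is in `L^p`, and `∫|∇v|² ≤ ∫ Q|v|^p` -/

namespace Pool.Agent.Lib.MP_bf093f_an

open MeasureTheory Filter Topology Metric
open scoped ContDiff ENNReal NNReal

variable {N : ℕ}

lemma ofReal_ne_zero_of_pos {p : ℝ} (hp : 0 < p) : ENNReal.ofReal p ≠ 0 := by
  rw [Ne, ENNReal.ofReal_eq_zero, not_le]; exact hp

lemma integrable_abs_rpow {p : ℝ} (hp : 0 < p) {μ : Measure (Sp N)} {w : Sp N → ℝ}
    (hw : MemLp w (ENNReal.ofReal p) μ) : Integrable (fun x => |w x| ^ p) μ := by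
  have := hw.integrable_norm_rpow (ofReal_ne_zero_of_pos hp) ENNReal.ofReal_ne_top
  rwa [ENNReal.toReal_ofReal hp.le] at this

/-- Splitting of `∫ Q |w|^p`. -/
lemma coreInt_split {p : ℝ} (hp : 0 < p) {Q : Sp N → ℝ} {S : Set (Sp N)} (hS : MeasurableSet S)
    (h1 : ∀ x ∈ S, Q x = 1) (h2 : ∀ x ∉ S, Q x = -1) {w : Sp N → ℝ}
    (hw : MemLp w (ENNReal.ofReal p) volume) :
    coreInt Q p w = (∫ x in S, |w x| ^ p) - ∫ x in Sᶜ, |w x| ^ p := by
  have hi := integrable_abs_rpow hp hw
  rw [coreInt, ← integral_indicator hS, ← integral_indicator hS.compl,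
    ← integral_sub (hi.indicator hS) (hi.indicator hS.compl)]
  congr 1
  funext x
  by_cases hx : x ∈ S
  · rw [h1 x hx, Set.indicator_of_mem hx, Set.indicator_of_notMem (by simpa using hx)]
    ring
  · rw [h2 x hx, Set.indicator_of_notMem hx, Set.indicator_of_mem (by simpa using hx)]
    ring

lemma lintegral_ofReal_rpow {p : ℝ} (hp : 0 < p) {μ : Measure (Sp N)} {w : Sp N → ℝ} :
    ∫⁻ x, ENNReal.ofReal (|w x| ^ p) ∂μ = ∫⁻ x, ‖w x‖ₑ ^ p ∂μ := by
  apply lintegral_congr
  intro x
  rw [← ENNReal.ofReal_rpow_of_nonneg (abs_nonneg _) hp.le, ← Real.norm_eq_abs, ofReal_norm]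

lemma lintegral_rpow_eq_ofReal {p : ℝ} (hp : 0 < p) {μ : Measure (Sp N)} {w : Sp N → ℝ}
    (hw : MemLp w (ENNReal.ofReal p) μ) :
    ∫⁻ x, ‖w x‖ₑ ^ p ∂μ = ENNReal.ofReal (∫ x, |w x| ^ p ∂μ) := by
  rw [ofReal_integral_eq_lintegral_ofReal (integrable_abs_rpow hp hw)
    (Eventually.of_forall fun x => by positivity), lintegral_ofReal_rpow hp]

variable [hN : Fact (3 ≤ N)]

lemma LimitData.memLp_and_le {p : ℝ} (hp : 2 < p) (hp' : p < twoStar N) {ε : ℕ → ℝ}
    {V : ℕ → Sp N → ℝ} {W : ℕ → Sp N → Sp N} {v : Sp N → ℝ} {g : Sp N → Sp N}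
    (h : LimitData p ε V W v g) :
    MemLp v (ENNReal.ofReal p) volume ∧ ∫ x, inner ℝ (g x) (g x) ≤ coreInt (Qlim N) p v := by
  have hp0 : 0 < p := by linarith
  have hg : MemLp g 2 volume := h.hv.2.1
  set B : Set (Sp N) := ball 0 1 with hB
  have hBm : MeasurableSet B := measurableSet_ball
  set δ : ℕ → ℝ := fun m => 1 / ((m : ℝ) + 4) with hδ
  have hδ0 : ∀ m, 0 < δ m := fun m => by positivity
  have hδ4 : ∀ m, δ m ≤ 1 / 4 := fun m => by
    simp only [hδ]
    apply one_div_le_one_div_of_le (by norm_num)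
    have : (0 : ℝ) ≤ m := Nat.cast_nonneg m
    linarith
  have hρ : Tendsto (fun m => 1 / (4 * δ m)) atTop atTop := by
    have h3 : (fun m => 1 / (4 * δ m)) = fun m : ℕ => (1 / 4) * ((m : ℝ) + 4) := by
      funext m
      simp only [hδ]
      field_simp
    rw [h3]
    exact (tendsto_atTop_add_const_right _ _ tendsto_natCast_atTop_atTop).const_mul_atTop
      (by norm_num)
  have hvB : MemLp v (ENNReal.ofReal p) (volume.restrict B) := h.hv.memLp_ball hp' 1
  have hvR : ∀ R : ℝ, MemLp v (ENNReal.ofReal p) (volume.restrict (ball 0 R)) :=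
    fun R => h.hv.memLp_ball hp' R
  -- the limits of the terms
  have tI : Tendsto (fun m => ∫ x, inner ℝ (cut (δ m) 0 x • g x) (g x)) atTop
      (𝓝 (∫ x, inner ℝ (g x) (g x))) := by
    have h1 := tendsto_integral_inner hg (h := fun m x => cut (δ m) 0 x • g x) (h' := g)
      (fun m => memLp_test_smul (isTest_cut (hδ0 m) 0) hg) hg
      (tendsto_of_tendsto_of_tendsto_of_le_of_le tendsto_const_nhds
        (tendsto_tail (by norm_num) (by norm_num) hg hρ) (fun _ => bot_le)
        fun m => eLpNorm_one_sub_cut_le (hδ0 m) g)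
    refine h1.congr fun m => ?_
    congr 1
    funext x
    exact real_inner_comm _ _
  have tJ : Tendsto (fun m => ∫ x, inner ℝ (g x) (v x • gradient (cut (δ m) 0) x)) atTop
      (𝓝 0) := by
    have h1 := tendsto_integral_inner hg (h := fun m x => v x • gradient (cut (δ m) 0) x)
      (h' := fun _ => 0)
      (fun m => memLp_smul_gradient_cut (hδ0 m) h.hv.1) (MemLp.zero' ) (by
        have h2 := ENNReal.Tendsto.const_mul (a := comC N)
          (tendsto_tail (qs_ne_zero hN.out) qs_ne_top h.hv.1 hρ) (Or.inr comC_ne_top)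
        rw [mul_zero] at h2
        refine tendsto_of_tendsto_of_tendsto_of_le_of_le tendsto_const_nhds h2
          (fun _ => bot_le) fun m => ?_
        simp only [sub_zero]
        exact eLpNorm_mul_gradient_cut_le (hδ0 m) h.hv.1.1)
    simpa only [inner_zero_right, integral_zero] using h1
  -- the positive part
  have ePos : ∀ m, ∫ x, wp N (δ m) x * |v x| ^ p = ∫ x in B, |v x| ^ p := by
    intro m
    rw [← integral_indicator hBm]
    congr 1
    funext x
    by_cases hx : x ∈ B
    · have hx' : x ∈ ball (0 : Sp N) (1 / (4 * δ m)) := by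
        refine ball_subset_ball ?_ hx
        rw [le_div_iff₀ (by have := hδ0 m; positivity)]
        have := hδ4 m
        linarith
      rw [wp, Set.indicator_of_mem hx, Set.indicator_of_mem hx, cut_zero_eq_one (hδ0 m) hx',
        one_mul]
    · rw [wp, Set.indicator_of_notMem hx, Set.indicator_of_notMem hx, zero_mul]
  set BB := ∫ x in B, |v x| ^ p with hBB
  set A := ∫ x, inner ℝ (g x) (g x) with hA
  have hineq : ∀ m, ∫ x, wm N (δ m) x * |v x| ^ p ≤ BB -
      ((∫ x, inner ℝ (cut (δ m) 0 x • g x) (g x)) +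
        ∫ x, inner ℝ (g x) (v x • gradient (cut (δ m) 0) x)) := by
    intro m
    have := h.ineq hp hp' (hδ0 m)
    rw [ePos m] at this
    linarith
  have tR : Tendsto (fun m => BB - ((∫ x, inner ℝ (cut (δ m) 0 x • g x) (g x)) +
        ∫ x, inner ℝ (g x) (v x • gradient (cut (δ m) 0) x))) atTop (𝓝 (BB - A)) := by
    have := (tI.add tJ).const_sub BB
    rwa [add_zero] at this
  have hnn : ∀ m, 0 ≤ ∫ x, wm N (δ m) x * |v x| ^ p := by
    intro m
    apply integral_nonneg
    intro x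
    have := (wm_props (N := N) (hδ0 m)).2.1 x
    positivity
  have hBA : 0 ≤ BB - A := ge_of_tendsto' tR fun m => (hnn m).trans (hineq m)
  -- Fatou
  have hfat : ∫⁻ x in Bᶜ, ‖v x‖ₑ ^ p ≤ ENNReal.ofReal (BB - A) := by
    rw [← lintegral_ofReal_rpow hp0, ← lintegral_indicator hBm.compl]
    have hpt : ∀ x, (Bᶜ).indicator (fun x => ENNReal.ofReal (|v x| ^ p)) x ≤
        liminf (fun m => ENNReal.ofReal (wm N (δ m) x * |v x| ^ p)) atTop := by
      intro x
      have h1 : Tendsto (fun m => ENNReal.ofReal (wm N (δ m) x * |v x| ^ p)) atTop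
          (𝓝 ((Bᶜ).indicator (fun x => ENNReal.ofReal (|v x| ^ p)) x)) := by
        apply tendsto_const_nhds.congr'
        filter_upwards [hρ.eventually_gt_atTop ‖x‖] with m hm
        have hx' : x ∈ ball (0 : Sp N) (1 / (4 * δ m)) := by simpa using hm
        by_cases hx : x ∈ Bᶜ
        · rw [wm, Set.indicator_of_mem hx, Set.indicator_of_mem hx, cut_zero_eq_one (hδ0 m) hx',
            one_mul]
        · rw [wm, Set.indicator_of_notMem hx, Set.indicator_of_notMem hx, zero_mul,
            ENNReal.ofReal_zero]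
      exact h1.liminf_eq.ge
    calc ∫⁻ x, (Bᶜ).indicator (fun x => ENNReal.ofReal (|v x| ^ p)) x
        ≤ ∫⁻ x, liminf (fun m => ENNReal.ofReal (wm N (δ m) x * |v x| ^ p)) atTop :=
          lintegral_mono hpt
      _ ≤ liminf (fun m => ∫⁻ x, ENNReal.ofReal (wm N (δ m) x * |v x| ^ p)) atTop := by
          apply lintegral_liminf_le'
          intro m
          exact ((wm_props (N := N) (hδ0 m)).1.aemeasurable.mul
            (h.hv.1.1.norm.aemeasurable.pow_const p)).ennreal_ofReal
      _ = liminf (fun m => ENNReal.ofReal (∫ x, wm N (δ m) x * |v x| ^ p)) atTop := by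
          congr 1
          funext m
          obtain ⟨b1, b2, b3, b4⟩ := wm_props (N := N) (hδ0 m)
          rw [ofReal_integral_eq_lintegral_ofReal (integrable_weight hp0 b1 b2 b3 b4 (hvR _))]
          refine Eventually.of_forall fun x => ?_
          have := b2 x
          positivity
      _ ≤ liminf (fun m => ENNReal.ofReal (BB -
          ((∫ x, inner ℝ (cut (δ m) 0 x • g x) (g x)) +
            ∫ x, inner ℝ (g x) (v x • gradient (cut (δ m) 0) x)))) atTop :=
          liminf_le_liminf (Eventually.of_forall fun m => ENNReal.ofReal_le_ofReal (hineq m))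
      _ = ENNReal.ofReal (BB - A) := (ENNReal.tendsto_ofReal tR).liminf_eq
  have hvBc : MemLp v (ENNReal.ofReal p) (volume.restrict Bᶜ) := by
    refine ⟨h.hv.1.1.restrict, ?_⟩
    rw [eLpNorm_pow_eq hp0] at hfat
    have h1 := hfat.trans_lt ENNReal.ofReal_lt_top
    by_contra hcon
    rw [not_lt, top_le_iff] at hcon
    rw [hcon, ENNReal.top_rpow_of_pos hp0] at h1
    exact absurd h1 (lt_irrefl _)
  have hvp : MemLp v (ENNReal.ofReal p) volume := by
    have h1 := hvB.eLpNorm_lt_top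
    have h2 := hvBc.eLpNorm_lt_top
    refine ⟨h.hv.1.1, ?_⟩
    have h3 : eLpNorm v (ENNReal.ofReal p) volume ^ p =
        eLpNorm v (ENNReal.ofReal p) (volume.restrict B) ^ p +
        eLpNorm v (ENNReal.ofReal p) (volume.restrict Bᶜ) ^ p := by
      rw [← eLpNorm_pow_eq hp0, ← eLpNorm_pow_eq hp0, ← eLpNorm_pow_eq hp0,
        lintegral_add_compl _ hBm]
    have h4 : eLpNorm v (ENNReal.ofReal p) volume ^ p < ⊤ := by
      rw [h3]
      exact ENNReal.add_lt_top.mpr ⟨ENNReal.rpow_lt_top_of_nonneg hp0.le h1.ne,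
        ENNReal.rpow_lt_top_of_nonneg hp0.le h2.ne⟩
    by_contra hcon
    rw [not_lt, top_le_iff] at hcon
    rw [hcon, ENNReal.top_rpow_of_pos hp0] at h4
    exact absurd h4 (lt_irrefl _)
  refine ⟨hvp, ?_⟩
  rw [coreInt_split hp0 hBm (fun x hx => Qlim_of_mem hx) (fun x hx => Qlim_of_notMem hx) hvp]
  rw [lintegral_rpow_eq_ofReal hp0 hvBc, ENNReal.ofReal_le_ofReal_iff hBA] at hfat
  linarith

end Pool.Agent.Lib.MP_bf093f_an
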