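import Pool.Agent.Lib.MP_bf093f_an.Equation

set_option autoImplicit false

/-! # The limit inequality -/

namespace Pool.Agent.Lib.MP_bf093f_an

open MeasureTheory Filter Topology Metric
open scoped ContDiff ENNReal NNReal

variable {N : ℕ}

lemma integral_abs_rpow {p : ℝ} (hp : 0 < p) {μ : Measure (Sp N)} {f : Sp N → ℝ}
    (hf : AEStronglyMeasurable f μ) :
    ∫ x, |f x| ^ p ∂μ = (eLpNorm f (ENNReal.ofReal p) μ).toReal ^ p := by
  rw [integral_eq_lintegral_of_nonneg_ae (Eventually.of_forall fun x => by positivity)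
    (by
      have := (hf.norm.aemeasurable.pow_const p).aestronglyMeasurable
      exact this), ENNReal.toReal_rpow, ← eLpNorm_pow_eq hp]
  congr 1
  apply lintegral_congr
  intro x
  rw [← ENNReal.ofReal_rpow_of_nonneg (abs_nonneg _) hp.le, ← Real.norm_eq_abs, ofReal_norm]

lemma one_le_ofReal {p : ℝ} (hp : 1 ≤ p) : 1 ≤ ENNReal.ofReal p := by
  rw [← ENNReal.ofReal_one]
  exact ENNReal.ofReal_le_ofReal hp

lemma tendsto_toReal_rpow {p : ℝ} (hp : 0 < p) {a : ℕ → ℝ≥0∞} {b : ℝ≥0∞} (hb : b ≠ ⊤)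
    (h : Tendsto a atTop (𝓝 b)) : Tendsto (fun n => (a n).toReal ^ p) atTop (𝓝 (b.toReal ^ p)) :=
  ((ENNReal.tendsto_toReal hb).comp h).rpow_const (Or.inr hp.le)

lemma tendsto_integral_weight {p : ℝ} (hp : 1 ≤ p) {b : Sp N → ℝ} (hb : Measurable b)
    (hb0 : ∀ x, 0 ≤ b x) (hb1 : ∀ x, b x ≤ 1) {R : ℝ} (hbR : ∀ x, x ∉ ball (0 : Sp N) R → b x = 0)
    {f : ℕ → Sp N → ℝ} {f' : Sp N → ℝ}
    (hf : ∀ n, MemLp (f n) (ENNReal.ofReal p) (volume.restrict (ball 0 R)))
    (hf' : MemLp f' (ENNReal.ofReal p) (volume.restrict (ball 0 R)))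
    (ht : Tendsto (fun n => eLpNorm (fun x => f n x - f' x) (ENNReal.ofReal p)
      (volume.restrict (ball 0 R))) atTop (𝓝 0)) :
    Tendsto (fun n => ∫ x, b x * |f n x| ^ p) atTop (𝓝 (∫ x, b x * |f' x| ^ p)) := by
  have hp0 : 0 < p := by linarith
  set c : Sp N → ℝ := fun x => b x ^ (1 / p) with hc
  have hcm : Measurable c := hb.pow_const _
  have hc0 : ∀ x, 0 ≤ c x := fun x => Real.rpow_nonneg (hb0 x) _
  have hc1 : ∀ x, c x ≤ 1 := fun x => Real.rpow_le_one (hb0 x) (hb1 x) (by positivity)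
  have hmem : ∀ {k : Sp N → ℝ}, MemLp k (ENNReal.ofReal p) (volume.restrict (ball 0 R)) →
      MemLp (fun x => c x * k x) (ENNReal.ofReal p) (volume.restrict (ball 0 R)) := by
    intro k hk
    refine hk.of_le (hcm.aestronglyMeasurable.mul hk.1) (Eventually.of_forall fun x => ?_)
    rw [norm_mul, Real.norm_of_nonneg (hc0 x)]
    exact mul_le_of_le_one_left (norm_nonneg _) (hc1 x)
  have hint : ∀ {k : Sp N → ℝ}, MemLp k (ENNReal.ofReal p) (volume.restrict (ball 0 R)) →
      ∫ x, b x * |k x| ^ p =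
        (eLpNorm (fun x => c x * k x) (ENNReal.ofReal p) (volume.restrict (ball 0 R))).toReal ^ p := by
    intro k hk
    rw [← integral_abs_rpow hp0 (hmem hk).1, ← setIntegral_eq_integral_of_forall_compl_eq_zero
      (s := ball (0 : Sp N) R) (fun x hx => by rw [hbR x hx, zero_mul])]
    congr 1
    funext x
    rw [abs_mul, abs_of_nonneg (hc0 x), Real.mul_rpow (hc0 x) (abs_nonneg _), hc]
    simp only
    rw [← Real.rpow_mul (hb0 x), one_div_mul_cancel hp0.ne', Real.rpow_one]
  rw [hint hf']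
  have h1 : Tendsto (fun n => eLpNorm (fun x => c x * f n x) (ENNReal.ofReal p)
      (volume.restrict (ball 0 R))) atTop (𝓝 (eLpNorm (fun x => c x * f' x) (ENNReal.ofReal p)
      (volume.restrict (ball 0 R)))) := by
    apply tendsto_eLpNorm (one_le_ofReal hp) (fun n => hmem (hf n)) (hmem hf')
    refine tendsto_of_tendsto_of_tendsto_of_le_of_le tendsto_const_nhds ht (fun _ => bot_le)
      fun n => ?_
    apply eLpNorm_mono
    intro x
    rw [← mul_sub, norm_mul, Real.norm_of_nonneg (hc0 x)]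
    exact mul_le_of_le_one_left (norm_nonneg _) (hc1 x)
  exact (tendsto_toReal_rpow hp0 (hmem hf').eLpNorm_ne_top h1).congr fun n => (hint (hf n)).symm

/-- A sequence of rescaled least energy solutions, with its weak limit. -/
structure LimitData {N : ℕ} (p : ℝ) (ε : ℕ → ℝ) (V : ℕ → Sp N → ℝ) (W : ℕ → Sp N → Sp N)
    (v : Sp N → ℝ) (g : Sp N → Sp N) : Prop where
  eps_pos : ∀ n, 0 < ε n
  eps_lim : Tendsto ε atTop (𝓝 0)
  les : ∀ n, IsLES (ε n ^ 2) (Qt N (ε n)) p (V n) (W n)
  hv : IsD12 v g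
  bdd : ∃ C : ℝ, ∀ n, quadForm (ε n ^ 2) (V n) (W n) ≤ C
  weak : ∀ f : Sp N → Sp N, MemLp f 2 volume →
    Tendsto (fun n => ∫ x, inner ℝ (W n x) (f x)) atTop (𝓝 (∫ x, inner ℝ (g x) (f x)))
  strong2 : ∀ R : ℝ, Tendsto (fun n => eLpNorm (fun x => V n x - v x) 2
    (volume.restrict (ball 0 R))) atTop (𝓝 0)
  strongp : ∀ R : ℝ, Tendsto (fun n => eLpNorm (fun x => V n x - v x) (ENNReal.ofReal p)
    (volume.restrict (ball 0 R))) atTop (𝓝 0)

variable [hN : Fact (3 ≤ N)]

omit hN in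
lemma IsD12.memLp_ball {v : Sp N → ℝ} {g : Sp N → Sp N} (h : IsD12 v g) {p : ℝ}
    (hp' : p < twoStar N) (R : ℝ) :
    MemLp v (ENNReal.ofReal p) (volume.restrict (ball 0 R)) := by
  have hfin := isFiniteMeasure_restrict_ball (x := (0 : Sp N)) (δ := R)
  exact (h.1.restrict _).mono_exponent (ENNReal.ofReal_le_ofReal hp'.le)

lemma memLp_smul_gradient_cut {δ : ℝ} (hδ : 0 < δ) {v : Sp N → ℝ}
    (hv : MemLp v (qs N) volume) : MemLp (fun x => v x • gradient (cut δ 0) x) 2 volume := by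
  refine ⟨hv.1.smul (isTest_cut hδ 0).continuous_gradient.aestronglyMeasurable, ?_⟩
  refine (eLpNorm_mul_gradient_cut_le hδ hv.1).trans_lt ?_
  exact ENNReal.mul_lt_top comC_ne_top.lt_top (hv.restrict _).2

/-- The weak-strong pairing. -/
lemma LimitData.tendsto_cross {p : ℝ} {ε : ℕ → ℝ} {V : ℕ → Sp N → ℝ}
    {W : ℕ → Sp N → Sp N} {v : Sp N → ℝ} {g : Sp N → Sp N} (h : LimitData p ε V W v g)
    {δ : ℝ} (hδ : 0 < δ) :
    Tendsto (fun n => ∫ x, inner ℝ (W n x) (V n x • gradient (cut δ 0) x)) atTop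
      (𝓝 (∫ x, inner ℝ (g x) (v x • gradient (cut δ 0) x))) := by
  obtain ⟨C, hC⟩ := h.bdd
  have hη := isTest_cut hδ (0 : Sp N)
  have hvm := memLp_smul_gradient_cut hδ h.hv.1
  have hVm : ∀ n, MemLp (fun x => V n x • gradient (cut δ 0) x) 2 volume := fun n =>
    memLp_smul_gradient hη (h.les n).1.1.1
  have hWm : ∀ n, MemLp (W n) 2 volume := fun n => (h.les n).1.1.2.1
  have hdm : ∀ n, MemLp (fun x => V n x • gradient (cut δ 0) x - v x • gradient (cut δ 0) x) 2
      volume := fun n => (hVm n).sub hvm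
  have h1 := h.weak _ hvm
  -- the difference tends to zero
  have h2 : Tendsto (fun n => ∫ x, inner ℝ (W n x)
      (V n x • gradient (cut δ 0) x - v x • gradient (cut δ 0) x)) atTop (𝓝 0) := by
    rw [tendsto_zero_iff_norm_tendsto_zero]
    set R := 1 / (3 * δ) + 1 with hR
    have hB : ∀ n, eLpNorm (fun x => V n x • gradient (cut δ 0) x - v x • gradient (cut δ 0) x) 2
        volume ≤ ENNReal.ofReal (δ * bumpC N) * eLpNorm (fun x => V n x - v x) 2
          (volume.restrict (ball 0 R)) := by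
      intro n
      have hD : 0 ≤ δ * bumpC N := mul_nonneg hδ.le bumpC_nonneg
      rw [← Real.enorm_of_nonneg hD, ← eLpNorm_const_smul,
        ← eLpNorm_indicator_eq_eLpNorm_restrict measurableSet_ball]
      apply eLpNorm_mono
      intro x
      rw [← sub_smul, norm_smul]
      by_cases hx : x ∈ ball (0 : Sp N) R
      · rw [Set.indicator_of_mem hx, Pi.smul_apply, norm_smul, Real.norm_of_nonneg hD, mul_comm]
        gcongr
        exact norm_gradient_cut_le hδ _ _
      · have hx' : x ∉ cell δ (0 : Sp N) := by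
          intro h3
          apply hx
          rw [cell, mem_closedBall] at h3
          rw [mem_ball]
          linarith
        rw [gradient_cut_zero' hδ hx', norm_zero, mul_zero]
        exact norm_nonneg _
    have hlim : Tendsto (fun n => (ENNReal.ofReal √C * (ENNReal.ofReal (δ * bumpC N) *
        eLpNorm (fun x => V n x - v x) 2 (volume.restrict (ball 0 R)))).toReal) atTop (𝓝 0) := by
      have h3 := ENNReal.Tendsto.const_mul (a := ENNReal.ofReal √C)
        (ENNReal.Tendsto.const_mul (a := ENNReal.ofReal (δ * bumpC N)) (h.strong2 R)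
          (Or.inr ENNReal.ofReal_ne_top)) (Or.inr ENNReal.ofReal_ne_top)
      rw [mul_zero, mul_zero] at h3
      have h4 := (ENNReal.tendsto_toReal ENNReal.zero_ne_top).comp h3
      rw [ENNReal.toReal_zero] at h4
      exact h4
    have hfin : ∀ᶠ n in atTop, eLpNorm (fun x => V n x - v x) 2 (volume.restrict (ball 0 R)) ≤ 1 :=
      ENNReal.tendsto_nhds_zero.mp (h.strong2 R) 1 one_pos
    refine tendsto_of_tendsto_of_tendsto_of_le_of_le' tendsto_const_nhds hlim
      (Eventually.of_forall fun _ => norm_nonneg _) ?_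
    filter_upwards [hfin] with n hn
    rw [← integral_inner_toLp (hWm n) (hdm n)]
    refine (norm_inner_le_norm _ _).trans ?_
    rw [Lp.norm_toLp, Lp.norm_toLp, ← ENNReal.toReal_mul]
    apply ENNReal.toReal_mono
    · refine ENNReal.mul_ne_top ENNReal.ofReal_ne_top (ENNReal.mul_ne_top ENNReal.ofReal_ne_top ?_)
      exact (hn.trans_lt ENNReal.one_lt_top).ne
    · refine mul_le_mul' ?_ (hB n)
      exact (h.les n).1.1.eLpNorm_grad_le (h.eps_pos n).le (hC n)
  have h3 := h2.add h1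
  rw [zero_add] at h3
  refine h3.congr fun n => ?_
  rw [← integral_add (integrable_inner' (hWm n) (hdm n)) (integrable_inner' (hWm n) hvm)]
  congr 1
  funext x
  rw [← inner_add_right, sub_add_cancel]

end Pool.Agent.Lib.MP_bf093f_an
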