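import Pool.Agent.Lib.MP_bf093f_an.Limit

set_option autoImplicit false

/-! # The limit inequality, II -/

namespace Pool.Agent.Lib.MP_bf093f_an

open MeasureTheory Filter Topology Metric
open scoped ContDiff ENNReal NNReal

variable {N : ℕ}

lemma abs_rpow_mul_self {p : ℝ} (hp : 2 < p) (t : ℝ) : (|t| ^ (p - 2) * t) * t = |t| ^ p := by
  rcases eq_or_ne t 0 with h | h
  · rw [h, mul_zero, abs_zero, Real.zero_rpow (by linarith)]
  · have h1 : |t| ≠ 0 := abs_ne_zero.mpr h
    have h2 : |t| ^ p = |t| ^ (p - 2) * |t| ^ (2 : ℝ) := by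
      rw [← Real.rpow_add (abs_pos.mpr h)]
      congr 1
      ring
    rw [h2, mul_assoc]
    congr 1
    norm_num
    ring

/-- The positive part of the weight. -/
noncomputable def wp (N : ℕ) (δ : ℝ) : Sp N → ℝ := (ball (0 : Sp N) 1).indicator (cut δ 0)

/-- The negative part of the weight. -/
noncomputable def wm (N : ℕ) (δ : ℝ) : Sp N → ℝ := ((ball (0 : Sp N) 1)ᶜ).indicator (cut δ 0)

lemma wp_props {δ : ℝ} (hδ : 0 < δ) : Measurable (wp N δ) ∧ (∀ x, 0 ≤ wp N δ x) ∧
    (∀ x, wp N δ x ≤ 1) ∧ ∀ x, x ∉ ball (0 : Sp N) (1 / (3 * δ) + 1) → wp N δ x = 0 := by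
  refine ⟨(isTest_cut hδ 0).continuous.measurable.indicator measurableSet_ball,
    fun x => Set.indicator_nonneg (fun _ _ => cut_nonneg) x, fun x => ?_, fun x hx => ?_⟩
  · exact (Set.indicator_le_self' (fun _ _ => cut_nonneg) x).trans cut_le_one
  · have hx' : x ∉ cell δ (0 : Sp N) := by
      intro h3
      apply hx
      rw [cell, mem_closedBall] at h3
      rw [mem_ball]
      linarith
    rw [wp, Set.indicator_apply_eq_zero]
    exact fun _ => cut_eq_zero hδ hx'

lemma wm_props {δ : ℝ} (hδ : 0 < δ) : Measurable (wm N δ) ∧ (∀ x, 0 ≤ wm N δ x) ∧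
    (∀ x, wm N δ x ≤ 1) ∧ ∀ x, x ∉ ball (0 : Sp N) (1 / (3 * δ) + 1) → wm N δ x = 0 := by
  refine ⟨(isTest_cut hδ 0).continuous.measurable.indicator measurableSet_ball.compl,
    fun x => Set.indicator_nonneg (fun _ _ => cut_nonneg) x, fun x => ?_, fun x hx => ?_⟩
  · exact (Set.indicator_le_self' (fun _ _ => cut_nonneg) x).trans cut_le_one
  · have hx' : x ∉ cell δ (0 : Sp N) := by
      intro h3
      apply hx
      rw [cell, mem_closedBall] at h3
      rw [mem_ball]
      linarith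
    rw [wm, Set.indicator_apply_eq_zero]
    exact fun _ => cut_eq_zero hδ hx'

lemma Qlim_cut (δ : ℝ) (x : Sp N) : Qlim N x * cut δ 0 x = wp N δ x - wm N δ x := by
  by_cases h : x ∈ ball (0 : Sp N) 1
  · rw [Qlim_of_mem h, wp, wm, Set.indicator_of_mem h, Set.indicator_of_notMem (by simpa using h)]
    ring
  · rw [Qlim_of_notMem h, wp, wm, Set.indicator_of_notMem h, Set.indicator_of_mem (by simpa using h)]
    ring

lemma integrable_weight {p : ℝ} (hp : 0 < p) {b : Sp N → ℝ} (hb : Measurable b)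
    (hb0 : ∀ x, 0 ≤ b x) (hb1 : ∀ x, b x ≤ 1) {R : ℝ} (hbR : ∀ x, x ∉ ball (0 : Sp N) R → b x = 0)
    {f : Sp N → ℝ} (hf : MemLp f (ENNReal.ofReal p) (volume.restrict (ball 0 R))) :
    Integrable (fun x => b x * |f x| ^ p) volume := by
  have hP : ENNReal.ofReal p ≠ 0 := by rw [Ne, ENNReal.ofReal_eq_zero, not_le]; exact hp
  have h1 : Integrable (fun x => |f x| ^ p) (volume.restrict (ball 0 R)) := by
    have := hf.integrable_norm_rpow hP ENNReal.ofReal_ne_top
    rwa [ENNReal.toReal_ofReal hp.le] at this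
  have h2 : IntegrableOn (fun x => b x * |f x| ^ p) (ball 0 R) volume := by
    refine h1.mono (hb.aestronglyMeasurable.mul h1.1) (Eventually.of_forall fun x => ?_)
    rw [norm_mul, Real.norm_of_nonneg (hb0 x)]
    exact mul_le_of_le_one_left (norm_nonneg _) (hb1 x)
  rw [← integrableOn_univ]
  refine h2.of_forall_sdiff_eq_zero MeasurableSet.univ ?_
  intro x hx
  rw [hbR x hx.2, zero_mul]

lemma integral_Qlim_cut {p δ : ℝ} (hp : 0 < p) (hδ : 0 < δ) {f : Sp N → ℝ}
    (hf : MemLp f (ENNReal.ofReal p) (volume.restrict (ball 0 (1 / (3 * δ) + 1)))) :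
    ∫ x, Qlim N x * (cut δ 0 x * |f x| ^ p) =
      (∫ x, wp N δ x * |f x| ^ p) - ∫ x, wm N δ x * |f x| ^ p := by
  obtain ⟨a1, a2, a3, a4⟩ := wp_props (N := N) hδ
  obtain ⟨b1, b2, b3, b4⟩ := wm_props (N := N) hδ
  rw [← integral_sub (integrable_weight hp a1 a2 a3 a4 hf) (integrable_weight hp b1 b2 b3 b4 hf)]
  congr 1
  funext x
  rw [← sub_mul, ← Qlim_cut]
  ring

variable [hN : Fact (3 ≤ N)]

/-- The limit inequality. -/
lemma LimitData.ineq {p : ℝ} (hp : 2 < p) (hp' : p < twoStar N) {ε : ℕ → ℝ} {V : ℕ → Sp N → ℝ}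
    {W : ℕ → Sp N → Sp N} {v : Sp N → ℝ} {g : Sp N → Sp N} (h : LimitData p ε V W v g)
    {δ : ℝ} (hδ : 0 < δ) :
    (∫ x, inner ℝ (cut δ 0 x • g x) (g x)) + (∫ x, inner ℝ (g x) (v x • gradient (cut δ 0) x)) ≤
      (∫ x, wp N δ x * |v x| ^ p) - ∫ x, wm N δ x * |v x| ^ p := by
  have hp0 : 0 < p := by linarith
  have hη := isTest_cut hδ (0 : Sp N)
  have hg : MemLp g 2 volume := h.hv.2.1
  have hcg : MemLp (fun x => cut δ 0 x • g x) 2 volume := memLp_test_smul hη hg
  have hWm : ∀ n, MemLp (W n) 2 volume := fun n => (h.les n).1.1.2.1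
  have hVp : ∀ n, MemLp (V n) (ENNReal.ofReal p)
      (volume.restrict (ball 0 (1 / (3 * δ) + 1))) := fun n =>
    ((h.les n).1.1.memLp_p hp hp').restrict _
  have hvp : MemLp v (ENNReal.ofReal p) (volume.restrict (ball 0 (1 / (3 * δ) + 1))) :=
    h.hv.memLp_ball hp' _
  obtain ⟨a1, a2, a3, a4⟩ := wp_props (N := N) hδ
  obtain ⟨b1, b2, b3, b4⟩ := wm_props (N := N) hδ
  have t1 := h.weak _ hcg
  have t2 := h.tendsto_cross hδ
  have t3 := tendsto_integral_weight (by linarith : (1 : ℝ) ≤ p) a1 a2 a3 a4 hVp hvp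
    (h.strongp _)
  have t4 := tendsto_integral_weight (by linarith : (1 : ℝ) ≤ p) b1 b2 b3 b4 hVp hvp
    (h.strongp _)
  have e0 : ∫ x, inner ℝ (g x) (cut δ 0 x • g x) = ∫ x, inner ℝ (cut δ 0 x • g x) (g x) := by
    congr 1
    funext x
    exact real_inner_comm _ _
  have key : ∀ᶠ n in atTop, 2 * (∫ x, inner ℝ (W n x) (cut δ 0 x • g x)) -
      (∫ x, inner ℝ (cut δ 0 x • g x) (g x)) +
      (∫ x, inner ℝ (W n x) (V n x • gradient (cut δ 0) x)) ≤
      (∫ x, wp N δ x * |V n x| ^ p) - ∫ x, wm N δ x * |V n x| ^ p := by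
    have hev : ∀ᶠ n in atTop, 1 / (3 * δ) < 1 / ε n - 1 := by
      have h1 : Tendsto (fun n => 1 / ε n) atTop atTop := by
        simp_rw [one_div]
        exact (tendsto_nhdsWithin_iff.mpr ⟨h.eps_lim, Eventually.of_forall
          fun n => h.eps_pos n⟩).inv_tendsto_nhdsGT_zero
      filter_upwards [h1.eventually_gt_atTop (1 / (3 * δ) + 1)] with n hn
      linarith
    filter_upwards [hev] with n hn
    have hL := h.les n
    have e1 := hL.2.1.test_mul hp hp' hL.1.1 (measurable_Qt (h.eps_pos n))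
      (abs_Qt_le (h.eps_pos n)) hη
    have e2 : ∫ x, (Qt N (ε n) x * (cut δ 0 x * (|V n x| ^ (p - 2) * V n x))) * V n x =
        (∫ x, wp N δ x * |V n x| ^ p) - ∫ x, wm N δ x * |V n x| ^ p := by
      rw [← integral_Qlim_cut hp0 hδ (hVp n)]
      congr 1
      funext x
      by_cases hx : x ∈ cell δ (0 : Sp N)
      · rw [cell, mem_closedBall_zero_iff] at hx
        rw [Qt_eq_Qlim (h.eps_pos n) (by linarith), ← abs_rpow_mul_self hp]
        ring
      · rw [cut_eq_zero hδ hx]
        ring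
    rw [e2] at e1
    rw [← e1]
    have hVm : MemLp (fun x => V n x • gradient (cut δ 0) x) 2 volume :=
      memLp_smul_gradient hη hL.1.1.1
    have hηV : MemLp (fun x => cut δ 0 x * V n x) 2 volume := memLp_test_smul hη hL.1.1.1
    have e3 : ∫ x, (inner ℝ (W n x) (gradient (cut δ 0) x) +
        ε n ^ 2 * (cut δ 0 x * V n x)) * V n x =
        (∫ x, inner ℝ (W n x) (V n x • gradient (cut δ 0) x)) +
        ∫ x, ε n ^ 2 * (inner ℝ (cut δ 0 x * V n x) (V n x)) := by
      rw [← integral_add (integrable_inner' (hWm n) hVm)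
        ((integrable_inner' hηV hL.1.1.1).const_mul _)]
      congr 1
      funext x
      rw [inner_smul_right]
      simp only [RCLike.inner_apply, conj_trivial]
      ring
    rw [e3]
    have e4 : 0 ≤ ∫ x, ε n ^ 2 * (inner ℝ (cut δ 0 x * V n x) (V n x)) := by
      apply integral_nonneg
      intro x
      simp only [RCLike.inner_apply, conj_trivial, Pi.zero_apply]
      have := cut_nonneg (ε := δ) (c := 0) (x := x)
      have : 0 ≤ cut δ 0 x * V n x ^ 2 := by positivity
      nlinarith [sq_nonneg (ε n)]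
    have e5 : 2 * (∫ x, inner ℝ (W n x) (cut δ 0 x • g x)) -
        (∫ x, inner ℝ (cut δ 0 x • g x) (g x)) ≤ ∫ x, inner ℝ (cut δ 0 x • W n x) (W n x) := by
      rw [← integral_const_mul, ← integral_sub ((integrable_inner' (hWm n) hcg).const_mul 2)
        (integrable_inner' hcg hg)]
      apply integral_mono (((integrable_inner' (hWm n) hcg).const_mul 2).sub
        (integrable_inner' hcg hg)) (integrable_inner' (memLp_test_smul hη (hWm n)) (hWm n))
      intro x
      simp only [inner_smul_left, inner_smul_right, conj_trivial, Pi.sub_apply]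
      have h1 : 0 ≤ inner ℝ (W n x - g x) (W n x - g x) := real_inner_self_nonneg
      rw [inner_sub_left, inner_sub_right, inner_sub_right, real_inner_comm (W n x) (g x)] at h1
      have h2 := cut_nonneg (ε := δ) (c := 0) (x := x)
      nlinarith [mul_nonneg h2 h1]
    linarith
  have t5 := (((t1.const_mul 2).sub_const (∫ x, inner ℝ (cut δ 0 x • g x) (g x))).add t2)
  have t6 := t3.sub t4
  have := le_of_tendsto_of_tendsto t5 t6 key
  rw [e0] at this
  linarith

end Pool.Agent.Lib.MP_bf093f_an
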