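import Pool.Agent.Lib.MP_bf093f_an.Rellich

set_option autoImplicit false

/-! # Interpolation, local Sobolev inequality, and the nonvanishing estimate -/

namespace Pool.Agent.Lib.MP_bf093f_an

open MeasureTheory Filter Topology Metric
open scoped ContDiff ENNReal NNReal

variable {N : ℕ}

/-! ## General facts about `L^r` convergence -/

lemma tendsto_eLpNorm {F : Type} [NormedAddCommGroup F] {r : ℝ≥0∞} (hr : 1 ≤ r)
    {μ : Measure (Sp N)} {f : ℕ → Sp N → F} {g : Sp N → F}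
    (hf : ∀ n, MemLp (f n) r μ) (hg : MemLp g r μ)
    (h : Tendsto (fun n => eLpNorm (fun x => f n x - g x) r μ) atTop (𝓝 0)) :
    Tendsto (fun n => eLpNorm (f n) r μ) atTop (𝓝 (eLpNorm g r μ)) := by
  have : Fact (1 ≤ r) := ⟨hr⟩
  have h1 : Tendsto (fun n => (hf n).toLp (f n)) atTop (𝓝 (hg.toLp g)) := by
    rw [tendsto_iff_edist_tendsto_0]
    refine h.congr fun n => ?_
    rw [Lp.edist_toLp_toLp]
    rfl
  have h2 := h1.enorm
  simp only [Lp.enorm_toLp] at h2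
  exact h2

lemma tendsto_eLpNorm_restrict {F : Type} [NormedAddCommGroup F] {r : ℝ≥0∞}
    {f : ℕ → Sp N → F} (h : Tendsto (fun n => eLpNorm (f n) r volume) atTop (𝓝 0))
    (s : Set (Sp N)) :
    Tendsto (fun n => eLpNorm (f n) r (volume.restrict s)) atTop (𝓝 0) :=
  tendsto_of_tendsto_of_tendsto_of_le_of_le tendsto_const_nhds h (fun _ => bot_le)
    (fun _ => eLpNorm_mono_measure _ Measure.restrict_le_self)

/-- Interpolation between `L²` and `L^q`. -/
lemma lintegral_interpolate {p q : ℝ} (h2p : 2 < p) (hpq : p < q) {μ : Measure (Sp N)}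
    {f : Sp N → ℝ} (hf : AEStronglyMeasurable f μ) :
    ∫⁻ x, ‖f x‖ₑ ^ p ∂μ ≤
      (∫⁻ x, ‖f x‖ₑ ^ (2 : ℝ) ∂μ) ^ ((q - p) / (q - 2)) *
        (∫⁻ x, ‖f x‖ₑ ^ q ∂μ) ^ ((p - 2) / (q - 2)) := by
  have hq2 : 0 < q - 2 := by linarith
  have key := ENNReal.lintegral_mul_norm_pow_le (μ := μ) (f := fun x => ‖f x‖ₑ ^ (2 : ℝ))
    (g := fun x => ‖f x‖ₑ ^ q) (p := (q - p) / (q - 2)) (q := (p - 2) / (q - 2))
    (hf.enorm.pow_const _) (hf.enorm.pow_const _) (by
      apply div_nonneg <;> linarith) (by apply div_nonneg <;> linarith) (by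
      field_simp; ring)
  refine le_trans (le_of_eq ?_) key
  congr 1
  funext x
  rw [← ENNReal.rpow_mul, ← ENNReal.rpow_mul, ← ENNReal.rpow_add_of_nonneg]
  · congr 1
    field_simp
    ring
  · have : 0 ≤ (q - p) / (q - 2) := by apply div_nonneg <;> linarith
    linarith
  · have : 0 ≤ (p - 2) / (q - 2) := by apply div_nonneg <;> linarith
    exact mul_nonneg (by linarith) this

variable [hN : Fact (3 ≤ N)]

/-! ## `H¹ ⊂ D^{1,2}` -/

lemma IsH1.isD12_of_approx {u : Sp N → ℝ} {g : Sp N → Sp N} (h : IsH1 u g)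
    {φ : ℕ → Sp N → ℝ} (hφ : ∀ n, IsTest (φ n))
    (h1 : Tendsto (fun n => eLpNorm (fun x => φ n x - u x) 2 volume) atTop (𝓝 0))
    (h2 : Tendsto (fun n => eLpNorm (fun x => gradient (φ n) x - g x) 2 volume) atTop (𝓝 0)) :
    MemLp u (qs N) volume ∧
      Tendsto (fun n => eLpNorm (fun x => φ n x - u x) (qs N) volume) atTop (𝓝 0) := by
  have h3 := tendsto_toLp (fun n => (hφ n).memLp_gradient 2) h.2.1 h2
  have hmem : h.2.1.toLp g ∈ gradSpace N := by
    have h4 : ∀ n, ((hφ n).memLp_gradient 2).toLp (gradient (φ n)) ∈ (gradSpace N : Set _) :=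
      fun n => (gradG N ⟨φ n, hφ n⟩).2
    exact (Submodule.isClosed_topologicalClosure _).mem_of_tendsto h3 (Eventually.of_forall h4)
  let G : gradSpace N := ⟨h.2.1.toLp g, hmem⟩
  have h5 : Tendsto (fun n => gradG N ⟨φ n, hφ n⟩) atTop (𝓝 G) := tendsto_subtype_rng.mpr h3
  have h6 := ((sobS N).continuous.tendsto G).comp h5
  have h7 : (sobS N) ∘ (fun n => gradG N ⟨φ n, hφ n⟩)
      = fun n => ((hφ n).memLp (qs N)).toLp (φ n) := by
    funext n
    exact sobS_gradG _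
  rw [h7] at h6
  have h8 : Tendsto (fun n => eLpNorm (fun x => φ n x - sobS N G x) (qs N) volume) atTop (𝓝 0) := by
    have h9 := tendsto_iff_edist_tendsto_0.mp h6
    refine h9.congr fun n => ?_
    rw [Lp.edist_def]
    apply eLpNorm_congr_ae
    filter_upwards [((hφ n).memLp (qs N)).coeFn_toLp] with x hx
    rw [Pi.sub_apply, hx]
  -- identify the two limits
  obtain ⟨σ, hσ, hae⟩ := exists_subseq_ae (r := 2) (by norm_num)
    (fun n => ((hφ n).memLp 2).1) h.1.1 h1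
  obtain ⟨τ, hτ, hae'⟩ := exists_subseq_ae (qs_ne_zero hN.out)
    (fun n => ((hφ (σ n)).memLp (qs N)).1) (Lp.aestronglyMeasurable (sobS N G))
    (h8.comp hσ.tendsto_atTop)
  have heq : u =ᵐ[volume] (sobS N G : Sp N → ℝ) := by
    filter_upwards [hae, hae'] with x hx hx'
    exact tendsto_nhds_unique (hx.comp hτ.tendsto_atTop) hx'
  refine ⟨(memLp_congr_ae heq).mpr (Lp.memLp _), ?_⟩
  refine h8.congr fun n => ?_
  apply eLpNorm_congr_ae
  filter_upwards [heq] with x hx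
  rw [hx]

lemma IsH1.isD12 {u : Sp N → ℝ} {g : Sp N → Sp N} (h : IsH1 u g) : IsD12 u g := by
  obtain ⟨φ, hφ, h1, h2⟩ := h.2.2
  obtain ⟨h3, h4⟩ := h.isD12_of_approx hφ h1 h2
  exact ⟨h3, h.2.1, φ, hφ, h4, h2⟩

end Pool.Agent.Lib.MP_bf093f_an
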