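import Pool.Agent.Lib.MP_bf093f_an.LogFun

set_option autoImplicit false

/-! # The logarithmic estimate -/

namespace Pool.Agent.Lib.MP_bf093f_an

open MeasureTheory Filter Topology Metric
open scoped ContDiff ENNReal NNReal

variable {N : ℕ} [hN : Fact (3 ≤ N)]

omit hN in
lemma rpow_sub_two_le {p t : ℝ} (hp : 2 < p) (ht : 0 ≤ t) : t ^ (p - 2) ≤ 1 + t ^ p := by
  rcases le_total t 1 with h | h
  · have h1 : t ^ (p - 2) ≤ 1 := Real.rpow_le_one ht h (by linarith)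
    have h2 : 0 ≤ t ^ p := Real.rpow_nonneg ht _
    linarith
  · have h1 : t ^ (p - 2) ≤ t ^ p := Real.rpow_le_rpow_of_exponent_le h (by linarith)
    linarith

lemma log_est {a : ℝ} {Q : Sp N → ℝ} {p : ℝ} (hp : 2 < p) (hp' : p < twoStar N)
    (ha0 : 0 ≤ a) (ha1 : a ≤ 1) {V : Sp N → ℝ} {W : Sp N → Sp N} (hV : IsH1 V W)
    (hsol : IsWeakSol a Q p V W) (hQ : Measurable Q) (hQ1 : ∀ x, |Q x| ≤ 1)
    (hpos : ∀ᵐ x, 0 ≤ V x) {δ τ : ℝ} (hδ : 0 < δ) (hτ : 0 < τ) :
    Integrable (fun x => (cut δ 0 x * FF τ (V x)) ^ 2 * ‖W x‖ ^ 2) volume ∧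
    ∫ x, (cut δ 0 x * FF τ (V x)) ^ 2 * ‖W x‖ ^ 2 ≤
      16 * (∫ x : Sp N, ‖gradient (cut δ 0) x‖ ^ 2) + 8 * (∫ x : Sp N, cut δ 0 x ^ 2) +
        4 * ∫ x, cut δ 0 x ^ 2 * |V x| ^ p := by
  have hχ := isTest_cut hδ (0 : Sp N)
  set χ : Sp N → ℝ := cut δ 0 with hχdef
  have hη : IsTest (fun x => χ x * χ x) := IsTest.mul hχ.1 hχ
  have hp0 : 0 < p := by linarith
  have hFabs : ∀ t, |FF τ t| ≤ τ⁻¹ := fun t => by
    rw [abs_of_pos (FF_pos hτ t)]; exact FF_le hτ t
  have hψ := hV.comp (contDiff_FF hτ) hFabs (abs_deriv_FF_le hτ) hη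
  have key := hsol.extend hp hp' hV hQ hQ1 hψ
  have hVp := hV.memLp_p hp hp'
  have hψp := hψ.memLp_p hp hp'
  have hFm : AEStronglyMeasurable (fun x => FF τ (V x)) volume :=
    (contDiff_FF hτ).continuous.comp_aestronglyMeasurable hV.1.1
  have hχm := hχ.continuous.aestronglyMeasurable (μ := volume)
  have hχ0 : ∀ x, 0 ≤ χ x := fun x => cut_nonneg
  have hχ1 : ∀ x, χ x ≤ 1 := fun x => cut_le_one
  -- integrability
  have i1 := integrable_inner' hV.2.1 hψ.2.1
  have i2 : Integrable (fun x => V x * (χ x * χ x * FF τ (V x))) volume := by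
    have := integrable_inner' hψ.1 hV.1
    exact this
  have i3 : Integrable (fun x => Q x * (|V x| ^ (p - 2) * V x) * (χ x * χ x * FF τ (V x)))
      volume := by
    have hc := (holderConj (by linarith : 1 < p)).ennrealOfReal
    have m3 : MemLp (fun x => Q x * (|V x| ^ (p - 2) * V x))
        (ENNReal.ofReal (p / (p - 1))) volume := by
      have h5 := memLp_pow (by linarith) hVp
      refine h5.of_le (hQ.aestronglyMeasurable.mul h5.1) ?_
      refine Eventually.of_forall fun x => ?_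
      rw [norm_mul]
      exact mul_le_of_le_one_left (norm_nonneg _) (hQ1 x)
    exact m3.integrable_mul hψp
  have iJ : Integrable (fun x => (χ x * FF τ (V x)) ^ 2 * ‖W x‖ ^ 2) volume := by
    have h1 : Integrable (fun x => τ⁻¹ ^ 2 * ‖W x‖ ^ 2) volume :=
      (hV.2.1.norm.integrable_sq).const_mul _
    refine h1.mono (((hχm.mul hFm).pow 2).mul (hV.2.1.1.norm.pow 2))
      (Eventually.of_forall fun x => ?_)
    have hF := FF_pos hτ (V x)
    have hF2 := FF_le hτ (V x)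
    rw [Real.norm_of_nonneg (by positivity), Real.norm_of_nonneg (by positivity)]
    have : χ x * FF τ (V x) ≤ τ⁻¹ := by
      calc χ x * FF τ (V x) ≤ 1 * FF τ (V x) := by gcongr; exact hχ1 x
        _ ≤ _ := by rw [one_mul]; exact hF2
    have h0 : 0 ≤ χ x * FF τ (V x) := mul_nonneg (hχ0 x) hF.le
    gcongr
  have iD : Integrable (fun x => ‖gradient χ x‖ ^ 2) volume :=
    (hχ.memLp_gradient 2).norm.integrable_sq
  have iC : Integrable (fun x => χ x ^ 2) volume := (hχ.memLp 2).integrable_sq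
  have iE : Integrable (fun x => χ x ^ 2 * |V x| ^ p) volume := by
    have h1 := integrable_abs_rpow hp0 hVp
    refine h1.mono ((hχm.pow 2).mul h1.1) (Eventually.of_forall fun x => ?_)
    rw [norm_mul]
    apply mul_le_of_le_one_left (norm_nonneg _)
    rw [Real.norm_of_nonneg (sq_nonneg _)]
    exact pow_le_one₀ (hχ0 x) (hχ1 x)
  refine ⟨iJ, ?_⟩
  -- the pointwise inequality
  have hle : (∫ x, (inner ℝ (W x) (FF τ (V x) • gradient (fun x => χ x * χ x) x +
        (χ x * χ x * deriv (FF τ) (V x)) • W x) + a * (V x * (χ x * χ x * FF τ (V x)))) -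
        Q x * (|V x| ^ (p - 2) * V x) * (χ x * χ x * FF τ (V x))) ≤
      ∫ x, (((-(1 / 4) * ((χ x * FF τ (V x)) ^ 2 * ‖W x‖ ^ 2) + 4 * ‖gradient χ x‖ ^ 2) +
        2 * χ x ^ 2) + χ x ^ 2 * |V x| ^ p) := by
    apply integral_mono_ae ((i1.add (i2.const_mul a)).sub i3)
      ((((iJ.const_mul _).add (iD.const_mul 4)).add (iC.const_mul 2)).add iE)
    filter_upwards [hpos] with x hx
    have hF := FF_pos hτ (V x)
    have h0 := hχ0 x
    have hd := half_le_dsm hτ hx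
    have hVF := mul_FF_le hτ hx
    have hVF0 : 0 ≤ V x * FF τ (V x) := mul_nonneg hx hF.le
    have e1 : inner ℝ (W x) (FF τ (V x) • gradient (fun x => χ x * χ x) x +
        (χ x * χ x * deriv (FF τ) (V x)) • W x) =
        2 * (χ x * FF τ (V x)) * inner ℝ (W x) (gradient χ x) -
          dsm τ (V x) * ((χ x * FF τ (V x)) ^ 2 * ‖W x‖ ^ 2) := by
      rw [gradient_mul' hχ.differentiable hχ.differentiable, deriv_FF hτ, inner_add_right,
        inner_smul_right, inner_add_right, inner_smul_right, inner_smul_right,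
        real_inner_self_eq_norm_sq]
      ring
    have e2 : inner ℝ (W x) (gradient χ x) ≤ ‖W x‖ * ‖gradient χ x‖ := real_inner_le_norm _ _
    have e3 : 2 * (χ x * FF τ (V x)) * inner ℝ (W x) (gradient χ x) ≤
        (1 / 4) * ((χ x * FF τ (V x)) ^ 2 * ‖W x‖ ^ 2) + 4 * ‖gradient χ x‖ ^ 2 := by
      have hc0 : 0 ≤ χ x * FF τ (V x) := mul_nonneg h0 hF.le
      calc 2 * (χ x * FF τ (V x)) * inner ℝ (W x) (gradient χ x)
          ≤ 2 * (χ x * FF τ (V x)) * (‖W x‖ * ‖gradient χ x‖) := by gcongr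
        _ ≤ _ := by
            nlinarith [sq_nonneg (χ x * FF τ (V x) * ‖W x‖ - 4 * ‖gradient χ x‖)]
    have e4 : (1 / 2) * ((χ x * FF τ (V x)) ^ 2 * ‖W x‖ ^ 2) ≤
        dsm τ (V x) * ((χ x * FF τ (V x)) ^ 2 * ‖W x‖ ^ 2) := by gcongr
    have e5 : a * (V x * (χ x * χ x * FF τ (V x))) ≤ χ x ^ 2 := by
      have h1 : a * (V x * (χ x * χ x * FF τ (V x))) = a * (V x * FF τ (V x)) * χ x ^ 2 := by ring
      rw [h1]
      have h2 : a * (V x * FF τ (V x)) ≤ 1 := by nlinarith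
      have h3 : 0 ≤ χ x ^ 2 := sq_nonneg _
      nlinarith
    have e6 : -(Q x * (|V x| ^ (p - 2) * V x) * (χ x * χ x * FF τ (V x))) ≤
        χ x ^ 2 + χ x ^ 2 * |V x| ^ p := by
      have h1 : -(Q x * (|V x| ^ (p - 2) * V x) * (χ x * χ x * FF τ (V x))) =
          (-Q x) * ((|V x| ^ (p - 2) * (V x * FF τ (V x))) * χ x ^ 2) := by ring
      rw [h1]
      have h2 : 0 ≤ |V x| ^ (p - 2) := Real.rpow_nonneg (abs_nonneg _) _
      have h3 : 0 ≤ (|V x| ^ (p - 2) * (V x * FF τ (V x))) * χ x ^ 2 := by positivity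
      have h4 : -Q x ≤ 1 := by
        have := (abs_le.mp (hQ1 x)).1
        linarith
      calc (-Q x) * ((|V x| ^ (p - 2) * (V x * FF τ (V x))) * χ x ^ 2)
          ≤ 1 * ((|V x| ^ (p - 2) * (V x * FF τ (V x))) * χ x ^ 2) := by gcongr
        _ ≤ 1 * ((|V x| ^ (p - 2) * 1) * χ x ^ 2) := by gcongr
        _ = |V x| ^ (p - 2) * χ x ^ 2 := by ring
        _ ≤ (1 + |V x| ^ p) * χ x ^ 2 := by
            gcongr
            exact rpow_sub_two_le hp (abs_nonneg _)
        _ = _ := by ring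
    simp only [Pi.sub_apply, Pi.add_apply]
    rw [e1]
    linarith
  have i12 : Integrable (fun x => inner ℝ (W x) (FF τ (V x) • gradient (fun x => χ x * χ x) x +
        (χ x * χ x * deriv (FF τ) (V x)) • W x) + a * (V x * (χ x * χ x * FF τ (V x)))) volume :=
    i1.add (i2.const_mul a)
  have k1 : Integrable (fun x => -(1 / 4) * ((χ x * FF τ (V x)) ^ 2 * ‖W x‖ ^ 2)) volume :=
    iJ.const_mul _
  have k2 : Integrable (fun x => -(1 / 4) * ((χ x * FF τ (V x)) ^ 2 * ‖W x‖ ^ 2) +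
      4 * ‖gradient χ x‖ ^ 2) volume := k1.add (iD.const_mul 4)
  have k3 : Integrable (fun x => (-(1 / 4) * ((χ x * FF τ (V x)) ^ 2 * ‖W x‖ ^ 2) +
      4 * ‖gradient χ x‖ ^ 2) + 2 * χ x ^ 2) volume := k2.add (iC.const_mul 2)
  have hl : (∫ x, (inner ℝ (W x) (FF τ (V x) • gradient (fun x => χ x * χ x) x +
        (χ x * χ x * deriv (FF τ) (V x)) • W x) + a * (V x * (χ x * χ x * FF τ (V x)))) -
        Q x * (|V x| ^ (p - 2) * V x) * (χ x * χ x * FF τ (V x))) = 0 := by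
    rw [integral_sub i12 i3, integral_add i1 (i2.const_mul a), integral_const_mul, key, sub_self]
  have hr : ∫ x, (((-(1 / 4) * ((χ x * FF τ (V x)) ^ 2 * ‖W x‖ ^ 2) + 4 * ‖gradient χ x‖ ^ 2) +
        2 * χ x ^ 2) + χ x ^ 2 * |V x| ^ p) =
      -(1 / 4) * (∫ x, (χ x * FF τ (V x)) ^ 2 * ‖W x‖ ^ 2) + 4 * (∫ x, ‖gradient χ x‖ ^ 2) +
        2 * (∫ x, χ x ^ 2) + ∫ x, χ x ^ 2 * |V x| ^ p := by
    rw [integral_add k3 iE, integral_add k2 (iC.const_mul 2),
      integral_add k1 (iD.const_mul 4), integral_const_mul, integral_const_mul,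
      integral_const_mul]
  rw [hl, hr] at hle
  linarith

end Pool.Agent.Lib.MP_bf093f_an
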