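import Pool.Agent.Lib.MP_bf093f_an.Poincare

set_option autoImplicit false

/-! # The truncated logarithm -/

namespace Pool.Agent.Lib.MP_bf093f_an

open MeasureTheory Filter Topology Metric
open scoped ContDiff ENNReal NNReal

/-- `√(t² + τ²)`. -/
noncomputable def rt (τ t : ℝ) : ℝ := √(t ^ 2 + τ ^ 2)

/-- A smooth regularisation of the positive part. -/
noncomputable def sm (τ t : ℝ) : ℝ := (t + rt τ t) / 2

/-- Its derivative. -/
noncomputable def dsm (τ t : ℝ) : ℝ := (1 + t / rt τ t) / 2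

/-- `1 / (s(t) + τ)`. -/
noncomputable def FF (τ t : ℝ) : ℝ := (sm τ t + τ)⁻¹

/-- `log (s(t) + τ) - log (s(0) + τ)`. -/
noncomputable def LL (τ t : ℝ) : ℝ := Real.log (sm τ t + τ) - Real.log (sm τ 0 + τ)

variable {τ : ℝ}

lemma rt_arg_pos (hτ : 0 < τ) (t : ℝ) : 0 < t ^ 2 + τ ^ 2 := by positivity

lemma rt_pos (hτ : 0 < τ) (t : ℝ) : 0 < rt τ t := Real.sqrt_pos.mpr (rt_arg_pos hτ t)

lemma abs_le_rt (t : ℝ) : |t| ≤ rt τ t := by
  apply Real.abs_le_sqrt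
  nlinarith [sq_nonneg τ]

lemma contDiff_rt (hτ : 0 < τ) : ContDiff ℝ ∞ (rt τ) := by
  unfold rt
  apply ContDiff.sqrt
  · fun_prop
  · exact fun x => (rt_arg_pos hτ x).ne'

lemma hasDerivAt_rt (hτ : 0 < τ) (t : ℝ) : HasDerivAt (rt τ) (t / rt τ t) t := by
  have h1 : HasDerivAt (fun t : ℝ => t ^ 2 + τ ^ 2) (2 * t) t := by
    simpa using (hasDerivAt_pow 2 t).add_const (τ ^ 2)
  have h2 : HasDerivAt (rt τ) (2 * t / (2 * √(t ^ 2 + τ ^ 2))) t :=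
    h1.sqrt (rt_arg_pos hτ t).ne'
  refine h2.congr_deriv ?_
  change 2 * t / (2 * rt τ t) = t / rt τ t
  have := (rt_pos hτ t).ne'
  field_simp

lemma contDiff_sm (hτ : 0 < τ) : ContDiff ℝ ∞ (sm τ) := by
  unfold sm
  exact (contDiff_id.add (contDiff_rt hτ)).div_const 2

lemma hasDerivAt_sm (hτ : 0 < τ) (t : ℝ) : HasDerivAt (sm τ) (dsm τ t) t :=
  ((hasDerivAt_id t).add (hasDerivAt_rt hτ t)).div_const 2

lemma sm_nonneg (t : ℝ) : 0 ≤ sm τ t := by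
  have := abs_le_rt (τ := τ) t
  have := neg_abs_le t
  unfold sm
  linarith

lemma le_sm (t : ℝ) : t ≤ sm τ t := by
  have := abs_le_rt (τ := τ) t
  have := le_abs_self t
  unfold sm
  linarith

lemma sm_add_pos (hτ : 0 < τ) (t : ℝ) : 0 < sm τ t + τ := by
  have := sm_nonneg (τ := τ) t
  linarith

lemma dsm_nonneg (hτ : 0 < τ) (t : ℝ) : 0 ≤ dsm τ t := by
  have h1 := rt_pos hτ t
  have h2 := abs_le_rt (τ := τ) t
  have h3 : -1 ≤ t / rt τ t := by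
    rw [le_div_iff₀ h1]
    have := neg_abs_le t
    linarith
  unfold dsm
  linarith

lemma dsm_le_one (hτ : 0 < τ) (t : ℝ) : dsm τ t ≤ 1 := by
  have h1 := rt_pos hτ t
  have h2 := abs_le_rt (τ := τ) t
  have h3 : t / rt τ t ≤ 1 := by
    rw [div_le_iff₀ h1]
    have := le_abs_self t
    linarith
  unfold dsm
  linarith

lemma half_le_dsm (hτ : 0 < τ) {t : ℝ} (ht : 0 ≤ t) : 1 / 2 ≤ dsm τ t := by
  have h1 := rt_pos hτ t
  have : 0 ≤ t / rt τ t := by positivity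
  unfold dsm
  linarith

lemma FF_pos (hτ : 0 < τ) (t : ℝ) : 0 < FF τ t := inv_pos.mpr (sm_add_pos hτ t)

lemma FF_le (hτ : 0 < τ) (t : ℝ) : FF τ t ≤ τ⁻¹ := by
  unfold FF
  have := sm_nonneg (τ := τ) t
  gcongr
  linarith

lemma contDiff_FF (hτ : 0 < τ) : ContDiff ℝ ∞ (FF τ) := by
  unfold FF
  exact ((contDiff_sm hτ).add contDiff_const).inv fun x => (sm_add_pos hτ x).ne'

lemma hasDerivAt_FF (hτ : 0 < τ) (t : ℝ) : HasDerivAt (FF τ) (-(dsm τ t * FF τ t ^ 2)) t := by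
  have h1 : HasDerivAt (FF τ) (-dsm τ t / (sm τ t + τ) ^ 2) t :=
    ((hasDerivAt_sm hτ t).add_const τ).inv (sm_add_pos hτ t).ne'
  refine h1.congr_deriv ?_
  unfold FF
  have := (sm_add_pos hτ t).ne'
  field_simp

lemma deriv_FF (hτ : 0 < τ) (t : ℝ) : deriv (FF τ) t = -(dsm τ t * FF τ t ^ 2) :=
  (hasDerivAt_FF hτ t).deriv

lemma abs_deriv_FF_le (hτ : 0 < τ) (t : ℝ) : |deriv (FF τ) t| ≤ τ⁻¹ ^ 2 := by
  rw [deriv_FF hτ, abs_neg, abs_of_nonneg (mul_nonneg (dsm_nonneg hτ t) (sq_nonneg _))]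
  have h1 := dsm_le_one hτ t
  have h2 := dsm_nonneg hτ t
  have h3 := FF_le hτ t
  have h4 := FF_pos hτ t
  calc dsm τ t * FF τ t ^ 2 ≤ 1 * FF τ t ^ 2 := by gcongr
    _ = FF τ t ^ 2 := one_mul _
    _ ≤ _ := by gcongr

lemma mul_FF_le (hτ : 0 < τ) {t : ℝ} (_ht : 0 ≤ t) : t * FF τ t ≤ 1 := by
  rw [FF, ← div_eq_mul_inv, div_le_one (sm_add_pos hτ t)]
  have := le_sm (τ := τ) t
  linarith

lemma contDiff_LL (hτ : 0 < τ) : ContDiff ℝ ∞ (LL τ) := by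
  unfold LL
  exact (((contDiff_sm hτ).add contDiff_const).log fun x => (sm_add_pos hτ x).ne').sub
    contDiff_const

lemma LL_zero : LL τ 0 = 0 := sub_self _

lemma hasDerivAt_LL (hτ : 0 < τ) (t : ℝ) : HasDerivAt (LL τ) (dsm τ t * FF τ t) t := by
  have h1 : HasDerivAt (LL τ) (dsm τ t / (sm τ t + τ)) t :=
    (((hasDerivAt_sm hτ t).add_const τ).log (sm_add_pos hτ t).ne').sub_const
      (Real.log (sm τ 0 + τ))
  exact h1.congr_deriv (div_eq_mul_inv _ _)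

lemma deriv_LL (hτ : 0 < τ) (t : ℝ) : deriv (LL τ) t = dsm τ t * FF τ t :=
  (hasDerivAt_LL hτ t).deriv

lemma abs_deriv_LL_le_FF (hτ : 0 < τ) (t : ℝ) : |deriv (LL τ) t| ≤ FF τ t := by
  have h4 := FF_pos hτ t
  rw [deriv_LL hτ, abs_of_nonneg (mul_nonneg (dsm_nonneg hτ t) h4.le)]
  exact mul_le_of_le_one_left h4.le (dsm_le_one hτ t)

lemma abs_deriv_LL_le (hτ : 0 < τ) (t : ℝ) : |deriv (LL τ) t| ≤ τ⁻¹ :=
  (abs_deriv_LL_le_FF hτ t).trans (FF_le hτ t)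

lemma le_LL (hτ : 0 < τ) {t : ℝ} (ht : 0 < t) : Real.log (t / (2 * τ)) ≤ LL τ t := by
  have h1 : sm τ 0 = τ / 2 := by
    rw [sm, rt]
    simp only [ne_eq, OfNat.ofNat_ne_zero, not_false_eq_true, zero_pow, zero_add]
    rw [Real.sqrt_sq hτ.le]
  have h2 : 0 < sm τ 0 + τ := sm_add_pos hτ 0
  rw [LL, ← Real.log_div (sm_add_pos hτ t).ne' h2.ne']
  apply Real.log_le_log (by positivity)
  rw [div_le_div_iff₀ (by positivity) h2, h1]
  have h3 := le_sm (τ := τ) t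
  nlinarith [mul_nonneg hτ.le (sub_nonneg.mpr h3), mul_pos hτ ht, mul_pos hτ hτ]

end Pool.Agent.Lib.MP_bf093f_an
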