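import Pool.Agent.Lib.MP_bf093f_an.Cell

set_option autoImplicit false

/-! # The nonvanishing estimate -/

namespace Pool.Agent.Lib.MP_bf093f_an

open MeasureTheory Filter Topology Metric
open scoped ContDiff ENNReal NNReal

variable {N : ℕ}

/-! ## Lattice geometry -/

/-- The centre of the `k`-th core, in the rescaled picture. -/
noncomputable def cen (ε : ℝ) (k : Fin N → ℤ) : Sp N := ε⁻¹ • lat k

lemma one_le_dist_lat {k l : Fin N → ℤ} (h : k ≠ l) : 1 ≤ dist (lat k) (lat l) := by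
  obtain ⟨i, hi⟩ := Function.ne_iff.mp h
  rw [dist_eq_norm]
  have h1 : ‖(lat k - lat l) i‖ ≤ ‖lat k - lat l‖ := PiLp.norm_apply_le _ i
  refine le_trans ?_ h1
  have h2 : (lat k - lat l) i = ((k i - l i : ℤ) : ℝ) := by
    simp [lat]
  rw [h2, Real.norm_eq_abs, ← Int.cast_abs]
  have h3 : 1 ≤ |k i - l i| := Int.one_le_abs (sub_ne_zero.mpr hi)
  exact_mod_cast h3

lemma dist_cen {ε : ℝ} (hε : 0 < ε) {k l : Fin N → ℤ} (h : k ≠ l) :
    1 / ε ≤ dist (cen ε k) (cen ε l) := by
  rw [cen, cen, dist_smul₀, Real.norm_of_nonneg (inv_nonneg.mpr hε.le), one_div]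
  exact le_mul_of_one_le_right (inv_nonneg.mpr hε.le) (one_le_dist_lat h)

lemma pairwise_disjoint_cell {ε : ℝ} (hε : 0 < ε) :
    Pairwise (Function.onFun Disjoint fun k : Fin N → ℤ => cell ε (cen ε k)) := by
  intro k l hkl
  apply closedBall_disjoint_closedBall
  refine lt_of_lt_of_le ?_ (dist_cen hε hkl)
  rw [← add_div, div_lt_div_iff₀ (by positivity) hε]
  nlinarith

/-- The union of the cores, in the rescaled picture. -/
def cores (N : ℕ) (ε : ℝ) : Set (Sp N) := ⋃ k : Fin N → ℤ, ball (cen ε k) 1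

lemma measurableSet_cores {ε : ℝ} : MeasurableSet (cores N ε) :=
  MeasurableSet.iUnion fun _ => measurableSet_ball

lemma mem_cores_iff {ε : ℝ} (hε : 0 < ε) (x : Sp N) :
    (∃ k : Fin N → ℤ, dist (ε • x) (lat k) < ε) ↔ x ∈ cores N ε := by
  rw [cores, Set.mem_iUnion]
  refine exists_congr fun k => ?_
  rw [mem_ball, cen]
  have h1 : lat k = ε • (ε⁻¹ • lat k) := by rw [smul_smul, mul_inv_cancel₀ hε.ne', one_smul]
  conv_lhs => rw [h1, dist_smul₀, Real.norm_of_nonneg hε.le]
  constructor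
  · intro h2
    by_contra h3
    rw [not_lt] at h3
    nlinarith
  · intro h2
    nlinarith

lemma coreSign_of_mem {ε : ℝ} (hε : 0 < ε) {x : Sp N} (hx : x ∈ cores N ε) :
    coreSign ε (ε • x) = 1 := by
  rw [coreSign, if_pos ((mem_cores_iff hε x).mpr hx)]

lemma coreSign_of_notMem {ε : ℝ} (hε : 0 < ε) {x : Sp N} (hx : x ∉ cores N ε) :
    coreSign ε (ε • x) = -1 := by
  rw [coreSign, if_neg (fun h => hx ((mem_cores_iff hε x).mp h))]

/-! ## The energy density -/

lemma dens_eq {ε : ℝ} (hε : 0 ≤ ε) (u : Sp N → ℝ) (g : Sp N → Sp N) (x : Sp N) :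
    dens ε u g x = ENNReal.ofReal (‖g x‖ ^ 2 + ε ^ 2 * u x ^ 2) := by
  rw [dens, ENNReal.ofReal_add (by positivity) (by positivity), ENNReal.ofReal_mul (by positivity),
    ← ofReal_norm, ← ofReal_norm, ENNReal.ofReal_pow (norm_nonneg _),
    ENNReal.ofReal_pow hε, ← ENNReal.ofReal_pow (norm_nonneg (u x)), Real.norm_eq_abs, sq_abs]

lemma IsH1.integrable {a : ℝ} {u : Sp N → ℝ} {g : Sp N → Sp N} (h : IsH1 u g) :
    Integrable (fun x => ‖g x‖ ^ 2 + a * u x ^ 2) volume := by
  have h1 : Integrable (fun x => ‖g x‖ ^ 2) volume := by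
    have := (h.2.1.norm).integrable_sq
    exact this
  exact h1.add (h.1.integrable_sq.const_mul a)

lemma lintegral_dens {ε : ℝ} (hε : 0 ≤ ε) {u : Sp N → ℝ} {g : Sp N → Sp N} (h : IsH1 u g) :
    ∫⁻ x, dens ε u g x = ENNReal.ofReal (quadForm (ε ^ 2) u g) := by
  rw [quadForm, ofReal_integral_eq_lintegral_ofReal h.integrable
    (Eventually.of_forall fun x => by positivity)]
  exact lintegral_congr fun x => dens_eq hε u g x

lemma ae_zero_of_lintegral_dens {ε : ℝ} (hε : 0 < ε) {u : Sp N → ℝ} {g : Sp N → Sp N}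
    (h : IsH1 u g) (h0 : ∫⁻ x, dens ε u g x = 0) : u =ᵐ[volume] 0 := by
  have hm : AEMeasurable (fun x => dens ε u g x) volume := by
    unfold dens
    exact (h.2.1.1.enorm.pow_const 2).add ((h.1.1.enorm.pow_const 2).const_mul _)
  rw [lintegral_eq_zero_iff' hm] at h0
  filter_upwards [h0] with x hx
  rw [Pi.zero_apply, dens, add_eq_zero] at hx
  have h1 := hx.2
  rw [mul_eq_zero] at h1
  rcases h1 with h1 | h1
  · exfalso
    have : ENNReal.ofReal ε ≠ 0 := by rw [Ne, ENNReal.ofReal_eq_zero, not_le]; exact hε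
    exact this (by simpa using h1)
  · simpa using h1

lemma ofReal_integral_le {f : Sp N → ℝ} : ENNReal.ofReal (∫ x, f x) ≤ ∫⁻ x, ENNReal.ofReal (f x) := by
  by_cases hf : Integrable f volume
  · rw [integral_eq_lintegral_pos_part_sub_lintegral_neg_part hf]
    refine (ENNReal.ofReal_le_ofReal (sub_le_self _ ENNReal.toReal_nonneg)).trans ?_
    exact ENNReal.ofReal_toReal_le
  · rw [integral_undef hf]
    simp

lemma ofReal_coreInt_le {ε : ℝ} (hε : 0 < ε) {p : ℝ} (hp : 0 < p) (u : Sp N → ℝ) :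
    ENNReal.ofReal (coreInt (fun x => coreSign ε (ε • x)) p u) ≤
      ∫⁻ x in cores N ε, ‖u x‖ₑ ^ p := by
  refine (ofReal_integral_le).trans ?_
  rw [← lintegral_indicator measurableSet_cores]
  apply lintegral_mono
  intro x
  simp only
  by_cases hx : x ∈ cores N ε
  · rw [coreSign_of_mem hε hx, Set.indicator_of_mem hx, one_mul,
      ← ENNReal.ofReal_rpow_of_nonneg (abs_nonneg _) hp.le, ← Real.norm_eq_abs, ofReal_norm]
  · rw [coreSign_of_notMem hε hx, Set.indicator_of_notMem hx, nonpos_iff_eq_zero,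
      ENNReal.ofReal_eq_zero]
    have : 0 ≤ |u x| ^ p := by positivity
    linarith

variable [hN : Fact (3 ≤ N)]

/-- The nonvanishing estimate: some core carries a definite amount of the `L^p` norm. -/
lemma exists_core {p ε : ℝ} (hp : 2 < p) (hp' : p < twoStar N)
    (hε : 0 < ε) (hε' : ε ≤ 1 / 4) {u : Sp N → ℝ} {g : Sp N → Sp N} (h : IsH1 u g)
    (hu : ¬ u =ᵐ[volume] 0)
    (hneh : quadForm (ε ^ 2) u g = coreInt (fun x => coreSign ε (ε • x)) p u) :
    ∃ k : Fin N → ℤ, 1 ≤ 2 * (holdC N p ^ 2 * cellK N) *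
      eLpNorm u (ENNReal.ofReal p) (volume.restrict (ball (cen ε k) 1)) ^ (p - 2) := by
  by_contra hcon
  push Not at hcon
  set D := ∫⁻ x, dens ε u g x with hD
  have hDtop : D ≠ ⊤ := by rw [hD, lintegral_dens hε.le h]; exact ENNReal.ofReal_ne_top
  have hD0 : D ≠ 0 := fun h0 => hu (ae_zero_of_lintegral_dens hε h h0)
  have h1 : 2 * D ≤ D := by
    calc 2 * D = 2 * ENNReal.ofReal (coreInt (fun x => coreSign ε (ε • x)) p u) := by
          rw [hD, lintegral_dens hε.le h, hneh]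
      _ ≤ 2 * ∫⁻ x in cores N ε, ‖u x‖ₑ ^ p := by
          gcongr
          exact ofReal_coreInt_le hε (by linarith) u
      _ ≤ 2 * ∑' k : Fin N → ℤ, ∫⁻ x in ball (cen ε k) 1, ‖u x‖ₑ ^ p := by
          gcongr
          exact lintegral_iUnion_le _ _
      _ = ∑' k : Fin N → ℤ, 2 * ∫⁻ x in ball (cen ε k) 1, ‖u x‖ₑ ^ p := by
          rw [ENNReal.tsum_mul_left]
      _ ≤ ∑' k : Fin N → ℤ, ∫⁻ x in cell ε (cen ε k), dens ε u g x := by
          refine ENNReal.tsum_le_tsum fun k => ?_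
          calc 2 * ∫⁻ x in ball (cen ε k) 1, ‖u x‖ₑ ^ p
              ≤ 2 * (eLpNorm u (ENNReal.ofReal p) (volume.restrict (ball (cen ε k) 1)) ^ (p - 2) *
                (holdC N p ^ 2 * cellK N * ∫⁻ x in cell ε (cen ε k), dens ε u g x)) := by
                gcongr
                exact h.lintegral_ball_le hp hp' hε hε' _
            _ = (2 * (holdC N p ^ 2 * cellK N) *
                eLpNorm u (ENNReal.ofReal p) (volume.restrict (ball (cen ε k) 1)) ^ (p - 2)) *
                ∫⁻ x in cell ε (cen ε k), dens ε u g x := by ring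
            _ ≤ 1 * ∫⁻ x in cell ε (cen ε k), dens ε u g x := by
                gcongr
                exact (hcon k).le
            _ = _ := one_mul _
      _ = ∫⁻ x in ⋃ k : Fin N → ℤ, cell ε (cen ε k), dens ε u g x := by
          rw [lintegral_iUnion (fun k => measurableSet_cell) (pairwise_disjoint_cell hε)]
      _ ≤ D := setLIntegral_le_lintegral _ _
  rw [two_mul] at h1
  have h2 : D + D ≤ D + 0 := by rwa [add_zero]
  have h3 := (ENNReal.add_le_add_iff_left hDtop).mp h2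
  exact hD0 (le_antisymm h3 bot_le)

end Pool.Agent.Lib.MP_bf093f_an
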