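import Pool.Agent.Lib.MP_bf093f_an.Chain

set_option autoImplicit false

/-! # The double integral form of the Poincaré inequality -/

namespace Pool.Agent.Lib.MP_bf093f_an

open MeasureTheory Filter Topology Metric
open scoped ContDiff ENNReal NNReal

variable {N : ℕ}

lemma lintegral_comp_aff {s : ℝ} (hs : s ≠ 0) (c : Sp N) {G : Sp N → ℝ≥0∞} (hG : Measurable G) :
    ∫⁻ x, G (s • x + c) = scK N s * ∫⁻ x, G x := by
  have h1 := lintegral_map (μ := (volume : Measure (Sp N))) hG (aff hs c).measurable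
  rw [map_aff hs c, lintegral_smul_measure, smul_eq_mul] at h1
  exact h1.symm

lemma scK_le {s : ℝ} (hs : 1 / 2 ≤ s) : scK N s ≤ ENNReal.ofReal (2 ^ N) := by
  rw [scK]
  apply ENNReal.ofReal_le_ofReal
  have hs0 : 0 < s := by linarith
  rw [abs_of_pos (by positivity), ← inv_pow]
  gcongr
  rw [inv_le_comm₀ hs0 (by norm_num)]
  linarith

/-- The measure on the ball of radius `R`. -/
noncomputable abbrev muB (N : ℕ) (R : ℝ) : Measure (Sp N) := volume.restrict (ball 0 R)

/-- The Poincaré constant. -/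
noncomputable def poinC (N : ℕ) (R : ℝ) : ℝ≥0∞ :=
  ENNReal.ofReal (2 * R) ^ 2 * (ENNReal.ofReal (2 ^ N) * volume (ball (0 : Sp N) R))

lemma poinC_ne_top {R : ℝ} : poinC N R ≠ ⊤ := by
  unfold poinC
  have : volume (ball (0 : Sp N) R) ≠ ⊤ := measure_ball_lt_top.ne
  finiteness

lemma lintegral_slice_le {G : Sp N → ℝ≥0∞} (hG : Measurable G) {R t : ℝ} (ht0 : 0 < t)
    (ht1 : t ≤ 1) :
    ∫⁻ x, ∫⁻ y, G (x + t • (y - x)) ∂(muB N R) ∂(muB N R) ≤
      (ENNReal.ofReal (2 ^ N) * volume (ball (0 : Sp N) R)) * ∫⁻ x, G x := by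
  have hmeas : Measurable fun z : Sp N × Sp N => G (z.1 + t • (z.2 - z.1)) :=
    hG.comp (by fun_prop)
  have hone : ∀ s : ℝ, 1 / 2 ≤ s → ∀ c : Sp N, ∫⁻ y, G (s • y + c) ∂(muB N R) ≤
      ENNReal.ofReal (2 ^ N) * ∫⁻ x, G x := by
    intro s hs c
    calc ∫⁻ y, G (s • y + c) ∂(muB N R) ≤ ∫⁻ y, G (s • y + c) :=
          lintegral_mono' Measure.restrict_le_self le_rfl
      _ = scK N s * ∫⁻ x, G x := lintegral_comp_aff (by linarith) c hG
      _ ≤ _ := by
          gcongr
          exact scK_le hs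
  have hfin : ∀ K : ℝ≥0∞, ∫⁻ _ : Sp N, K ∂(muB N R) = K * volume (ball (0 : Sp N) R) := by
    intro K
    rw [lintegral_const, Measure.restrict_apply_univ]
  rcases le_total (1 / 2) t with h | h
  · calc ∫⁻ x, ∫⁻ y, G (x + t • (y - x)) ∂(muB N R) ∂(muB N R)
        ≤ ∫⁻ _ : Sp N, (ENNReal.ofReal (2 ^ N) * ∫⁻ x, G x) ∂(muB N R) := by
          refine lintegral_mono fun x => ?_
          have e : ∀ y : Sp N, x + t • (y - x) = t • y + (x - t • x) := fun y => by module
          simp only [e]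
          exact hone t h _
      _ = _ := by
          rw [hfin]
          ring
  · rw [lintegral_lintegral_swap hmeas.aemeasurable]
    calc ∫⁻ y, ∫⁻ x, G (x + t • (y - x)) ∂(muB N R) ∂(muB N R)
        ≤ ∫⁻ _ : Sp N, (ENNReal.ofReal (2 ^ N) * ∫⁻ x, G x) ∂(muB N R) := by
          refine lintegral_mono fun y => ?_
          have e : ∀ x : Sp N, x + t • (y - x) = (1 - t) • x + t • y := fun x => by module
          simp only [e]
          exact hone (1 - t) (by linarith) _
      _ = _ := by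
          rw [hfin]
          ring

/-- The Poincaré inequality for test functions. -/
lemma IsTest.poincare {w : Sp N → ℝ} (hw : IsTest w) (R : ℝ) :
    ∫⁻ x, ∫⁻ y, ‖w y - w x‖ₑ ^ 2 ∂(muB N R) ∂(muB N R) ≤
      poinC N R * ∫⁻ x, ‖gradient w x‖ₑ ^ 2 ∂(muB N R) := by
  set B : Set (Sp N) := ball 0 R with hB
  set G : Sp N → ℝ≥0∞ := B.indicator fun x => ‖gradient w x‖ₑ ^ 2 with hG
  have hcg := hw.continuous_gradient
  have hGm : Measurable G := by
    have : Continuous fun x => ‖gradient w x‖ₑ ^ 2 := by fun_prop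
    exact this.measurable.indicator measurableSet_ball
  have hGi : ∫⁻ x, G x = ∫⁻ x, ‖gradient w x‖ₑ ^ 2 ∂(muB N R) := by
    rw [hG, lintegral_indicator measurableSet_ball]
  -- the pointwise bound
  have hpt : ∀ x ∈ B, ∀ y ∈ B, ‖w y - w x‖ₑ ^ 2 ≤ ENNReal.ofReal (2 * R) ^ 2 *
      ∫⁻ t in Set.Ioc (0 : ℝ) 1, G (x + t • (y - x)) := by
    intro x hx y hy
    have h1 := enorm_test_sub_sq_le hw x (y - x)
    rw [add_sub_cancel] at h1
    refine h1.trans ?_
    have h2 : ‖y - x‖ₑ ≤ ENNReal.ofReal (2 * R) := by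
      rw [← ofReal_norm]
      apply ENNReal.ofReal_le_ofReal
      rw [hB, mem_ball_zero_iff] at hx hy
      have := norm_sub_le y x
      linarith
    have h3 : ∫⁻ t in Set.Ioc (0 : ℝ) 1, ‖gradient w (x + t • (y - x))‖ₑ ^ 2 =
        ∫⁻ t in Set.Ioc (0 : ℝ) 1, G (x + t • (y - x)) := by
      apply setLIntegral_congr_fun measurableSet_Ioc
      intro t ht
      have hmem : x + t • (y - x) ∈ B :=
        (convex_ball (0 : Sp N) R).add_smul_sub_mem hx hy ⟨ht.1.le, ht.2⟩
      simp only [hG]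
      rw [Set.indicator_of_mem hmem]
    rw [h3]
    gcongr
  have hm3 : Measurable fun z : (Sp N × Sp N) × ℝ => G (z.1.1 + z.2 • (z.1.2 - z.1.1)) :=
    hGm.comp (by fun_prop)
  calc ∫⁻ x, ∫⁻ y, ‖w y - w x‖ₑ ^ 2 ∂(muB N R) ∂(muB N R)
      ≤ ∫⁻ x, ∫⁻ y, (ENNReal.ofReal (2 * R) ^ 2 *
          ∫⁻ t in Set.Ioc (0 : ℝ) 1, G (x + t • (y - x))) ∂(muB N R) ∂(muB N R) := by
        refine setLIntegral_mono' measurableSet_ball fun x hx => ?_
        exact setLIntegral_mono' measurableSet_ball fun y hy => hpt x hx y hy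
    _ = ENNReal.ofReal (2 * R) ^ 2 * ∫⁻ x, ∫⁻ y, (∫⁻ t in Set.Ioc (0 : ℝ) 1,
          G (x + t • (y - x))) ∂(muB N R) ∂(muB N R) := by
        have hne : ENNReal.ofReal (2 * R) ^ 2 ≠ ⊤ := by finiteness
        rw [← lintegral_const_mul' _ _ hne]
        congr 1
        funext x
        rw [lintegral_const_mul' _ _ hne]
    _ = ENNReal.ofReal (2 * R) ^ 2 * ∫⁻ t in Set.Ioc (0 : ℝ) 1, ∫⁻ x, ∫⁻ y,
          G (x + t • (y - x)) ∂(muB N R) ∂(muB N R) := by
        congr 1
        have e1 : ∀ x : Sp N, ∫⁻ y, (∫⁻ t in Set.Ioc (0 : ℝ) 1, G (x + t • (y - x))) ∂(muB N R) =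
            ∫⁻ t in Set.Ioc (0 : ℝ) 1, ∫⁻ y, G (x + t • (y - x)) ∂(muB N R) := by
          intro x
          rw [lintegral_lintegral_swap]
          have : Measurable fun z : Sp N × ℝ => G (x + z.2 • (z.1 - x)) :=
            hGm.comp (by fun_prop)
          exact this.aemeasurable
        simp only [e1]
        rw [lintegral_lintegral_swap]
        have h1 : Measurable fun z : (Sp N × ℝ) × Sp N => G (z.1.1 + z.1.2 • (z.2 - z.1.1)) :=
          hGm.comp (by fun_prop)
        exact (h1.lintegral_prod_right' (ν := muB N R)).aemeasurable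
    _ ≤ ENNReal.ofReal (2 * R) ^ 2 * ∫⁻ t in Set.Ioc (0 : ℝ) 1,
          (ENNReal.ofReal (2 ^ N) * volume B) * ∫⁻ x, G x := by
        gcongr _ * ?_
        refine setLIntegral_mono' measurableSet_Ioc fun t ht => ?_
        exact lintegral_slice_le hGm ht.1 ht.2
    _ = _ := by
        rw [setLIntegral_const, hGi, poinC]
        simp only [Real.volume_Ioc, sub_zero, ENNReal.ofReal_one, mul_one]
        ring

/-- Fatou's lemma for the double integral. -/
lemma fatou_double {R : ℝ} {u : ℕ → Sp N → ℝ} {u' : Sp N → ℝ}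
    (hm : ∀ n, AEStronglyMeasurable (u n) (muB N R))
    (hae : ∀ᵐ x ∂(muB N R), Tendsto (fun n => u n x) atTop (𝓝 (u' x)))
    {K : ℕ → ℝ≥0∞} {K' : ℝ≥0∞} (hK : Tendsto K atTop (𝓝 K'))
    (hb : ∀ n, ∫⁻ x, ∫⁻ y, ‖u n y - u n x‖ₑ ^ 2 ∂(muB N R) ∂(muB N R) ≤ K n) :
    ∫⁻ x, ∫⁻ y, ‖u' y - u' x‖ₑ ^ 2 ∂(muB N R) ∂(muB N R) ≤ K' := by
  have hpt : ∀ᵐ x ∂(muB N R), ∫⁻ y, ‖u' y - u' x‖ₑ ^ 2 ∂(muB N R) ≤
      liminf (fun n => ∫⁻ y, ‖u n y - u n x‖ₑ ^ 2 ∂(muB N R)) atTop := by
    filter_upwards [hae] with x hx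
    refine le_trans (lintegral_mono_ae ?_) (lintegral_liminf_le' fun n => ?_)
    · filter_upwards [hae] with y hy
      have h1 : Tendsto (fun n => ‖u n y - u n x‖ₑ ^ 2) atTop (𝓝 (‖u' y - u' x‖ₑ ^ 2)) :=
        ENNReal.Tendsto.pow (hy.sub hx).enorm
      exact h1.liminf_eq.ge
    · exact (((hm n).sub aestronglyMeasurable_const).enorm).pow_const 2
  calc ∫⁻ x, ∫⁻ y, ‖u' y - u' x‖ₑ ^ 2 ∂(muB N R) ∂(muB N R)
      ≤ ∫⁻ x, liminf (fun n => ∫⁻ y, ‖u n y - u n x‖ₑ ^ 2 ∂(muB N R)) atTop ∂(muB N R) :=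
        lintegral_mono_ae hpt
    _ ≤ liminf (fun n => ∫⁻ x, ∫⁻ y, ‖u n y - u n x‖ₑ ^ 2 ∂(muB N R) ∂(muB N R)) atTop := by
        apply lintegral_liminf_le'
        intro n
        have h1 : AEMeasurable (fun z : Sp N × Sp N => ‖u n z.2 - u n z.1‖ₑ ^ 2)
            ((muB N R).prod (muB N R)) :=
          ((hm n).comp_snd.sub (hm n).comp_fst).enorm.pow_const 2
        exact h1.lintegral_prod_right'
    _ ≤ liminf K atTop := liminf_le_liminf (Eventually.of_forall hb)
    _ = K' := hK.liminf_eq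

/-- The Poincaré inequality in `H¹`. -/
lemma IsH1.poincare {u : Sp N → ℝ} {g : Sp N → Sp N} (h : IsH1 u g) (R : ℝ) :
    ∫⁻ x, ∫⁻ y, ‖u y - u x‖ₑ ^ 2 ∂(muB N R) ∂(muB N R) ≤
      poinC N R * ∫⁻ x, ‖g x‖ₑ ^ 2 ∂(muB N R) := by
  obtain ⟨φ, hφ, h1, h2⟩ := h.2.2
  obtain ⟨σ, hσ, hae⟩ := exists_subseq_ae (r := 2) (by norm_num)
    (fun n => ((hφ n).memLp 2).1) h.1.1 h1
  apply fatou_double (fun n => ((hφ (σ n)).memLp 2).1.restrict) (ae_restrict_of_ae hae) ?_
    fun n => (hφ (σ n)).poincare R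
  apply ENNReal.Tendsto.const_mul _ (Or.inr poinC_ne_top)
  simp only [lintegral_sq_eq]
  have h3 : Tendsto (fun n => eLpNorm (gradient (φ n)) 2 (muB N R)) atTop
      (𝓝 (eLpNorm g 2 (muB N R))) :=
    tendsto_eLpNorm (by norm_num) (fun n => ((hφ n).memLp_gradient 2).restrict _)
      (h.2.1.restrict _) (tendsto_eLpNorm_restrict h2 _)
  exact ENNReal.Tendsto.pow (h3.comp hσ.tendsto_atTop)

/-- The chain rule in `H¹` for a function vanishing at zero. -/
lemma IsH1.comp0 {V : Sp N → ℝ} {W : Sp N → Sp N} (h : IsH1 V W) {f : ℝ → ℝ}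
    (hf : ContDiff ℝ ∞ f) (hf0 : f 0 = 0) {C' : ℝ} (hC' : ∀ t, |deriv f t| ≤ C') :
    IsH1 (fun x => f (V x)) (fun x => deriv f (V x) • W x) := by
  obtain ⟨φ, hφ, h1, h2⟩ := h.2.2
  obtain ⟨σ, hσ, hae⟩ := exists_subseq_ae (r := 2) (by norm_num)
    (fun n => ((hφ n).memLp 2).1) h.1.1 h1
  have hfd : Differentiable ℝ f := hf.differentiable (by simp)
  have hfc : Continuous f := hf.continuous
  have hfc' : Continuous (deriv f) := hf.continuous_deriv (by simp)
  have hC0' : 0 ≤ C' := (abs_nonneg _).trans (hC' 0)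
  have hlip : ∀ a b, |f a - f b| ≤ C' * |a - b| := by
    intro a b
    have := Convex.norm_image_sub_le_of_norm_deriv_le (f := f) (s := Set.univ) (x := b) (y := a)
      (C := C') (fun x _ => hfd x) (fun x _ => hC' x) convex_univ (Set.mem_univ _)
      (Set.mem_univ _)
    exact this
  have hVm := h.1.1
  have hWm := h.2.1.1
  have hfV : AEStronglyMeasurable (fun x => f (V x)) volume := hfc.comp_aestronglyMeasurable hVm
  have hfV' : AEStronglyMeasurable (fun x => deriv f (V x)) volume :=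
    hfc'.comp_aestronglyMeasurable hVm
  refine ⟨?_, ?_, fun n x => f (φ (σ n) x), fun n => ?_, ?_, ?_⟩
  · refine (h.1.const_mul C').of_le hfV (Eventually.of_forall fun x => ?_)
    rw [norm_mul, Real.norm_of_nonneg hC0']
    have := hlip (V x) 0
    rwa [hf0, sub_zero, sub_zero] at this
  · refine (h.2.1.const_smul C').of_le (hfV'.smul hWm) (Eventually.of_forall fun x => ?_)
    rw [norm_smul, Pi.smul_apply, norm_smul, Real.norm_of_nonneg hC0']
    exact mul_le_mul_of_nonneg_right (hC' _) (norm_nonneg _)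
  · exact ⟨hf.comp (hφ _).1, (hφ _).2.comp_left hf0⟩
  · have h3 : Tendsto (fun n => ‖C'‖ₑ * eLpNorm (fun x => φ (σ n) x - V x) 2 volume) atTop
        (𝓝 0) := by
      have := ENNReal.Tendsto.const_mul (a := ‖C'‖ₑ) (h1.comp hσ.tendsto_atTop)
        (Or.inr enorm_ne_top)
      rwa [mul_zero] at this
    refine tendsto_of_tendsto_of_tendsto_of_le_of_le tendsto_const_nhds h3 (fun _ => bot_le)
      fun n => ?_
    simp only
    rw [← eLpNorm_const_smul]
    apply eLpNorm_mono
    intro x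
    rw [Pi.smul_apply, norm_smul, Real.norm_of_nonneg hC0']
    exact hlip _ _
  · have mφ : ∀ n, AEStronglyMeasurable (φ (σ n)) volume := fun n => ((hφ _).memLp 2).1
    have e1 : ∀ n, (fun x => gradient (fun x => f (φ (σ n) x)) x - deriv f (V x) • W x) =
        (fun x => deriv f (φ (σ n) x) • (gradient (φ (σ n)) x - W x)) +
        (fun x => (deriv f (φ (σ n) x) - deriv f (V x)) • W x) := by
      intro n
      funext x
      rw [gradient_comp' hfd (hφ _).differentiable]
      simp only [Pi.add_apply]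
      module
    have m2 : ∀ n, AEStronglyMeasurable (fun x => deriv f (φ (σ n) x) •
        (gradient (φ (σ n)) x - W x)) volume := fun n =>
      (hfc'.comp_aestronglyMeasurable (mφ n)).smul (((hφ _).memLp_gradient 2).1.sub hWm)
    have m3 : ∀ n, AEStronglyMeasurable (fun x => (deriv f (φ (σ n) x) - deriv f (V x)) •
        W x) volume := fun n => ((hfc'.comp_aestronglyMeasurable (mφ n)).sub hfV').smul hWm
    have t2 : Tendsto (fun n => eLpNorm (fun x => deriv f (φ (σ n) x) •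
        (gradient (φ (σ n)) x - W x)) 2 volume) atTop (𝓝 0) := by
      have h3 : Tendsto (fun n => ‖C'‖ₑ *
          eLpNorm (fun x => gradient (φ (σ n)) x - W x) 2 volume) atTop (𝓝 0) := by
        have := ENNReal.Tendsto.const_mul (a := ‖C'‖ₑ) (h2.comp hσ.tendsto_atTop)
          (Or.inr enorm_ne_top)
        rwa [mul_zero] at this
      refine tendsto_of_tendsto_of_tendsto_of_le_of_le tendsto_const_nhds h3 (fun _ => bot_le)
        fun n => ?_
      simp only
      rw [← eLpNorm_const_smul]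
      apply eLpNorm_mono
      intro x
      rw [norm_smul, Pi.smul_apply, norm_smul, Real.norm_of_nonneg hC0']
      exact mul_le_mul_of_nonneg_right (hC' _) (norm_nonneg _)
    have t3 : Tendsto (fun n => eLpNorm (fun x => (deriv f (φ (σ n) x) - deriv f (V x)) •
        W x) 2 volume) atTop (𝓝 0) := by
      have h3 : Tendsto (fun n => ∫⁻ x, ‖(deriv f (φ (σ n) x) - deriv f (V x)) • W x‖ₑ ^ 2)
          atTop (𝓝 (∫⁻ _ : Sp N, 0)) := by
        refine tendsto_lintegral_of_dominated_convergence' (fun x => ‖(2 * C') • W x‖ₑ ^ 2)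
          (fun n => (m3 n).enorm.pow_const 2) (fun n => Eventually.of_forall fun x => ?_) ?_ ?_
        · dsimp only
          gcongr
          rw [enorm_le_iff_norm_le, norm_smul, norm_smul,
            Real.norm_of_nonneg (by positivity : 0 ≤ 2 * C')]
          gcongr
          refine (norm_sub_le _ _).trans ?_
          have a1 := hC' (φ (σ n) x)
          have a2 := hC' (V x)
          rw [Real.norm_eq_abs, Real.norm_eq_abs]
          linarith
        · rw [lintegral_sq_eq]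
          have := (h.2.1.const_smul (2 * C')).eLpNorm_ne_top
          exact ENNReal.pow_ne_top this
        · filter_upwards [hae] with x hx
          have h4 : Tendsto (fun n => (deriv f (φ (σ n) x) - deriv f (V x)) • W x) atTop
              (𝓝 ((deriv f (V x) - deriv f (V x)) • W x)) :=
            (((hfc'.tendsto _).comp hx).sub_const _).smul_const _
          rw [sub_self, zero_smul] at h4
          have h5 := ENNReal.Tendsto.pow (n := 2) h4.enorm
          simpa using h5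
      simp only [lintegral_zero, lintegral_sq_eq] at h3
      have h4 := h3.ennrpow_const (1 / 2)
      rw [ENNReal.zero_rpow_of_pos (by norm_num)] at h4
      refine h4.congr fun n => ?_
      rw [← ENNReal.rpow_natCast, ← ENNReal.rpow_mul]
      simp
    have t4 := t2.add t3
    rw [add_zero] at t4
    refine tendsto_of_tendsto_of_tendsto_of_le_of_le tendsto_const_nhds t4 (fun _ => bot_le)
      fun n => ?_
    simp only
    rw [e1]
    exact eLpNorm_add_le (m2 n) (m3 n) (by norm_num)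

end Pool.Agent.Lib.MP_bf093f_an
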