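import Pool.Agent.Lib.MP_bf093f_an.LogEst

set_option autoImplicit false

/-! # Positivity of the weak limit -/

namespace Pool.Agent.Lib.MP_bf093f_an

open MeasureTheory Filter Topology Metric
open scoped ContDiff ENNReal NNReal

variable {N : ℕ}

/-- A set which is null in all balls is null. -/
lemma null_of_balls {Z : Set (Sp N)} (h : ∀ m : ℕ, muB N m Z = 0) : volume Z = 0 := by
  have h1 : ∀ m : ℕ, ∀ᵐ x ∂(muB N m), x ∉ Z := fun m => by
    rw [ae_iff]
    simpa using h m
  have h2 : ∀ᵐ x ∂(volume.restrict (⋃ m : ℕ, ball (0 : Sp N) m)), x ∉ Z :=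
    (ae_restrict_iUnion_iff _ _).mpr h1
  rw [iUnion_ball_nat, Measure.restrict_univ, ae_iff] at h2
  simpa using h2

lemma muB_mono {Z : Set (Sp N)} {R R' : ℝ} (h : R ≤ R') : muB N R Z ≤ muB N R' Z :=
  Measure.restrict_mono_set _ (ball_subset_ball h) Z

variable [hN : Fact (3 ≤ N)]

/-- The uniform bound on the double integral. -/
lemma LimitData.double_bound {p : ℝ} (hp : 2 < p) (hp' : p < twoStar N) {ε : ℕ → ℝ}
    {V : ℕ → Sp N → ℝ} {W : ℕ → Sp N → Sp N} {v : Sp N → ℝ} {g : Sp N → Sp N}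
    (h : LimitData p ε V W v g) (hε1 : ∀ n, ε n ≤ 1) (hpos : ∀ n, ∀ᵐ x, 0 ≤ V n x)
    {v' : Sp N → ℝ} (hvv' : v =ᵐ[volume] v') {R : ℝ} (hR : 0 < R) :
    ∃ C : ℝ≥0∞, C ≠ ⊤ ∧ ∀ τ : ℝ, 0 < τ →
      ∫⁻ x, ∫⁻ y, ‖LL τ (v' y) - LL τ (v' x)‖ₑ ^ 2 ∂(muB N R) ∂(muB N R) ≤ C := by
  have hp0 : 0 < p := by linarith
  set δ : ℝ := 1 / (4 * R) with hδ
  have hδ0 : 0 < δ := by positivity
  have hRδ : 1 / (4 * δ) = R := by
    rw [hδ]
    field_simp
  -- the weight
  have hχ := isTest_cut hδ0 (0 : Sp N)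
  set R' := 1 / (3 * δ) + 1 with hR'
  have hVp : ∀ n, MemLp (V n) (ENNReal.ofReal p) (volume.restrict (ball 0 R')) := fun n =>
    ((h.les n).1.1.memLp_p hp hp').restrict _
  have hvp : MemLp v (ENNReal.ofReal p) (volume.restrict (ball 0 R')) := h.hv.memLp_ball hp' _
  have hconv := tendsto_integral_weight (b := fun x => cut δ 0 x ^ 2) (by linarith : (1 : ℝ) ≤ p)
    (hχ.continuous.pow 2).measurable (fun x => sq_nonneg _)
    (fun x => pow_le_one₀ cut_nonneg cut_le_one) (R := R') (fun x hx => by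
      have hx' : x ∉ cell δ (0 : Sp N) := by
        intro h3
        apply hx
        rw [cell, mem_closedBall] at h3
        rw [mem_ball]
        linarith
      rw [cut_eq_zero hδ0 hx']
      ring) hVp hvp (h.strongp _)
  obtain ⟨K0, hK0⟩ := hconv.bddAbove_range
  have hK0' : ∀ n, ∫ x, cut δ 0 x ^ 2 * |V n x| ^ p ≤ K0 := fun n => hK0 ⟨n, rfl⟩
  set K := 16 * (∫ x : Sp N, ‖gradient (cut δ 0) x‖ ^ 2) + 8 * (∫ x : Sp N, cut δ 0 x ^ 2) +
    4 * K0 with hK
  refine ⟨poinC N R * ENNReal.ofReal K, ENNReal.mul_ne_top poinC_ne_top ENNReal.ofReal_ne_top,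
    fun τ hτ => ?_⟩
  -- the bound for each `n`
  have hb : ∀ n, ∫⁻ x, ∫⁻ y, ‖LL τ (V n y) - LL τ (V n x)‖ₑ ^ 2 ∂(muB N R) ∂(muB N R) ≤
      poinC N R * ENNReal.ofReal K := by
    intro n
    have hL := h.les n
    have hsq : ε n ^ 2 ≤ 1 := by
      have := (h.eps_pos n).le
      have := hε1 n
      nlinarith
    obtain ⟨hi, hle⟩ := log_est hp hp' (sq_nonneg (ε n)) hsq hL.1.1 hL.2.1
      (measurable_Qt (h.eps_pos n)) (abs_Qt_le (h.eps_pos n)) (hpos n) hδ0 hτ
    have hcomp := hL.1.1.comp0 (contDiff_LL hτ) LL_zero (abs_deriv_LL_le hτ)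
    refine (hcomp.poincare R).trans ?_
    gcongr
    calc ∫⁻ x, ‖deriv (LL τ) (V n x) • W n x‖ₑ ^ 2 ∂(muB N R)
        ≤ ∫⁻ x, ENNReal.ofReal ((cut δ 0 x * FF τ (V n x)) ^ 2 * ‖W n x‖ ^ 2) ∂(muB N R) := by
          refine setLIntegral_mono' measurableSet_ball fun x hx => ?_
          have h1 : cut δ 0 x = 1 := cut_zero_eq_one hδ0 (by rwa [hRδ])
          rw [h1, one_mul, ← ofReal_norm, ← ENNReal.ofReal_pow (norm_nonneg _), norm_smul, mul_pow]
          apply ENNReal.ofReal_le_ofReal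
          gcongr
          exact abs_deriv_LL_le_FF hτ _
      _ ≤ ∫⁻ x, ENNReal.ofReal ((cut δ 0 x * FF τ (V n x)) ^ 2 * ‖W n x‖ ^ 2) :=
          lintegral_mono' Measure.restrict_le_self le_rfl
      _ = ENNReal.ofReal (∫ x, (cut δ 0 x * FF τ (V n x)) ^ 2 * ‖W n x‖ ^ 2) := by
          rw [ofReal_integral_eq_lintegral_ofReal hi]
          exact Eventually.of_forall fun x => by positivity
      _ ≤ ENNReal.ofReal K := by
          apply ENNReal.ofReal_le_ofReal
          have := hK0' n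
          linarith
  obtain ⟨σ, hσ, hae⟩ := exists_subseq_ae (r := 2) (μ := muB N R) (by norm_num)
    (fun n => (h.les n).1.1.1.1.restrict) h.hv.1.1.restrict (h.strong2 R)
  have hcont : Continuous (LL τ) := (contDiff_LL hτ).continuous
  apply fatou_double (u := fun n x => LL τ (V (σ n) x))
    (fun n => hcont.comp_aestronglyMeasurable (h.les _).1.1.1.1.restrict) ?_
    (tendsto_const_nhds) (fun n => hb _)
  filter_upwards [hae, ae_restrict_of_ae hvv'] with x hx hx'
  rw [← hx']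
  exact (hcont.tendsto _).comp hx

/-- Positivity of the limit. -/
lemma LimitData.pos {p : ℝ} (hp : 2 < p) (hp' : p < twoStar N) {ε : ℕ → ℝ}
    {V : ℕ → Sp N → ℝ} {W : ℕ → Sp N → Sp N} {v : Sp N → ℝ} {g : Sp N → Sp N}
    (h : LimitData p ε V W v g) (hε1 : ∀ n, ε n ≤ 1) (hpos : ∀ n, ∀ᵐ x, 0 ≤ V n x)
    (hv : ¬ v =ᵐ[volume] 0) : ∀ᵐ x, 0 < v x := by
  have hv0 : ∀ᵐ x, 0 ≤ v x := nonneg_of_local (fun n => (h.les n).1.1.1.1) h.hv.1.1 hpos h.strong2
  set v' : Sp N → ℝ := h.hv.1.1.mk v with hv'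
  have hvv' : v =ᵐ[volume] v' := h.hv.1.1.ae_eq_mk
  have hm : Measurable v' := h.hv.1.1.stronglyMeasurable_mk.measurable
  set Z : Set (Sp N) := {x | v' x = 0} with hZ
  have hZm : MeasurableSet Z := hm (measurableSet_singleton 0)
  have hPm : ∀ c : ℝ, MeasurableSet {x | c ≤ v' x} := fun c => hm measurableSet_Ici
  have claim : ∀ R : ℝ, 0 < R → ∀ c : ℝ, 0 < c → muB N R Z = 0 ∨ muB N R {x | c ≤ v' x} = 0 := by
    intro R hR c hc
    obtain ⟨C, hCtop, hC⟩ := h.double_bound hp hp' hε1 hpos hvv' hR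
    set P : Set (Sp N) := {x | c ≤ v' x} with hP
    have h1 : ∀ k : ℕ, ((k : ℝ≥0∞)) ^ 2 * (muB N R Z * muB N R P) ≤ C := by
      intro k
      set τ : ℝ := c / (2 * Real.exp k) with hτ
      have hτ0 : 0 < τ := by positivity
      refine le_trans ?_ (hC τ hτ0)
      calc ((k : ℝ≥0∞)) ^ 2 * (muB N R Z * muB N R P)
          = ∫⁻ x, Z.indicator (fun _ => ∫⁻ y, P.indicator (fun _ => (k : ℝ≥0∞) ^ 2) y
              ∂(muB N R)) x ∂(muB N R) := by
            rw [lintegral_indicator_const hZm, lintegral_indicator_const (hPm c)]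
            ring
        _ ≤ _ := by
            refine lintegral_mono fun x => ?_
            by_cases hx : x ∈ Z
            · rw [Set.indicator_of_mem hx]
              refine lintegral_mono fun y => ?_
              by_cases hy : y ∈ P
              · rw [Set.indicator_of_mem hy]
                have hx0 : v' x = 0 := hx
                have hy0 : c ≤ v' y := hy
                rw [hx0, LL_zero, sub_zero]
                gcongr
                have h2 := le_LL hτ0 (hc.trans_le hy0)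
                have h3 : (k : ℝ) ≤ Real.log (v' y / (2 * τ)) := by
                  rw [Real.le_log_iff_exp_le (div_pos (hc.trans_le hy0) (by positivity)),
                    le_div_iff₀ (by positivity)]
                  have h4 : Real.exp k * (2 * τ) = c := by
                    rw [hτ]
                    field_simp
                  rw [h4]
                  exact hy0
                have h5 : (k : ℝ) ≤ LL τ (v' y) := h3.trans h2
                rw [← ofReal_norm, Real.norm_eq_abs, ← ENNReal.ofReal_natCast]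
                exact ENNReal.ofReal_le_ofReal (h5.trans (le_abs_self _))
              · rw [Set.indicator_of_notMem hy]
                exact bot_le
            · rw [Set.indicator_of_notMem hx]
              exact bot_le
    have h2 : muB N R Z * muB N R P = 0 := by
      by_contra hne
      obtain ⟨n, hn⟩ := ENNReal.exists_nat_mul_gt hne hCtop
      have h3 := h1 (n + 1)
      have h4 : (n : ℝ≥0∞) ≤ ((n + 1 : ℕ) : ℝ≥0∞) ^ 2 := by
        have : n ≤ (n + 1) ^ 2 := by nlinarith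
        exact_mod_cast this
      have h5 : (n : ℝ≥0∞) * (muB N R Z * muB N R P) ≤ C :=
        le_trans (mul_le_mul' h4 le_rfl) h3
      exact absurd hn (not_lt.mpr h5)
    exact mul_eq_zero.mp h2
  by_cases hall : ∀ m : ℕ, muB N m Z = 0
  · have h1 := null_of_balls hall
    have h2 : ∀ᵐ x, v' x ≠ 0 := by
      rw [ae_iff]
      simpa using h1
    filter_upwards [hv0, hvv', h2] with x a1 a2 a3
    rw [← a2] at a3
    exact lt_of_le_of_ne a1 (Ne.symm a3)
  · exfalso
    push Not at hall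
    obtain ⟨m0, hm0⟩ := hall
    have hP0 : ∀ j : ℕ, volume {x | 1 / ((j : ℝ) + 1) ≤ v' x} = 0 := by
      intro j
      apply null_of_balls
      intro m
      have hc : 0 < 1 / ((j : ℝ) + 1) := by positivity
      have hR : (0 : ℝ) < (m : ℝ) + m0 + 1 := by positivity
      rcases claim _ hR _ hc with h1 | h1
      · exfalso
        apply hm0
        refine le_antisymm (le_trans (muB_mono ?_) h1.le) bot_le
        have : (0 : ℝ) ≤ m := Nat.cast_nonneg m
        linarith
      · refine le_antisymm (le_trans (muB_mono ?_) h1.le) bot_le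
        have : (0 : ℝ) ≤ m0 := Nat.cast_nonneg m0
        linarith
    apply hv
    have h1 : ∀ᵐ x, ∀ j : ℕ, ¬ (1 / ((j : ℝ) + 1) ≤ v' x) := by
      rw [ae_all_iff]
      intro j
      rw [ae_iff]
      simpa using hP0 j
    filter_upwards [hv0, hvv', h1] with x a1 a2 a3
    rw [Pi.zero_apply]
    apply le_antisymm _ a1
    by_contra hcon
    rw [not_le] at hcon
    obtain ⟨j, hj⟩ := exists_nat_one_div_lt hcon
    apply a3 j
    rw [← a2]
    exact hj.le

/-- The nonvanishing theorem, with positivity. -/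
theorem nonvanishing_pos {p : ℝ} (hp : 2 < p) (hp' : p < twoStar N) {ε : ℕ → ℝ}
    (hε : ∀ n, 0 < ε n) (hε1 : ∀ n, ε n ≤ 1) (hlim : Tendsto ε atTop (𝓝 0))
    {u : ℕ → Sp N → ℝ}
    (hu : ∀ n, IsLeastEnergySol 1 (coreSign (ε n)) p (u n)) (hpos : ∀ n, ∀ᵐ x, 0 < u n x) :
    ∃ (k : ℕ → Fin N → ℤ) (σ : ℕ → ℕ) (v : Sp N → ℝ), StrictMono σ ∧
      WeakConv (fun n => rescale p (ε (σ n)) (k (σ n)) (u (σ n))) v ∧ ∀ᵐ x, 0 < v x := by
  obtain ⟨k, σ, v, hσ, hw, -, hne⟩ := nonvanishing hp hp' hε hlim hu hpos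
  refine ⟨k, σ, v, hσ, hw, ?_⟩
  choose g hg using hu
  have hL : ∀ n, IsLES (ε (σ n) ^ 2) (Qt N (ε (σ n))) p (rescale p (ε (σ n)) (k (σ n)) (u (σ n)))
      (rescaleG p (ε (σ n)) (k (σ n)) (g (σ n))) := fun n =>
    IsLES.rescale hp (hε _) (hg _) _
  obtain ⟨g', hdata⟩ := limitData_of_weakConv hp hp' (ε := fun n => ε (σ n)) (fun n => hε _)
    (fun n => hε1 _) (hlim.comp hσ.tendsto_atTop) hL hw
  refine hdata.pos hp hp' (fun n => hε1 _) (fun n => ?_) hne
  have h1 : ∀ᵐ x, 0 < u (σ n) (ε (σ n) • x + lat (k (σ n))) :=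
    ae_comp_aff (hε _).ne' _ (hpos _)
  filter_upwards [h1] with x hx
  rw [rescale]
  have := lam_pos (p := p) (hε (σ n))
  exact (mul_pos this hx).le

end Pool.Agent.Lib.MP_bf093f_an
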