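import Pool.Agent.Lib.MP_bf093f_an.Weak

set_option autoImplicit false

/-! # Nonvanishing of the weak limit -/

namespace Pool.Agent.Lib.MP_bf093f_an

open MeasureTheory Filter Topology Metric
open scoped ContDiff ENNReal NNReal

variable {N : ℕ}

/-! ## Inner products of gradients -/

lemma inner_grad_left (G : gradSpace N) {w : Sp N → ℝ} {h : Sp N → Sp N} (hw : IsD12 w h) :
    inner ℝ G hw.grad = ∫ x, inner ℝ ((G.1 : Sp N → Sp N) x) (h x) := by
  have h1 : inner ℝ G hw.grad = inner ℝ G.1 (hw.2.1.toLp h) := rfl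
  rw [h1, L2.inner_def]
  apply integral_congr_ae
  filter_upwards [hw.2.1.coeFn_toLp] with x hx
  rw [hx]

lemma inner_grad {u w : Sp N → ℝ} {g h : Sp N → Sp N} (hu : IsD12 u g) (hw : IsD12 w h) :
    inner ℝ hu.grad hw.grad = ∫ x, inner ℝ (g x) (h x) := by
  rw [inner_grad_left]
  apply integral_congr_ae
  filter_upwards [hu.2.1.coeFn_toLp] with x hx
  change inner ℝ ((hu.2.1.toLp g : Sp N → Sp N) x) (h x) = _
  rw [hx]

lemma IsD12.norm_grad {u : Sp N → ℝ} {g : Sp N → Sp N} (h : IsD12 u g) :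
    ‖h.grad‖ = (eLpNorm g 2 volume).toReal := Lp.norm_toLp _ h.2.1

lemma IsH1.eLpNorm_grad_le {u : Sp N → ℝ} {g : Sp N → Sp N} (h : IsH1 u g) {ε C : ℝ}
    (hε : 0 ≤ ε) (hC : quadForm (ε ^ 2) u g ≤ C) : eLpNorm g 2 volume ≤ ENNReal.ofReal √C := by
  have h1 : eLpNorm g 2 volume ^ 2 ≤ ENNReal.ofReal √C ^ 2 := by
    have h0 : 0 ≤ C := (quadForm_nonneg (sq_nonneg ε) u g).trans hC
    rw [eLpNorm_two_sq, ← ENNReal.ofReal_pow (Real.sqrt_nonneg _), Real.sq_sqrt h0]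
    calc ∫⁻ x, ‖g x‖ₑ ^ 2 ≤ ∫⁻ x, dens ε u g x := lintegral_mono fun x => le_self_add
      _ = ENNReal.ofReal (quadForm (ε ^ 2) u g) := lintegral_dens hε h
      _ ≤ _ := ENNReal.ofReal_le_ofReal hC
  exact (ENNReal.pow_le_pow_left_iff (by norm_num)).mp h1

lemma norm_grad_le {u : Sp N → ℝ} {g : Sp N → Sp N} (h : IsH1 u g) (h' : IsD12 u g) {ε C : ℝ}
    (hε : 0 ≤ ε) (hC : quadForm (ε ^ 2) u g ≤ C) : ‖h'.grad‖ ≤ √C := by
  rw [h'.norm_grad]
  exact ENNReal.toReal_le_of_le_ofReal (Real.sqrt_nonneg _) (h.eLpNorm_grad_le hε hC)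

/-! ## Translations -/

lemma rescale_eq {p ε : ℝ} (hε : 0 < ε) (k : Fin N → ℤ) (u : Sp N → ℝ) (x : Sp N) :
    rescale p ε k u x = rescale p ε 0 u (x + cen ε k) := by
  rw [rescale, rescale, cen, smul_add, smul_smul, mul_inv_cancel₀ hε.ne', one_smul, lat_zero,
    add_zero]

lemma eLpNorm_translate_ball {r : ℝ≥0∞} {f : Sp N → ℝ} (hf : AEStronglyMeasurable f volume)
    (c : Sp N) (R : ℝ) :
    eLpNorm (fun x => f (x + c)) r (volume.restrict (ball 0 R)) =
      eLpNorm f r (volume.restrict (ball c R)) := by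
  have h1 : MeasurePreserving (fun x : Sp N => x + c) volume volume :=
    measurePreserving_add_right volume c
  have h2 : MeasurePreserving (fun x : Sp N => x + c) (volume.restrict (ball 0 R))
      (volume.restrict (ball c R)) := by
    have h3 := h1.restrict_preimage (s := ball c R) measurableSet_ball
    have h4 : (fun x : Sp N => x + c) ⁻¹' ball c R = ball 0 R := by
      ext x
      simp [mem_ball, dist_eq_norm]
    rwa [h4] at h3
  exact eLpNorm_comp_measurePreserving hf.restrict h2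

lemma fact_two_ne_top : Fact ((2 : ℝ≥0∞) ≠ ⊤) := ⟨by norm_num⟩

/-- `gradSpace` is separable. -/
lemma secondCountable_gradSpace (N : ℕ) : SecondCountableTopology (gradSpace N) := by
  have h2 := fact_two_ne_top
  have h1 : SecondCountableTopology (Lp (Sp N) 2 (volume : Measure (Sp N))) :=
    Lp.SecondCountableTopology
  exact TopologicalSpace.Subtype.secondCountableTopology _

/-- Nonvanishing of local limits. -/
lemma not_ae_zero_of_core {p : ℝ} (hp : 2 < p) {f : ℕ → Sp N → ℝ} {v : Sp N → ℝ} {K : ℝ≥0∞}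
    (hK : K ≠ ⊤)
    (h1 : ∀ n, 1 ≤ K * eLpNorm (f n) (ENNReal.ofReal p) (volume.restrict (ball 0 1)) ^ (p - 2))
    (h2 : Tendsto (fun n => eLpNorm (fun x => f n x - v x) (ENNReal.ofReal p)
      (volume.restrict (ball 0 1))) atTop (𝓝 0)) : ¬ v =ᵐ[volume] 0 := by
  intro hv
  have h3 : Tendsto (fun n => eLpNorm (f n) (ENNReal.ofReal p)
      (volume.restrict (ball 0 1))) atTop (𝓝 0) := by
    refine h2.congr fun n => ?_
    apply eLpNorm_congr_ae
    filter_upwards [ae_restrict_of_ae hv] with x hx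
    rw [hx, Pi.zero_apply, sub_zero]
  have h4 := h3.ennrpow_const (p - 2)
  rw [ENNReal.zero_rpow_of_pos (by linarith)] at h4
  have h5 := ENNReal.Tendsto.const_mul (a := K) h4 (Or.inr hK)
  rw [mul_zero] at h5
  have h6 : (1 : ℝ≥0∞) ≤ 0 := ge_of_tendsto' h5 h1
  simp at h6

variable [hN : Fact (3 ≤ N)]

/-- The data extracted from a sequence of least energy solutions. -/
lemma exists_limit {p : ℝ} (hp : 2 < p) (hp' : p < twoStar N) {ε : ℕ → ℝ}
    (hε : ∀ n, 0 < ε n) (hlim : Tendsto ε atTop (𝓝 0)) {u : ℕ → Sp N → ℝ}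
    {g : ℕ → Sp N → Sp N} (hu : ∀ n, IsLES 1 (coreSign (ε n)) p (u n) (g n)) :
    ∃ (k : ℕ → Fin N → ℤ) (σ : ℕ → ℕ) (C : ℝ) (D : ℕ → gradSpace N) (G : gradSpace N),
      StrictMono σ ∧ (∀ n, ‖D n‖ ≤ C) ∧
      (∀ n, IsD12 (rescale p (ε (σ n)) (k (σ n)) (u (σ n)))
        (rescaleG p (ε (σ n)) (k (σ n)) (g (σ n)))) ∧
      (∀ n, (sobS N (D n) : Sp N → ℝ) =ᵐ[volume] rescale p (ε (σ n)) (k (σ n)) (u (σ n))) ∧
      (∀ n, ((D n).1 : Sp N → Sp N) =ᵐ[volume] rescaleG p (ε (σ n)) (k (σ n)) (g (σ n))) ∧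
      (∀ H : gradSpace N, Tendsto (fun n => inner ℝ (D n) H) atTop (𝓝 (inner ℝ G H))) ∧
      ¬ (sobS N G : Sp N → ℝ) =ᵐ[volume] 0 := by
  classical
  obtain ⟨C, hC⟩ := exists_uniform_bound N hp
  obtain ⟨n0, hn0⟩ : ∃ n0, ∀ n, n0 ≤ n → ε n ≤ 1 / 4 := by
    have := hlim.eventually (eventually_le_nhds (show (0 : ℝ) < 1 / 4 by norm_num))
    exact eventually_atTop.mp this
  -- choice of the lattice points
  have hL0 : ∀ n, IsLES (ε n ^ 2) (Qt N (ε n)) p (rescale p (ε n) 0 (u n))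
      (rescaleG p (ε n) 0 (g n)) := fun n => (hu n).rescale hp (hε n) 0
  have hcore : ∀ n, ∃ k : Fin N → ℤ, ε n ≤ 1 / 4 → 1 ≤ 2 * (holdC N p ^ 2 * cellK N) *
      eLpNorm (rescale p (ε n) 0 (u n)) (ENNReal.ofReal p)
        (volume.restrict (ball (cen (ε n) k) 1)) ^ (p - 2) := by
    intro n
    by_cases h : ε n ≤ 1 / 4
    · obtain ⟨k, hk⟩ := exists_core hp hp' (hε n) h (hL0 n).1.1 (hL0 n).1.2.1 (hL0 n).1.2.2
      exact ⟨k, fun _ => hk⟩
    · exact ⟨0, fun h' => absurd h' h⟩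
  choose k hk using hcore
  have hL : ∀ n, IsLES (ε n ^ 2) (Qt N (ε n)) p (rescale p (ε n) (k n) (u n))
      (rescaleG p (ε n) (k n) (g n)) := fun n => (hu n).rescale hp (hε n) (k n)
  have hD12 : ∀ n, IsD12 (rescale p (ε n) (k n) (u n)) (rescaleG p (ε n) (k n) (g n)) :=
    fun n => (hL n).1.1.isD12
  have hbd : ∀ n, ‖(hD12 (n + n0)).grad‖ ≤ √C := by
    intro n
    have h1 : ε (n + n0) ≤ 1 / 4 := hn0 _ (by omega)
    exact norm_grad_le (hL _).1.1 _ (hε _).le (hC _ (hε _) (by linarith) _ _ (hL _))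
  have hsc := secondCountable_gradSpace N
  obtain ⟨τ, G, hτ, hG⟩ := exists_weak_limit hbd
  refine ⟨k, fun n => τ n + n0, √C, fun n => (hD12 (τ n + n0)).grad, G, ?_, ?_, ?_, ?_, ?_, hG, ?_⟩
  · intro a b hab
    have := hτ hab
    dsimp only
    omega
  · exact fun n => hbd _
  · exact fun n => hD12 _
  · intro n
    rw [(hD12 _).sobS_grad]
    exact (hD12 _).1.coeFn_toLp
  · intro n
    exact (hD12 _).2.1.coeFn_toLp
  · have hK : 2 * (holdC N p ^ 2 * cellK N) ≠ ⊤ := by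
      have h1 := holdC_ne_top (N := N) (by linarith : 0 < p) hp'
      have h2 := cellK_ne_top (N := N)
      finiteness
    apply not_ae_zero_of_core hp hK (f := fun n => rescale p (ε (τ n + n0)) (k (τ n + n0))
      (u (τ n + n0)))
    · intro n
      have h1 := hk (τ n + n0) (hn0 _ (by omega))
      rw [← eLpNorm_translate_ball (hL0 _).1.1.1.1] at h1
      refine h1.trans (le_of_eq ?_)
      congr 3
      funext x
      exact (rescale_eq (hε _) _ _ _).symm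
    · refine (tendsto_local_p hp hp' (fun n => hbd _) hG 1).congr fun n => ?_
      apply eLpNorm_congr_ae
      have h1 : (sobS N (hD12 (τ n + n0)).grad : Sp N → ℝ) =ᵐ[volume]
          rescale p (ε (τ n + n0)) (k (τ n + n0)) (u (τ n + n0)) := by
        rw [(hD12 _).sobS_grad]
        exact (hD12 _).1.coeFn_toLp
      filter_upwards [ae_restrict_of_ae h1] with x hx
      rw [hx]

/-- The weak convergence statement. -/
lemma weakConv_of {V : ℕ → Sp N → ℝ} {W : ℕ → Sp N → Sp N} (hV : ∀ n, IsD12 (V n) (W n))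
    {D : ℕ → gradSpace N} (hD : ∀ n, ((D n).1 : Sp N → Sp N) =ᵐ[volume] W n) {G : gradSpace N}
    (hw : ∀ H : gradSpace N, Tendsto (fun n => inner ℝ (D n) H) atTop (𝓝 (inner ℝ G H))) :
    WeakConv V (sobS N G) := by
  refine ⟨W, (G.1 : Sp N → Sp N), hV, isD12_of_gradSpace G, fun w h hwh => ?_⟩
  have h1 := hw hwh.grad
  rw [inner_grad_left] at h1
  refine h1.congr fun n => ?_
  rw [inner_grad_left]
  apply integral_congr_ae
  filter_upwards [hD n] with x hx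
  rw [hx]

theorem nonvanishing {p : ℝ} (hp : 2 < p) (hp' : p < twoStar N) {ε : ℕ → ℝ}
    (hε : ∀ n, 0 < ε n) (hlim : Tendsto ε atTop (𝓝 0)) {u : ℕ → Sp N → ℝ}
    (hu : ∀ n, IsLeastEnergySol 1 (coreSign (ε n)) p (u n)) (hpos : ∀ n, ∀ᵐ x, 0 < u n x) :
    ∃ (k : ℕ → Fin N → ℤ) (σ : ℕ → ℕ) (v : Sp N → ℝ), StrictMono σ ∧
      WeakConv (fun n => rescale p (ε (σ n)) (k (σ n)) (u (σ n))) v ∧
      (∀ᵐ x, 0 ≤ v x) ∧ ¬ v =ᵐ[volume] 0 := by
  choose g hg using hu
  obtain ⟨k, σ, C, D, G, hσ, hb, hV, hDV, hDW, hw, hne⟩ := exists_limit hp hp' hε hlim hg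
  refine ⟨k, σ, sobS N G, hσ, weakConv_of hV hDW hw, ?_, hne⟩
  apply nonneg_of_local (f := fun n => (sobS N (D n) : Sp N → ℝ))
    (fun n => Lp.aestronglyMeasurable _) (Lp.aestronglyMeasurable _) ?_
    (fun R => tendsto_local_two hb hw R)
  intro n
  have h1 : ∀ᵐ x, 0 < u (σ n) (ε (σ n) • x + lat (k (σ n))) :=
    ae_comp_aff (hε _).ne' _ (hpos _)
  filter_upwards [hDV n, h1] with x hx hx2
  rw [hx, rescale]
  have := lam_pos (p := p) (hε (σ n))
  exact (mul_pos this hx2).le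

end Pool.Agent.Lib.MP_bf093f_an
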