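import Pool.Agent.Lib.MP_bf093f_an.Sobolev

set_option autoImplicit false

/-! # Weak compactness and local strong convergence -/

namespace Pool.Agent.Lib.MP_bf093f_an

open MeasureTheory Filter Topology Metric
open scoped ContDiff ENNReal NNReal

/-! ## Weak sequential compactness of balls in a separable Hilbert space -/

lemma exists_weak_limit {H : Type} [NormedAddCommGroup H] [InnerProductSpace ℝ H]
    [CompleteSpace H] [SecondCountableTopology H] {x : ℕ → H} {C : ℝ} (hx : ∀ n, ‖x n‖ ≤ C) :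
    ∃ (σ : ℕ → ℕ) (y : H), StrictMono σ ∧
      ∀ h, Tendsto (fun n => inner ℝ (x (σ n)) h) atTop (𝓝 (inner ℝ y h)) := by
  have hseq := WeakDual.isSeqCompact_closedBall (𝕜 := ℝ) (E := H) 0 C
  let z : ℕ → WeakDual ℝ H := fun n =>
    StrongDual.toWeakDual (InnerProductSpace.toDual ℝ H (x n))
  have hz : ∀ n, z n ∈ WeakDual.toStrongDual ⁻¹' Metric.closedBall (0 : StrongDual ℝ H) C := by
    intro n
    rw [Set.mem_preimage, mem_closedBall, dist_zero_right]
    change ‖InnerProductSpace.toDual ℝ H (x n)‖ ≤ C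
    rw [LinearIsometryEquiv.norm_map]
    exact hx n
  obtain ⟨a, -, σ, hσ, hlim⟩ := hseq hz
  refine ⟨σ, (InnerProductSpace.toDual ℝ H).symm (WeakDual.toStrongDual a), hσ, fun h => ?_⟩
  have h1 := ((WeakDual.eval_continuous (𝕜 := ℝ) h).tendsto a).comp hlim
  have h2 : inner ℝ ((InnerProductSpace.toDual ℝ H).symm (WeakDual.toStrongDual a)) h = a h := by
    rw [InnerProductSpace.toDual_symm_apply]
    rfl
  rw [h2]
  exact h1

variable {N : ℕ}

/-! ## Translations of test functions -/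

lemma test_sub_eq {φ : Sp N → ℝ} (h : IsTest φ) (x v : Sp N) :
    φ (x + v) - φ x = ∫ t in (0 : ℝ)..1, fderiv ℝ φ (x + t • v) v := by
  have hd : ∀ t : ℝ, HasDerivAt (fun t : ℝ => φ (x + t • v)) (fderiv ℝ φ (x + t • v) v) t := by
    intro t
    have h1 : HasDerivAt (fun t : ℝ => x + t • v) v t := by
      simpa using ((hasDerivAt_id t).smul_const v).const_add x
    exact (h.differentiable (x + t • v)).hasFDerivAt.comp_hasDerivAt t h1
  have hc : Continuous (fun t : ℝ => fderiv ℝ φ (x + t • v) v) := by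
    have h1 : Continuous (fderiv ℝ φ) := h.1.continuous_fderiv (by simp)
    fun_prop
  rw [intervalIntegral.integral_eq_sub_of_hasDerivAt (fun t _ => hd t) (hc.intervalIntegrable _ _)]
  simp

lemma enorm_test_sub_sq_le {φ : Sp N → ℝ} (h : IsTest φ) (x v : Sp N) :
    ‖φ (x + v) - φ x‖ₑ ^ 2 ≤
      ‖v‖ₑ ^ 2 * ∫⁻ t in Set.Ioc (0 : ℝ) 1, ‖gradient φ (x + t • v)‖ₑ ^ 2 := by
  have hcg := h.continuous_gradient
  have h1 : ‖φ (x + v) - φ x‖ₑ ≤ ‖v‖ₑ * ∫⁻ t in Set.Ioc (0 : ℝ) 1, ‖gradient φ (x + t • v)‖ₑ := by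
    rw [test_sub_eq h x v, intervalIntegral.integral_of_le zero_le_one]
    refine (enorm_integral_le_lintegral_enorm _).trans ?_
    rw [← lintegral_const_mul' _ _ (by simp)]
    refine lintegral_mono fun t => ?_
    have h2 : ‖fderiv ℝ φ (x + t • v) v‖ ≤ ‖v‖ * ‖gradient φ (x + t • v)‖ := by
      rw [norm_gradient, mul_comm]
      exact ContinuousLinearMap.le_opNorm _ _
    rw [← enorm_norm v, ← enorm_norm (gradient φ (x + t • v)), ← enorm_mul,
      enorm_le_iff_norm_le, norm_mul, norm_norm, norm_norm]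
    exact h2
  have h3 : (∫⁻ t in Set.Ioc (0 : ℝ) 1, ‖gradient φ (x + t • v)‖ₑ) ^ 2
      ≤ ∫⁻ t in Set.Ioc (0 : ℝ) 1, ‖gradient φ (x + t • v)‖ₑ ^ 2 := by
    have : IsProbabilityMeasure (volume.restrict (Set.Ioc (0 : ℝ) 1)) := ⟨by simp⟩
    have h4 : eLpNorm (fun t : ℝ => gradient φ (x + t • v)) 1 (volume.restrict (Set.Ioc (0 : ℝ) 1))
        ≤ eLpNorm (fun t : ℝ => gradient φ (x + t • v)) 2 (volume.restrict (Set.Ioc (0 : ℝ) 1)) := by
      apply eLpNorm_le_eLpNorm_of_exponent_le (by norm_num)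
      exact (by fun_prop : Continuous fun t : ℝ => gradient φ (x + t • v)).aestronglyMeasurable
    rw [eLpNorm_one_eq_lintegral_enorm, eLpNorm_eq_lintegral_rpow_enorm_toReal (by norm_num) (by norm_num)] at h4
    have h5 := pow_le_pow_left' h4 2
    refine h5.trans (le_of_eq ?_)
    rw [← ENNReal.rpow_natCast, ← ENNReal.rpow_mul]
    simp
  calc ‖φ (x + v) - φ x‖ₑ ^ 2
      ≤ (‖v‖ₑ * ∫⁻ t in Set.Ioc (0 : ℝ) 1, ‖gradient φ (x + t • v)‖ₑ) ^ 2 := pow_le_pow_left' h1 2
    _ = ‖v‖ₑ ^ 2 * (∫⁻ t in Set.Ioc (0 : ℝ) 1, ‖gradient φ (x + t • v)‖ₑ) ^ 2 := mul_pow _ _ _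
    _ ≤ _ := by gcongr

lemma lintegral_translate_sub_sq_le {φ : Sp N → ℝ} (h : IsTest φ) (v : Sp N) :
    ∫⁻ x, ‖φ (x + v) - φ x‖ₑ ^ 2 ≤ ‖v‖ₑ ^ 2 * ∫⁻ x, ‖gradient φ x‖ₑ ^ 2 := by
  have hcg := h.continuous_gradient
  calc ∫⁻ x, ‖φ (x + v) - φ x‖ₑ ^ 2
      ≤ ∫⁻ x, ‖v‖ₑ ^ 2 * ∫⁻ t in Set.Ioc (0 : ℝ) 1, ‖gradient φ (x + t • v)‖ₑ ^ 2 :=
        lintegral_mono fun x => enorm_test_sub_sq_le h x v
    _ = ‖v‖ₑ ^ 2 * ∫⁻ x, ∫⁻ t in Set.Ioc (0 : ℝ) 1, ‖gradient φ (x + t • v)‖ₑ ^ 2 := by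
        rw [lintegral_const_mul' _ _ (by simp)]
    _ = ‖v‖ₑ ^ 2 * ∫⁻ t in Set.Ioc (0 : ℝ) 1, ∫⁻ x, ‖gradient φ (x + t • v)‖ₑ ^ 2 := by
        rw [lintegral_lintegral_swap]
        apply Measurable.aemeasurable
        have : Continuous (fun p : Sp N × ℝ => ‖gradient φ (p.1 + p.2 • v)‖ₑ ^ 2) := by fun_prop
        exact this.measurable
    _ = ‖v‖ₑ ^ 2 * ∫⁻ t in Set.Ioc (0 : ℝ) 1, ∫⁻ x, ‖gradient φ x‖ₑ ^ 2 := by
        congr 2
        funext t
        exact lintegral_add_right_eq_self (fun x => ‖gradient φ x‖ₑ ^ 2) (t • v)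
    _ = ‖v‖ₑ ^ 2 * ∫⁻ x, ‖gradient φ x‖ₑ ^ 2 := by simp

/-! ## Ball averages -/

/-- The average of `f` over the ball `B_δ(x)`. -/
noncomputable def ballAvg (δ : ℝ) (f : Sp N → ℝ) (x : Sp N) : ℝ :=
  (volume (ball (0 : Sp N) δ)).toReal⁻¹ * ∫ v in ball (0 : Sp N) δ, f (x + v)

lemma vol_ball_pos {δ : ℝ} (hδ : 0 < δ) : 0 < volume (ball (0 : Sp N) δ) :=
  measure_ball_pos _ _ hδ

lemma vol_ball_ne_top {δ : ℝ} : volume (ball (0 : Sp N) δ) ≠ ⊤ := measure_ball_lt_top.ne

lemma vol_ball_toReal_pos {δ : ℝ} (hδ : 0 < δ) : 0 < (volume (ball (0 : Sp N) δ)).toReal :=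
  ENNReal.toReal_pos (vol_ball_pos hδ).ne' vol_ball_ne_top

/-- For a test function, the distance in `L²` to the average is at most `δ ‖∇φ‖`. -/
lemma lintegral_sub_ballAvg_le {φ : Sp N → ℝ} (h : IsTest φ) {δ : ℝ} (hδ : 0 < δ) :
    ∫⁻ x, ‖φ x - ballAvg δ φ x‖ₑ ^ 2 ≤ ENNReal.ofReal δ ^ 2 * ∫⁻ x, ‖gradient φ x‖ₑ ^ 2 := by
  set c : ℝ≥0∞ := volume (ball (0 : Sp N) δ) with hc
  have hc0 : c ≠ 0 := (vol_ball_pos hδ).ne'
  have hct : c ≠ ⊤ := vol_ball_ne_top
  have hcr : 0 < c.toReal := vol_ball_toReal_pos hδ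
  -- pointwise
  have hpt : ∀ x, ‖φ x - ballAvg δ φ x‖ₑ ^ 2 ≤
      c⁻¹ * ∫⁻ v in ball (0 : Sp N) δ, ‖φ (x + v) - φ x‖ₑ ^ 2 := by
    intro x
    have hi1 : IntegrableOn (fun v => φ (x + v)) (ball (0 : Sp N) δ) volume := by
      have : Continuous fun v => φ (x + v) := h.continuous.comp (continuous_const.add continuous_id)
      exact (this.continuousOn.integrableOn_compact (isCompact_closedBall 0 δ)).mono_set
        ball_subset_closedBall
    have hfin : IsFiniteMeasure (volume.restrict (ball (0 : Sp N) δ)) :=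
      ⟨by rw [Measure.restrict_apply_univ]; exact measure_ball_lt_top⟩
    have h1 : φ x - ballAvg δ φ x
        = c.toReal⁻¹ * ∫ v in ball (0 : Sp N) δ, (φ x - φ (x + v)) := by
      rw [integral_sub (integrable_const _) hi1, integral_const, ballAvg, ← hc]
      simp only [measureReal_restrict_apply_univ, smul_eq_mul]
      rw [Measure.real, ← hc, mul_sub, ← mul_assoc, inv_mul_cancel₀ hcr.ne', one_mul]
    have h2 : ‖φ x - ballAvg δ φ x‖ₑ ≤
        c⁻¹ * ∫⁻ v in ball (0 : Sp N) δ, ‖φ (x + v) - φ x‖ₑ := by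
      rw [h1, enorm_mul]
      have h3 : ‖c.toReal⁻¹‖ₑ = c⁻¹ := by
        rw [Real.enorm_eq_ofReal (by positivity), ENNReal.ofReal_inv_of_pos hcr,
          ENNReal.ofReal_toReal hct]
      rw [h3]
      gcongr
      refine (enorm_integral_le_lintegral_enorm _).trans (le_of_eq ?_)
      congr 1
      funext v
      exact enorm_sub_rev _ _
    have h4 : (∫⁻ v in ball (0 : Sp N) δ, ‖φ (x + v) - φ x‖ₑ) ^ 2
        ≤ c * ∫⁻ v in ball (0 : Sp N) δ, ‖φ (x + v) - φ x‖ₑ ^ 2 := by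
      have h5 : eLpNorm (fun v => φ (x + v) - φ x) 1 (volume.restrict (ball (0 : Sp N) δ))
          ≤ eLpNorm (fun v => φ (x + v) - φ x) 2 (volume.restrict (ball (0 : Sp N) δ))
            * (volume.restrict (ball (0 : Sp N) δ)) Set.univ ^ (1 / (1 : ℝ≥0∞).toReal
                - 1 / (2 : ℝ≥0∞).toReal) := by
        apply eLpNorm_le_eLpNorm_mul_rpow_measure_univ (by norm_num)
        have : Continuous fun v => φ (x + v) - φ x :=
          (h.continuous.comp (continuous_const.add continuous_id)).sub continuous_const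
        exact this.aestronglyMeasurable
      rw [eLpNorm_one_eq_lintegral_enorm,
        eLpNorm_eq_lintegral_rpow_enorm_toReal (by norm_num) (by norm_num)] at h5
      have h6 := pow_le_pow_left' h5 2
      refine h6.trans (le_of_eq ?_)
      rw [mul_pow, ← ENNReal.rpow_natCast, ← ENNReal.rpow_mul, ← ENNReal.rpow_natCast,
        ← ENNReal.rpow_mul, Measure.restrict_apply_univ, ← hc, mul_comm]
      norm_num
    calc ‖φ x - ballAvg δ φ x‖ₑ ^ 2
        ≤ (c⁻¹ * ∫⁻ v in ball (0 : Sp N) δ, ‖φ (x + v) - φ x‖ₑ) ^ 2 := pow_le_pow_left' h2 2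
      _ = c⁻¹ ^ 2 * (∫⁻ v in ball (0 : Sp N) δ, ‖φ (x + v) - φ x‖ₑ) ^ 2 := mul_pow _ _ _
      _ ≤ c⁻¹ ^ 2 * (c * ∫⁻ v in ball (0 : Sp N) δ, ‖φ (x + v) - φ x‖ₑ ^ 2) := by gcongr
      _ = (c⁻¹ * c) * (c⁻¹ * ∫⁻ v in ball (0 : Sp N) δ, ‖φ (x + v) - φ x‖ₑ ^ 2) := by ring
      _ = _ := by rw [ENNReal.inv_mul_cancel hc0 hct, one_mul]
  calc ∫⁻ x, ‖φ x - ballAvg δ φ x‖ₑ ^ 2
      ≤ ∫⁻ x, c⁻¹ * ∫⁻ v in ball (0 : Sp N) δ, ‖φ (x + v) - φ x‖ₑ ^ 2 := lintegral_mono hpt
    _ = c⁻¹ * ∫⁻ x, ∫⁻ v in ball (0 : Sp N) δ, ‖φ (x + v) - φ x‖ₑ ^ 2 := by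
        rw [lintegral_const_mul' _ _ (ENNReal.inv_ne_top.mpr hc0)]
    _ = c⁻¹ * ∫⁻ v in ball (0 : Sp N) δ, ∫⁻ x, ‖φ (x + v) - φ x‖ₑ ^ 2 := by
        rw [lintegral_lintegral_swap]
        apply Measurable.aemeasurable
        have hcφ := h.continuous
        have : Continuous (fun p : Sp N × Sp N => ‖φ (p.1 + p.2) - φ p.1‖ₑ ^ 2) := by fun_prop
        exact this.measurable
    _ ≤ c⁻¹ * ∫⁻ v in ball (0 : Sp N) δ, ENNReal.ofReal δ ^ 2 * ∫⁻ x, ‖gradient φ x‖ₑ ^ 2 := by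
        gcongr c⁻¹ * ?_
        refine setLIntegral_mono' measurableSet_ball fun v hv => ?_
        refine (lintegral_translate_sub_sq_le h v).trans ?_
        gcongr
        rw [← ofReal_norm]
        apply ENNReal.ofReal_le_ofReal
        rw [mem_ball_zero_iff] at hv
        exact hv.le
    _ = c⁻¹ * ((ENNReal.ofReal δ ^ 2 * ∫⁻ x, ‖gradient φ x‖ₑ ^ 2) * c) := by
        rw [setLIntegral_const]
    _ = (c⁻¹ * c) * (ENNReal.ofReal δ ^ 2 * ∫⁻ x, ‖gradient φ x‖ₑ ^ 2) := by ring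
    _ = _ := by rw [ENNReal.inv_mul_cancel hc0 hct, one_mul]

lemma isFiniteMeasure_restrict_ball {x : Sp N} {δ : ℝ} :
    IsFiniteMeasure (volume.restrict (ball x δ)) :=
  ⟨by rw [Measure.restrict_apply_univ]; exact measure_ball_lt_top⟩

/-- The constant in the bound of ball averages. -/
noncomputable def avgC (N : ℕ) (δ : ℝ) : ℝ :=
  (volume (ball (0 : Sp N) δ)).toReal⁻¹ *
    ((volume (ball (0 : Sp N) δ)) ^ (1 - (twoStar N)⁻¹)).toReal

lemma avgC_nonneg {δ : ℝ} : 0 ≤ avgC N δ := by unfold avgC; positivity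

lemma integrable_translate_ball {r : ℝ≥0∞} (hr : 1 ≤ r) {f : Sp N → ℝ} (hf : MemLp f r volume)
    (δ : ℝ) (x : Sp N) : IntegrableOn (fun v => f (x + v)) (ball (0 : Sp N) δ) volume := by
  have := isFiniteMeasure_restrict_ball (x := (0 : Sp N)) (δ := δ)
  have h1 : MemLp (fun v => f (x + v)) r volume :=
    hf.comp_measurePreserving (measurePreserving_add_left volume x)
  exact (h1.restrict _).integrable hr

variable [hN : Fact (3 ≤ N)]

lemma abs_ballAvg_le {f : Sp N → ℝ} (hf : MemLp f (qs N) volume) {δ : ℝ}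
    (x : Sp N) : |ballAvg δ f x| ≤ avgC N δ * (eLpNorm f (qs N) volume).toReal := by
  have hfin := isFiniteMeasure_restrict_ball (x := (0 : Sp N)) (δ := δ)
  set c : ℝ≥0∞ := volume (ball (0 : Sp N) δ) with hc
  have h1 : MemLp (fun v => f (x + v)) (qs N) volume :=
    hf.comp_measurePreserving (measurePreserving_add_left volume x)
  have h2 : ‖∫ v in ball (0 : Sp N) δ, f (x + v)‖ₑ ≤
      eLpNorm f (qs N) volume * c ^ (1 - (twoStar N)⁻¹) := by
    calc ‖∫ v in ball (0 : Sp N) δ, f (x + v)‖ₑ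
        ≤ eLpNorm (fun v => f (x + v)) 1 (volume.restrict (ball (0 : Sp N) δ)) := by
          rw [eLpNorm_one_eq_lintegral_enorm]
          exact enorm_integral_le_lintegral_enorm _
      _ ≤ eLpNorm (fun v => f (x + v)) (qs N) (volume.restrict (ball (0 : Sp N) δ))
            * (volume.restrict (ball (0 : Sp N) δ)) Set.univ ^ (1 / (1 : ℝ≥0∞).toReal
                - 1 / (qs N).toReal) :=
          eLpNorm_le_eLpNorm_mul_rpow_measure_univ (one_le_qs hN.out) h1.1.restrict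
      _ ≤ eLpNorm f (qs N) volume * c ^ (1 - (twoStar N)⁻¹) := by
          rw [Measure.restrict_apply_univ, ← hc, qs_toReal hN.out]
          simp only [ENNReal.toReal_one, ne_eq, one_ne_zero, not_false_eq_true, div_self, one_div]
          gcongr
          calc eLpNorm (fun v => f (x + v)) (qs N) (volume.restrict (ball (0 : Sp N) δ))
              ≤ eLpNorm (fun v => f (x + v)) (qs N) volume :=
                eLpNorm_mono_measure _ Measure.restrict_le_self
            _ = eLpNorm f (qs N) volume :=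
                eLpNorm_comp_measurePreserving hf.1 (measurePreserving_add_left volume x)
  have hct : c ^ (1 - (twoStar N)⁻¹) ≠ ⊤ := by
    apply ENNReal.rpow_ne_top_of_nonneg _ vol_ball_ne_top
    have h3 := two_lt_twoStar hN.out
    have : (twoStar N)⁻¹ ≤ 1 := inv_le_one_of_one_le₀ (by linarith)
    linarith
  have h3 := ENNReal.toReal_mono (ENNReal.mul_ne_top hf.eLpNorm_ne_top hct) h2
  rw [toReal_enorm, ENNReal.toReal_mul, Real.norm_eq_abs] at h3
  rw [ballAvg, abs_mul, abs_of_nonneg (by positivity : 0 ≤ (volume (ball (0 : Sp N) δ)).toReal⁻¹),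
    avgC, ← hc]
  calc c.toReal⁻¹ * |∫ v in ball (0 : Sp N) δ, f (x + v)|
      ≤ c.toReal⁻¹ * ((eLpNorm f (qs N) volume).toReal * (c ^ (1 - (twoStar N)⁻¹)).toReal) := by
        gcongr
    _ = _ := by ring

/-- The ball average as a continuous linear functional. -/
noncomputable def ballAvgL (δ : ℝ) (x : Sp N) : Lp ℝ (qs N) (volume : Measure (Sp N)) →L[ℝ] ℝ :=
  LinearMap.mkContinuous
    { toFun := fun f => ballAvg δ f x
      map_add' := by
        intro f g
        have h1 : ∀ᵐ v ∂(volume.restrict (ball (0 : Sp N) δ)),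
            (f + g : Lp ℝ (qs N) (volume : Measure (Sp N))) (x + v) = f (x + v) + g (x + v) := by
          apply ae_restrict_of_ae
          exact (measurePreserving_add_left volume x).quasiMeasurePreserving.ae (Lp.coeFn_add f g)
        rw [ballAvg, integral_congr_ae h1, integral_add
          (integrable_translate_ball (one_le_qs hN.out) (Lp.memLp f) δ x)
          (integrable_translate_ball (one_le_qs hN.out) (Lp.memLp g) δ x), mul_add]
        rfl
      map_smul' := by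
        intro c f
        have h1 : ∀ᵐ v ∂(volume.restrict (ball (0 : Sp N) δ)),
            (c • f : Lp ℝ (qs N) (volume : Measure (Sp N))) (x + v) = c * f (x + v) := by
          apply ae_restrict_of_ae
          exact (measurePreserving_add_left volume x).quasiMeasurePreserving.ae
            (Lp.coeFn_smul c f)
        rw [ballAvg, integral_congr_ae h1, integral_const_mul]
        simp only [RingHom.id_apply, smul_eq_mul, ballAvg]
        ring }
    (avgC N δ) (by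
      intro f
      have := abs_ballAvg_le (Lp.memLp f) (δ := δ) x
      rw [Lp.norm_def]
      exact this)

omit hN in
lemma ballAvg_congr {f g : Sp N → ℝ} (h : f =ᵐ[volume] g) (δ : ℝ) (x : Sp N) :
    ballAvg δ f x = ballAvg δ g x := by
  rw [ballAvg, ballAvg]
  congr 1
  apply integral_congr_ae
  apply ae_restrict_of_ae
  exact (measurePreserving_add_left volume x).quasiMeasurePreserving.ae h

lemma ballAvgL_toLp {f : Sp N → ℝ} (hf : MemLp f (qs N) volume) (δ : ℝ) (x : Sp N) :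
    ballAvgL δ x (hf.toLp f) = ballAvg δ f x :=
  ballAvg_congr hf.coeFn_toLp δ x

/-- Ball averages depend continuously on the function, pointwise. -/
lemma tendsto_ballAvg {f : ℕ → Sp N → ℝ} {g : Sp N → ℝ} (hf : ∀ n, MemLp (f n) (qs N) volume)
    (hg : MemLp g (qs N) volume)
    (h : Tendsto (fun n => eLpNorm (fun x => f n x - g x) (qs N) volume) atTop (𝓝 0))
    (δ : ℝ) (x : Sp N) :
    Tendsto (fun n => ballAvg δ (f n) x) atTop (𝓝 (ballAvg δ g x)) := by
  have h1 := ((ballAvgL δ x).continuous.tendsto _).comp (tendsto_toLp hf hg h)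
  rw [ballAvgL_toLp hg] at h1
  refine h1.congr fun n => ?_
  exact ballAvgL_toLp (hf n) δ x

omit hN in
lemma IsTest.measurable_ballAvg {φ : Sp N → ℝ} (h : IsTest φ) (δ : ℝ) :
    Measurable (ballAvg δ φ) := by
  have h1 : StronglyMeasurable (fun p : Sp N × Sp N => φ (p.1 + p.2)) :=
    (h.continuous.comp (continuous_fst.add continuous_snd)).stronglyMeasurable
  have h2 := h1.integral_prod_right' (ν := volume.restrict (ball (0 : Sp N) δ))
  exact (h2.measurable).const_mul _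

lemma IsD12.measurable_ballAvg {u : Sp N → ℝ} {g : Sp N → Sp N} (h : IsD12 u g) (δ : ℝ) :
    Measurable (ballAvg δ u) := by
  obtain ⟨φ, hφ, h1, h2⟩ := h.2.2
  refine measurable_of_tendsto_metrizable (fun n => (hφ n).measurable_ballAvg δ) ?_
  rw [tendsto_pi_nhds]
  intro x
  exact tendsto_ballAvg (fun n => (hφ n).memLp _) h.1 h1 δ x

omit hN in
/-- A subsequence of an `L^r`-convergent sequence converges almost everywhere. -/
lemma exists_subseq_ae {F : Type} [NormedAddCommGroup F] {r : ℝ≥0∞} (hr : r ≠ 0)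
    {μ : Measure (Sp N)}
    {f : ℕ → Sp N → F} {g : Sp N → F}
    (hf : ∀ n, AEStronglyMeasurable (f n) μ) (hg : AEStronglyMeasurable g μ)
    (h : Tendsto (fun n => eLpNorm (fun x => f n x - g x) r μ) atTop (𝓝 0)) :
    ∃ σ : ℕ → ℕ, StrictMono σ ∧ ∀ᵐ x ∂μ, Tendsto (fun n => f (σ n) x) atTop (𝓝 (g x)) :=
  (tendstoInMeasure_of_tendsto_eLpNorm hr hf hg h).exists_seq_tendsto_ae

omit hN in
lemma lintegral_sq_eq {F : Type} [NormedAddCommGroup F] (f : Sp N → F) (μ : Measure (Sp N)) :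
    ∫⁻ x, ‖f x‖ₑ ^ 2 ∂μ = eLpNorm f 2 μ ^ 2 := by
  rw [eLpNorm_eq_lintegral_rpow_enorm_toReal (by norm_num) (by norm_num), ← ENNReal.rpow_natCast,
    ← ENNReal.rpow_mul]
  simp

/-- In `D^{1,2}`, the `L²` distance to the ball average is at most `δ ‖∇u‖`. -/
lemma IsD12.lintegral_sub_ballAvg_le {u : Sp N → ℝ} {g : Sp N → Sp N} (h : IsD12 u g) {δ : ℝ}
    (hδ : 0 < δ) :
    ∫⁻ x, ‖u x - ballAvg δ u x‖ₑ ^ 2 ≤ ENNReal.ofReal δ ^ 2 * ∫⁻ x, ‖g x‖ₑ ^ 2 := by
  obtain ⟨φ, hφ, h1, h2⟩ := h.2.2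
  obtain ⟨σ, hσ, hae⟩ := exists_subseq_ae (qs_ne_zero hN.out) (fun n => ((hφ n).memLp (qs N)).1)
    h.1.1 h1
  have hg2 : Tendsto (fun n => ∫⁻ x, ‖gradient (φ (σ n)) x‖ₑ ^ 2) atTop
      (𝓝 (∫⁻ x, ‖g x‖ₑ ^ 2)) := by
    simp only [lintegral_sq_eq]
    have h3 := tendsto_toLp (fun n => (hφ n).memLp_gradient 2) h.2.1 h2
    have h4 : Tendsto (fun n => eLpNorm (gradient (φ n)) 2 volume) atTop
        (𝓝 (eLpNorm g 2 volume)) := by
      have h5 := h3.enorm
      simp only [Lp.enorm_toLp] at h5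
      exact h5
    exact (ENNReal.Tendsto.pow (h4.comp hσ.tendsto_atTop))
  have hlim : ∀ᵐ x, ‖u x - ballAvg δ u x‖ₑ ^ 2
      ≤ liminf (fun n => ‖φ (σ n) x - ballAvg δ (φ (σ n)) x‖ₑ ^ 2) atTop := by
    filter_upwards [hae] with x hx
    have h3 := tendsto_ballAvg (fun n => (hφ n).memLp _) h.1 h1 δ x
    have h4 : Tendsto (fun n => ‖φ (σ n) x - ballAvg δ (φ (σ n)) x‖ₑ ^ 2) atTop
        (𝓝 (‖u x - ballAvg δ u x‖ₑ ^ 2)) :=
      ENNReal.Tendsto.pow ((hx.sub (h3.comp hσ.tendsto_atTop)).enorm)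
    exact h4.liminf_eq.ge
  calc ∫⁻ x, ‖u x - ballAvg δ u x‖ₑ ^ 2
      ≤ ∫⁻ x, liminf (fun n => ‖φ (σ n) x - ballAvg δ (φ (σ n)) x‖ₑ ^ 2) atTop :=
        lintegral_mono_ae hlim
    _ ≤ liminf (fun n => ∫⁻ x, ‖φ (σ n) x - ballAvg δ (φ (σ n)) x‖ₑ ^ 2) atTop := by
        apply lintegral_liminf_le
        intro n
        exact (((hφ _).continuous.measurable.sub ((hφ _).measurable_ballAvg δ)).enorm).pow_const 2
    _ ≤ liminf (fun n => ENNReal.ofReal δ ^ 2 * ∫⁻ x, ‖gradient (φ (σ n)) x‖ₑ ^ 2) atTop := by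
        refine liminf_le_liminf (Eventually.of_forall fun n => ?_)
        exact Pool.Agent.Lib.MP_bf093f_an.lintegral_sub_ballAvg_le (hφ _) hδ
    _ = ENNReal.ofReal δ ^ 2 * ∫⁻ x, ‖g x‖ₑ ^ 2 :=
        (ENNReal.Tendsto.const_mul hg2 (Or.inr (by simp))).liminf_eq

lemma IsD12.eLpNorm_sub_ballAvg_le {u : Sp N → ℝ} {g : Sp N → Sp N} (h : IsD12 u g) {δ : ℝ}
    (hδ : 0 < δ) :
    eLpNorm (fun x => u x - ballAvg δ u x) 2 volume ≤ ENNReal.ofReal δ * eLpNorm g 2 volume := by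
  have h1 := h.lintegral_sub_ballAvg_le hδ
  rw [lintegral_sq_eq, lintegral_sq_eq, ← mul_pow] at h1
  exact (ENNReal.pow_le_pow_left_iff (by norm_num)).mp h1

/-! ## Local strong convergence -/

lemma tendsto_clm_of_weak {H : Type} [NormedAddCommGroup H] [InnerProductSpace ℝ H]
    [CompleteSpace H] {D : ℕ → H} {d : H}
    (hw : ∀ h : H, Tendsto (fun n => inner ℝ (D n) h) atTop (𝓝 (inner ℝ d h))) (ℓ : H →L[ℝ] ℝ) :
    Tendsto (fun n => ℓ (D n)) atTop (𝓝 (ℓ d)) := by
  have h2 : ∀ x, ℓ x = inner ℝ x ((InnerProductSpace.toDual ℝ H).symm ℓ) := by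
    intro x
    rw [real_inner_comm, InnerProductSpace.toDual_symm_apply]
  simp only [h2]
  exact hw _

/-- Rellich: weak convergence to `0` in `D^{1,2}` implies strong convergence to `0` in `L²` of
balls. -/
lemma tendsto_local_zero {D : ℕ → gradSpace N} {C : ℝ} (hb : ∀ n, ‖D n‖ ≤ C)
    (hw : ∀ H : gradSpace N, Tendsto (fun n => inner ℝ (D n) H) atTop (𝓝 0)) (R : ℝ) :
    Tendsto (fun n => eLpNorm (sobS N (D n)) 2 (volume.restrict (ball 0 R))) atTop (𝓝 0) := by
  have hfin := isFiniteMeasure_restrict_ball (x := (0 : Sp N)) (δ := R)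
  have hC : 0 ≤ C := (norm_nonneg _).trans (hb 0)
  have hD : ∀ n, IsD12 (sobS N (D n) : Sp N → ℝ) ((D n).1 : Sp N → Sp N) := fun n =>
    isD12_of_gradSpace _
  rw [ENNReal.tendsto_nhds_zero]
  intro ε hε
  -- choose `δ`
  obtain ⟨δ, hδ0, hδ⟩ : ∃ δ : ℝ, 0 < δ ∧ ENNReal.ofReal δ * ENNReal.ofReal C ≤ ε / 2 := by
    rcases eq_or_ne ε ⊤ with h | h
    · exact ⟨1, one_pos, by rw [h, ENNReal.top_div_of_ne_top (by norm_num)]; exact le_top⟩
    · refine ⟨(ε / 2).toReal / (C + 1), ?_, ?_⟩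
      · have : 0 < (ε / 2).toReal := ENNReal.toReal_pos (by simpa using hε.ne') (by
          exact (ENNReal.div_lt_top h (by norm_num)).ne)
        positivity
      · rw [← ENNReal.ofReal_mul (by positivity)]
        have h2 : (ε / 2).toReal / (C + 1) * C ≤ (ε / 2).toReal := by
          rw [div_mul_eq_mul_div, div_le_iff₀ (by positivity)]
          have : 0 ≤ (ε / 2).toReal := ENNReal.toReal_nonneg
          nlinarith
        refine (ENNReal.ofReal_le_ofReal h2).trans ?_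
        exact ENNReal.ofReal_toReal_le
  -- the averages tend to zero
  have hA : ∀ x, Tendsto (fun n => ballAvg δ (sobS N (D n)) x) atTop (𝓝 0) := by
    intro x
    have hw' : ∀ H : gradSpace N, Tendsto (fun n => inner ℝ (D n) H) atTop
        (𝓝 (inner ℝ (0 : gradSpace N) H)) := by
      intro H; rw [inner_zero_left]; exact hw H
    have h1 := tendsto_clm_of_weak hw' ((ballAvgL δ x).comp (sobS N))
    rw [map_zero] at h1
    exact h1
  have hAb : ∀ n x, |ballAvg δ (sobS N (D n)) x| ≤ avgC N δ * (sobC N * C) := by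
    intro n x
    refine (abs_ballAvg_le (Lp.memLp _) x).trans ?_
    refine mul_le_mul_of_nonneg_left ?_ avgC_nonneg
    rw [← Lp.norm_def]
    exact (norm_sobS_le _).trans (mul_le_mul_of_nonneg_left (hb n) (NNReal.coe_nonneg _))
  have hA2 : Tendsto (fun n => eLpNorm (ballAvg δ (sobS N (D n))) 2 (volume.restrict (ball 0 R)))
      atTop (𝓝 0) := by
    have h1 : Tendsto (fun n => ∫⁻ x in ball (0 : Sp N) R, ‖ballAvg δ (sobS N (D n)) x‖ₑ ^ 2)
        atTop (𝓝 (∫⁻ x in ball (0 : Sp N) R, 0)) := by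
      refine tendsto_lintegral_of_dominated_convergence
        (fun _ => ENNReal.ofReal (avgC N δ * (sobC N * C)) ^ 2) (fun n => ?_) (fun n => ?_) ?_ ?_
      · exact (((hD n).measurable_ballAvg δ).enorm).pow_const 2
      · refine Eventually.of_forall fun x => ?_
        dsimp only
        gcongr
        rw [← ofReal_norm, Real.norm_eq_abs]
        exact ENNReal.ofReal_le_ofReal (hAb n x)
      · rw [lintegral_const]
        exact ENNReal.mul_ne_top (by simp) (measure_ne_top _ _)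
      · refine Eventually.of_forall fun x => ?_
        have h2 := ENNReal.Tendsto.pow (n := 2) (hA x).enorm
        simpa using h2
    simp only [lintegral_zero, lintegral_sq_eq] at h1
    have h2 := h1.ennrpow_const (1 / 2)
    rw [ENNReal.zero_rpow_of_pos (by norm_num)] at h2
    refine h2.congr fun n => ?_
    rw [← ENNReal.rpow_natCast, ← ENNReal.rpow_mul]
    simp
  rw [ENNReal.tendsto_nhds_zero] at hA2
  filter_upwards [hA2 (ε / 2) (by simpa using hε.ne')] with n hn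
  have h1 : eLpNorm (sobS N (D n)) 2 (volume.restrict (ball 0 R))
      ≤ eLpNorm (fun x => (sobS N (D n)) x - ballAvg δ (sobS N (D n)) x) 2
          (volume.restrict (ball 0 R))
        + eLpNorm (ballAvg δ (sobS N (D n))) 2 (volume.restrict (ball 0 R)) := by
    have h2 := eLpNorm_add_le (p := 2) (μ := volume.restrict (ball (0 : Sp N) R))
      (f := fun x => (sobS N (D n)) x - ballAvg δ (sobS N (D n)) x)
      (g := ballAvg δ (sobS N (D n)))
      ((((Lp.aestronglyMeasurable _)).sub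
        ((hD n).measurable_ballAvg δ).aestronglyMeasurable).restrict)
      (((hD n).measurable_ballAvg δ).aestronglyMeasurable) (by norm_num)
    refine le_trans (le_of_eq ?_) h2
    congr 1
    funext x
    simp
  have h3 : eLpNorm (fun x => (sobS N (D n)) x - ballAvg δ (sobS N (D n)) x) 2
      (volume.restrict (ball 0 R)) ≤ ε / 2 := by
    calc eLpNorm (fun x => (sobS N (D n)) x - ballAvg δ (sobS N (D n)) x) 2
          (volume.restrict (ball 0 R))
        ≤ eLpNorm (fun x => (sobS N (D n)) x - ballAvg δ (sobS N (D n)) x) 2 volume :=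
          eLpNorm_mono_measure _ Measure.restrict_le_self
      _ ≤ ENNReal.ofReal δ * eLpNorm ((D n).1 : Sp N → Sp N) 2 volume :=
          (hD n).eLpNorm_sub_ballAvg_le hδ0
      _ ≤ ENNReal.ofReal δ * ENNReal.ofReal C := by
          gcongr
          have h4 := hb n
          have h5 : ‖D n‖ = (eLpNorm ((D n).1 : Sp N → Sp N) 2 volume).toReal := by
            rw [← Lp.norm_def]; rfl
          rw [h5] at h4
          rw [← ENNReal.ofReal_toReal (Lp.eLpNorm_ne_top (D n).1)]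
          exact ENNReal.ofReal_le_ofReal h4
      _ ≤ ε / 2 := hδ
  calc eLpNorm (sobS N (D n)) 2 (volume.restrict (ball 0 R)) ≤ ε / 2 + ε / 2 :=
        h1.trans (add_le_add h3 hn)
    _ = ε := ENNReal.add_halves ε

end Pool.Agent.Lib.MP_bf093f_an
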