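import Pool.Agent.Lib.MP_bf093f_an.Nonvanish

set_option autoImplicit false

/-! # Scaling -/

namespace Pool.Agent.Lib.MP_bf093f_an

open MeasureTheory Filter Topology Metric
open scoped ContDiff ENNReal NNReal

variable {N : ℕ}

/-- The scaling factor of the measure. -/
noncomputable def scK (N : ℕ) (s : ℝ) : ℝ≥0∞ := ENNReal.ofReal |(s ^ N)⁻¹|

lemma scK_ne_zero {s : ℝ} (hs : s ≠ 0) : scK N s ≠ 0 := by
  rw [scK, Ne, ENNReal.ofReal_eq_zero, not_le]
  have : (s ^ N)⁻¹ ≠ 0 := inv_ne_zero (pow_ne_zero _ hs)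
  positivity

/-- The affine homeomorphism `x ↦ s x + c`. -/
noncomputable def aff {s : ℝ} (hs : s ≠ 0) (c : Sp N) : Sp N ≃ₜ Sp N :=
  (Homeomorph.smulOfNeZero s hs).trans (Homeomorph.addRight c)

lemma map_aff {s : ℝ} (hs : s ≠ 0) (c : Sp N) :
    Measure.map (aff hs c) volume = scK N s • (volume : Measure (Sp N)) := by
  have h1 : (aff hs c : Sp N → Sp N) = (fun x => x + c) ∘ (fun x => s • x) := rfl
  rw [h1, ← Measure.map_map (measurable_add_const c) (measurable_const_smul s),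
    Measure.map_addHaar_smul _ hs, Measure.map_smul, map_add_right_eq_self]
  simp [scK]

lemma eLpNorm_comp_aff {F : Type} [NormedAddCommGroup F] {s : ℝ} (hs : s ≠ 0) (c : Sp N)
    (r : ℝ≥0∞) (f : Sp N → F) :
    eLpNorm (fun x => f (s • x + c)) r volume = scK N s ^ (1 / r).toReal * eLpNorm f r volume := by
  have h1 := (aff hs c).measurableEmbedding.eLpNorm_map_measure (g := f) (p := r)
    (μ := (volume : Measure (Sp N)))
  rw [map_aff hs c, eLpNorm_smul_measure_of_ne_zero (scK_ne_zero hs), smul_eq_mul] at h1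
  exact h1.symm

lemma memLp_comp_aff {F : Type} [NormedAddCommGroup F] {s : ℝ} (hs : s ≠ 0) (c : Sp N)
    {r : ℝ≥0∞} {f : Sp N → F} (hf : MemLp f r volume) :
    MemLp (fun x => f (s • x + c)) r volume := by
  have h1 := (aff hs c).measurableEmbedding.memLp_map_measure_iff (g := f) (p := r)
    (μ := (volume : Measure (Sp N)))
  rw [map_aff hs c] at h1
  exact h1.mp (hf.smul_measure ENNReal.ofReal_ne_top)

lemma integral_comp_aff {F : Type} [NormedAddCommGroup F] [NormedSpace ℝ F] {s : ℝ} (hs : 0 < s)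
    (c : Sp N) (f : Sp N → F) :
    ∫ x, f (s • x + c) = (s ^ N)⁻¹ • ∫ x, f x := by
  have h1 := Measure.integral_comp_smul_of_nonneg (volume : Measure (Sp N))
    (fun y => f (y + c)) s (hR := hs.le)
  have h2 : Module.finrank ℝ (Sp N) = N := by simp
  rw [h2] at h1
  rw [h1]
  congr 1
  exact integral_add_right_eq_self (fun y => f y) c

lemma ae_comp_aff {s : ℝ} (hs : s ≠ 0) (c : Sp N) {P : Sp N → Prop}
    (h : ∀ᵐ x ∂(volume : Measure (Sp N)), P x) :
    ∀ᵐ x ∂(volume : Measure (Sp N)), P (s • x + c) := by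
  have h1 : ∀ᵐ x ∂(Measure.map (aff hs c) (volume : Measure (Sp N))), P x := by
    rw [map_aff hs c]
    exact Measure.smul_absolutelyContinuous.ae_le h
  exact ae_of_ae_map (aff hs c).measurable.aemeasurable h1

lemma tendsto_scale {F : Type} [NormedAddCommGroup F] [NormedSpace ℝ F] {s : ℝ} (hs : s ≠ 0)
    (l : ℝ) (c : Sp N) {r : ℝ≥0∞} {f : ℕ → Sp N → F}
    (h : Tendsto (fun n => eLpNorm (f n) r volume) atTop (𝓝 0)) :
    Tendsto (fun n => eLpNorm (fun x => l • f n (s • x + c)) r volume) atTop (𝓝 0) := by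
  have h1 : ∀ n, eLpNorm (fun x => l • f n (s • x + c)) r volume =
      (‖l‖ₑ * scK N s ^ (1 / r).toReal) * eLpNorm (f n) r volume := by
    intro n
    rw [show (fun x => l • f n (s • x + c)) = l • fun x => f n (s • x + c) from rfl,
      eLpNorm_const_smul, eLpNorm_comp_aff hs c, mul_assoc]
  simp_rw [h1]
  have h2 : ‖l‖ₑ * scK N s ^ (1 / r).toReal ≠ ⊤ := by
    apply ENNReal.mul_ne_top enorm_ne_top
    exact ENNReal.rpow_ne_top_of_nonneg ENNReal.toReal_nonneg ENNReal.ofReal_ne_top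
  simpa using ENNReal.Tendsto.const_mul h (Or.inr h2)

lemma IsSobolev.scale {r : ℝ≥0∞} {u : Sp N → ℝ} {g : Sp N → Sp N} (h : IsSobolev r u g)
    (l : ℝ) {s : ℝ} (hs : s ≠ 0) (c : Sp N) :
    IsSobolev r (fun x => l * u (s • x + c)) (fun x => (l * s) • g (s • x + c)) := by
  obtain ⟨hu, hg, φ, hφ, h1, h2⟩ := h
  refine ⟨(memLp_comp_aff hs c hu).const_mul l, (memLp_comp_aff hs c hg).const_smul (l * s),
    fun n x => l * φ n (s • x + c), fun n => isTest_comp_affine (hφ n) l hs c, ?_, ?_⟩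
  · refine (tendsto_scale hs l c h1).congr fun n => ?_
    congr 1
    funext x
    rw [smul_eq_mul, mul_sub]
  · refine (tendsto_scale hs (l * s) c h2).congr fun n => ?_
    congr 1
    funext x
    rw [smul_sub, gradient_comp_affine (hφ n).differentiable]

lemma quadForm_scale {a : ℝ} {u : Sp N → ℝ} {g : Sp N → Sp N} (l : ℝ) {s : ℝ} (hs : 0 < s)
    (c : Sp N) :
    quadForm (s ^ 2 * a) (fun x => l * u (s • x + c)) (fun x => (l * s) • g (s • x + c)) =
      (l ^ 2 * s ^ 2 * (s ^ N)⁻¹) * quadForm a u g := by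
  unfold quadForm
  have h1 := integral_comp_aff hs c (fun x => (l ^ 2 * s ^ 2) * (‖g x‖ ^ 2 + a * u x ^ 2))
  have h2 : (fun x => ‖(l * s) • g (s • x + c)‖ ^ 2 + s ^ 2 * a * (l * u (s • x + c)) ^ 2) =
      fun x => (l ^ 2 * s ^ 2) * (‖g (s • x + c)‖ ^ 2 + a * u (s • x + c) ^ 2) := by
    funext x
    rw [norm_smul, mul_pow, Real.norm_eq_abs, sq_abs]
    ring
  rw [h2, h1, integral_const_mul, smul_eq_mul]
  ring

lemma coreInt_scale {Q : Sp N → ℝ} {p : ℝ} {u : Sp N → ℝ} {l : ℝ} (hl : 0 ≤ l) {s : ℝ}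
    (hs : 0 < s) (c : Sp N) :
    coreInt (fun x => Q (s • x + c)) p (fun x => l * u (s • x + c)) =
      (l ^ p * (s ^ N)⁻¹) * coreInt Q p u := by
  unfold coreInt
  have h1 := integral_comp_aff hs c (fun x => l ^ p * (Q x * |u x| ^ p))
  have h2 : (fun x => Q (s • x + c) * |l * u (s • x + c)| ^ p) =
      fun x => l ^ p * (Q (s • x + c) * |u (s • x + c)| ^ p) := by
    funext x
    rw [abs_mul, abs_of_nonneg hl, Real.mul_rpow hl (abs_nonneg _)]
    ring
  rw [h2, h1, integral_const_mul, smul_eq_mul]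
  ring

/-- The scaling factor `s^{2/(p-2)}`. -/
noncomputable abbrev lam (p s : ℝ) : ℝ := s ^ (2 / (p - 2))

lemma lam_pos {p s : ℝ} (hs : 0 < s) : 0 < lam p s := Real.rpow_pos_of_pos hs _

lemma lam_rpow_p {p s : ℝ} (hp : 2 < p) (hs : 0 < s) : lam p s ^ p = lam p s ^ 2 * s ^ 2 := by
  have h1 : p - 2 ≠ 0 := by linarith
  rw [lam, ← Real.rpow_natCast, ← Real.rpow_natCast, ← Real.rpow_mul hs.le,
    ← Real.rpow_mul hs.le, ← Real.rpow_add hs]
  congr 1
  push_cast
  field_simp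
  ring

lemma lam_rpow_p1 {p s : ℝ} (hp : 2 < p) (hs : 0 < s) :
    lam p s ^ (p - 2) = s ^ 2 := by
  have h1 : p - 2 ≠ 0 := by linarith
  rw [lam, ← Real.rpow_natCast, ← Real.rpow_mul hs.le]
  congr 1
  push_cast
  field_simp

lemma IsNehari.scale {a : ℝ} {Q : Sp N → ℝ} {p : ℝ} (hp : 2 < p) {u : Sp N → ℝ}
    {g : Sp N → Sp N} (h : IsNehari a Q p u g) {s : ℝ} (hs : 0 < s) (c : Sp N) :
    IsNehari (s ^ 2 * a) (fun x => Q (s • x + c)) p (fun x => lam p s * u (s • x + c))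
      (fun x => (lam p s * s) • g (s • x + c)) := by
  refine ⟨h.1.scale _ hs.ne' c, ?_, ?_⟩
  · intro h0
    apply h.2.1
    have h1 : ∀ᵐ x ∂(volume : Measure (Sp N)), u (s • x + c) = 0 := by
      filter_upwards [h0] with x hx
      have := lam_pos (p := p) hs
      rw [Pi.zero_apply, mul_eq_zero] at hx
      exact hx.resolve_left this.ne'
    have h2 := ae_comp_aff (inv_ne_zero hs.ne') (-(s⁻¹ • c)) h1
    filter_upwards [h2] with x hx
    have h3 : s • (s⁻¹ • x + -(s⁻¹ • c)) + c = x := by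
      rw [smul_add, smul_neg, smul_smul, smul_smul, mul_inv_cancel₀ hs.ne', one_smul, one_smul]
      abel
    rw [h3] at hx
    exact hx
  · rw [quadForm_scale _ hs, coreInt_scale (lam_pos hs).le hs, h.2.2, lam_rpow_p hp hs]

lemma energy_scale {a : ℝ} {Q : Sp N → ℝ} {p : ℝ} (hp : 2 < p) {u : Sp N → ℝ}
    {g : Sp N → Sp N} {s : ℝ} (hs : 0 < s) (c : Sp N) :
    energy (s ^ 2 * a) (fun x => Q (s • x + c)) p (fun x => lam p s * u (s • x + c))
      (fun x => (lam p s * s) • g (s • x + c)) =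
      (lam p s ^ 2 * s ^ 2 * (s ^ N)⁻¹) * energy a Q p u g := by
  rw [energy, quadForm_scale _ hs, coreInt_scale (lam_pos hs).le hs, lam_rpow_p hp hs, energy]
  ring

lemma IsWeakSol.scale {a : ℝ} {Q : Sp N → ℝ} {p : ℝ} (hp : 2 < p) {u : Sp N → ℝ}
    {g : Sp N → Sp N} (h : IsWeakSol a Q p u g) {s : ℝ} (hs : 0 < s) (c : Sp N) :
    IsWeakSol (s ^ 2 * a) (fun x => Q (s • x + c)) p (fun x => lam p s * u (s • x + c))
      (fun x => (lam p s * s) • g (s • x + c)) := by
  intro φ hφ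
  set ψ : Sp N → ℝ := fun y => 1 * φ (s⁻¹ • y + -(s⁻¹ • c)) with hψ
  have hψt : IsTest ψ := isTest_comp_affine hφ 1 (inv_ne_zero hs.ne') _
  have key := h ψ hψt
  have h3 : ∀ x : Sp N, s⁻¹ • (s • x + c) + -(s⁻¹ • c) = x := by
    intro x
    rw [smul_add, smul_smul, inv_mul_cancel₀ hs.ne', one_smul]
    abel
  have hψφ : ∀ x, ψ (s • x + c) = φ x := by
    intro x
    rw [hψ]
    simp only
    rw [h3, one_mul]
  have hgr : ∀ x, gradient ψ (s • x + c) = s⁻¹ • gradient φ x := by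
    intro x
    rw [hψ, gradient_comp_affine hφ.differentiable, h3, one_mul]
  have hl := lam_pos (p := p) hs
  have e1 := integral_comp_aff hs c (fun y => inner ℝ (g y) (gradient ψ y) + a * u y * ψ y)
  have e2 := integral_comp_aff hs c (fun y => Q y * (|u y| ^ (p - 2) * u y) * ψ y)
  rw [key, ← e2] at e1
  have h4 : (fun x => inner ℝ ((lam p s * s) • g (s • x + c)) (gradient φ x) +
      s ^ 2 * a * (lam p s * u (s • x + c)) * φ x) = fun x => (lam p s * s ^ 2) *
      (inner ℝ (g (s • x + c)) (gradient ψ (s • x + c)) +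
        a * u (s • x + c) * ψ (s • x + c)) := by
    funext x
    rw [hψφ, hgr, inner_smul_left, inner_smul_right]
    simp only [conj_trivial]
    field_simp
  have h5 : (fun x => Q (s • x + c) * (|lam p s * u (s • x + c)| ^ (p - 2) *
      (lam p s * u (s • x + c))) * φ x) = fun x => (lam p s * s ^ 2) *
      (Q (s • x + c) * (|u (s • x + c)| ^ (p - 2) * u (s • x + c)) * ψ (s • x + c)) := by
    funext x
    rw [hψφ, abs_mul, abs_of_nonneg hl.le, Real.mul_rpow hl.le (abs_nonneg _), lam_rpow_p1 hp hs]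
    ring
  rw [h4, h5, integral_const_mul, integral_const_mul, e1]

/-- The inverse of a scaling. -/
lemma scale_inv {F : Type} [AddCommGroup F] [Module ℝ F] {s : ℝ} (hs : 0 < s) (c : Sp N)
    (l l' : ℝ) (hl : l' * l = 1) (f : Sp N → F) :
    (fun x => l' • (fun y => l • f (s⁻¹ • y + -(s⁻¹ • c))) (s • x + c)) = f := by
  funext x
  have h3 : s⁻¹ • (s • x + c) + -(s⁻¹ • c) = x := by
    rw [smul_add, smul_smul, inv_mul_cancel₀ hs.ne', one_smul]
    abel
  simp only
  rw [h3, smul_smul, hl, one_smul]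

lemma lam_mul_inv {p s : ℝ} (hs : 0 < s) : lam p s * lam p s⁻¹ = 1 := by
  rw [lam, lam, ← Real.mul_rpow hs.le (inv_nonneg.mpr hs.le), mul_inv_cancel₀ hs.ne',
    Real.one_rpow]

/-- Least energy solutions scale to least energy solutions. -/
lemma leastEnergy_scale {a : ℝ} {Q : Sp N → ℝ} {p : ℝ} (hp : 2 < p) {u : Sp N → ℝ}
    {g : Sp N → Sp N} (h : ∀ w h, IsNehari a Q p w h → energy a Q p u g ≤ energy a Q p w h)
    {s : ℝ} (hs : 0 < s) (c : Sp N) (w : Sp N → ℝ) (k : Sp N → Sp N)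
    (hw : IsNehari (s ^ 2 * a) (fun x => Q (s • x + c)) p w k) :
    energy (s ^ 2 * a) (fun x => Q (s • x + c)) p (fun x => lam p s * u (s • x + c))
      (fun x => (lam p s * s) • g (s • x + c)) ≤
      energy (s ^ 2 * a) (fun x => Q (s • x + c)) p w k := by
  have hs' : 0 < s⁻¹ := inv_pos.mpr hs
  have hw' := hw.scale hp hs' (-(s⁻¹ • c))
  have hQ : (fun x => Q (s • (s⁻¹ • x + -(s⁻¹ • c)) + c)) = Q := by
    funext x
    congr 1
    rw [smul_add, smul_neg, smul_smul, smul_smul, mul_inv_cancel₀ hs.ne', one_smul, one_smul]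
    abel
  have ha : s⁻¹ ^ 2 * (s ^ 2 * a) = a := by
    field_simp
  rw [ha, hQ] at hw'
  have key := h _ _ hw'
  rw [energy_scale hp hs]
  have h1 := energy_scale (a := a) (Q := Q) hp (u := fun x => lam p s⁻¹ * w (s⁻¹ • x + -(s⁻¹ • c)))
    (g := fun x => (lam p s⁻¹ * s⁻¹) • k (s⁻¹ • x + -(s⁻¹ • c))) hs c
  have h2 := scale_inv hs c (lam p s⁻¹) (lam p s) (lam_mul_inv hs) w
  have h3 := scale_inv hs c (lam p s⁻¹ * s⁻¹) (lam p s * s) (by
    have := lam_mul_inv (p := p) hs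
    calc lam p s * s * (lam p s⁻¹ * s⁻¹) = (lam p s * lam p s⁻¹) * (s * s⁻¹) := by ring
      _ = 1 := by rw [this, mul_inv_cancel₀ hs.ne', one_mul]) k
  simp only [smul_eq_mul] at h2
  rw [h2, h3] at h1
  rw [h1]
  have hl := lam_pos (p := p) hs
  gcongr

/-! ## Periodicity -/

lemma lat_add (k l : Fin N → ℤ) : lat (k + l) = lat k + lat l := by
  ext i
  simp [lat]

lemma coreSign_add_lat (ε : ℝ) (x : Sp N) (k : Fin N → ℤ) :
    coreSign ε (x + lat k) = coreSign ε x := by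
  have h : (∃ l : Fin N → ℤ, dist (x + lat k) (lat l) < ε) ↔
      ∃ l : Fin N → ℤ, dist x (lat l) < ε := by
    constructor
    · rintro ⟨l, hl⟩
      refine ⟨l - k, ?_⟩
      rw [← dist_add_right x _ (lat k), ← lat_add, sub_add_cancel]
      exact hl
    · rintro ⟨l, hl⟩
      refine ⟨l + k, ?_⟩
      rw [lat_add, dist_add_right]
      exact hl
  unfold coreSign
  by_cases hx : ∃ l : Fin N → ℤ, dist x (lat l) < ε
  · rw [if_pos hx, if_pos (h.mpr hx)]
  · rw [if_neg hx, if_neg (fun h' => hx (h.mp h'))]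

/-- The gradient of the rescaled function. -/
noncomputable def rescaleG (p ε : ℝ) (k : Fin N → ℤ) (g : Sp N → Sp N) : Sp N → Sp N :=
  fun x => (lam p ε * ε) • g (ε • x + lat k)

/-- The coefficient in the rescaled picture. -/
noncomputable def Qt (N : ℕ) (ε : ℝ) (x : Sp N) : ℝ := coreSign ε (ε • x)

lemma Qt_eq (ε : ℝ) (k : Fin N → ℤ) :
    (fun x : Sp N => coreSign ε (ε • x + lat k)) = Qt N ε := by
  funext x
  exact coreSign_add_lat ε _ k

/-- `u` is a least energy solution, with gradient `g`. -/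
def IsLES (a : ℝ) (Q : Sp N → ℝ) (p : ℝ) (u : Sp N → ℝ) (g : Sp N → Sp N) : Prop :=
  IsNehari a Q p u g ∧ IsWeakSol a Q p u g ∧
    ∀ (w : Sp N → ℝ) (h : Sp N → Sp N), IsNehari a Q p w h → energy a Q p u g ≤ energy a Q p w h

/-- The rescaled function is a least energy solution of the rescaled equation. -/
lemma IsLES.rescale {p ε : ℝ} (hp : 2 < p) (hε : 0 < ε) {u : Sp N → ℝ} {g : Sp N → Sp N}
    (h : IsLES 1 (coreSign ε) p u g) (k : Fin N → ℤ) :
    IsLES (ε ^ 2) (Qt N ε) p (rescale p ε k u) (rescaleG p ε k g) := by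
  have h4 := h.1.scale hp hε (lat k)
  have h5 := h.2.1.scale hp hε (lat k)
  have h6 := leastEnergy_scale hp h.2.2 hε (lat k)
  rw [Qt_eq, mul_one] at h4 h5
  simp only [Qt_eq, mul_one] at h6
  exact ⟨h4, h5, h6⟩

end Pool.Agent.Lib.MP_bf093f_an
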