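import Pool.Agent.Lib.MP_bf093f_an.Defs

set_option autoImplicit false

/-! # Test functions and the Sobolev inequality -/

namespace Pool.Agent.Lib.MP_bf093f_an

open MeasureTheory Filter Topology
open scoped ContDiff ENNReal NNReal

variable {N : ℕ}

/-! ## Test functions -/

lemma IsTest.continuous {φ : Sp N → ℝ} (h : IsTest φ) : Continuous φ := h.1.continuous

lemma IsTest.differentiable {φ : Sp N → ℝ} (h : IsTest φ) : Differentiable ℝ φ :=
  h.1.differentiable (by simp)

lemma norm_gradient (φ : Sp N → ℝ) (x : Sp N) : ‖gradient φ x‖ = ‖fderiv ℝ φ x‖ := by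
  rw [gradient, LinearIsometryEquiv.norm_map]

lemma IsTest.continuous_gradient {φ : Sp N → ℝ} (h : IsTest φ) : Continuous (gradient φ) := by
  have h1 : Continuous (fderiv ℝ φ) := h.1.continuous_fderiv (by simp)
  exact ((InnerProductSpace.toDual ℝ (Sp N)).symm.continuous).comp h1

lemma IsTest.hasCompactSupport_gradient {φ : Sp N → ℝ} (h : IsTest φ) :
    HasCompactSupport (gradient φ) := by
  have h1 : HasCompactSupport (fderiv ℝ φ) := h.2.fderiv (𝕜 := ℝ)
  exact h1.comp_left (g := (InnerProductSpace.toDual ℝ (Sp N)).symm) (map_zero _)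

lemma IsTest.memLp {φ : Sp N → ℝ} (h : IsTest φ) (r : ℝ≥0∞) : MemLp φ r volume :=
  h.continuous.memLp_of_hasCompactSupport h.2

lemma IsTest.memLp_gradient {φ : Sp N → ℝ} (h : IsTest φ) (r : ℝ≥0∞) :
    MemLp (gradient φ) r volume :=
  h.continuous_gradient.memLp_of_hasCompactSupport h.hasCompactSupport_gradient

lemma isTest_zero : IsTest (fun _ : Sp N => (0 : ℝ)) :=
  ⟨contDiff_const, HasCompactSupport.zero⟩

lemma IsTest.add {φ ψ : Sp N → ℝ} (h : IsTest φ) (h' : IsTest ψ) :
    IsTest (fun x => φ x + ψ x) := ⟨h.1.add h'.1, h.2.add h'.2⟩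

lemma IsTest.const_mul {φ : Sp N → ℝ} (h : IsTest φ) (c : ℝ) :
    IsTest (fun x => c * φ x) := ⟨contDiff_const.mul h.1, h.2.mul_left⟩

lemma IsTest.mul {φ ψ : Sp N → ℝ} (h : ContDiff ℝ ∞ φ) (h' : IsTest ψ) :
    IsTest (fun x => φ x * ψ x) := ⟨h.mul h'.1, h'.2.mul_left⟩

lemma IsTest.sub {φ ψ : Sp N → ℝ} (h : IsTest φ) (h' : IsTest ψ) :
    IsTest (fun x => φ x - ψ x) := ⟨h.1.sub h'.1, h.2.sub h'.2⟩

lemma gradient_add' {φ ψ : Sp N → ℝ} (h : Differentiable ℝ φ) (h' : Differentiable ℝ ψ)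
    (x : Sp N) : gradient (fun x => φ x + ψ x) x = gradient φ x + gradient ψ x := by
  rw [gradient, gradient, gradient, fderiv_fun_add (h x) (h' x), map_add]

lemma gradient_sub' {φ ψ : Sp N → ℝ} (h : Differentiable ℝ φ) (h' : Differentiable ℝ ψ)
    (x : Sp N) : gradient (fun x => φ x - ψ x) x = gradient φ x - gradient ψ x := by
  rw [gradient, gradient, gradient, fderiv_fun_sub (h x) (h' x), map_sub]

lemma gradient_const_mul' {φ : Sp N → ℝ} (h : Differentiable ℝ φ) (c : ℝ)
    (x : Sp N) : gradient (fun x => c * φ x) x = c • gradient φ x := by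
  rw [gradient, gradient, fderiv_const_mul (h x), LinearIsometryEquiv.map_smul]

lemma gradient_mul' {φ ψ : Sp N → ℝ} (h : Differentiable ℝ φ) (h' : Differentiable ℝ ψ)
    (x : Sp N) : gradient (fun x => φ x * ψ x) x = φ x • gradient ψ x + ψ x • gradient φ x := by
  rw [gradient, gradient, gradient, fderiv_fun_mul (h x) (h' x), map_add,
    LinearIsometryEquiv.map_smul, LinearIsometryEquiv.map_smul]

/-! ## Exponents -/

lemma twoStar_pos (hN : 3 ≤ N) : 0 < twoStar N := by
  have h3 : (3 : ℝ) ≤ N := by exact_mod_cast hN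
  unfold twoStar
  have : (0 : ℝ) < N - 2 := by linarith
  positivity

lemma two_lt_twoStar (hN : 3 ≤ N) : 2 < twoStar N := by
  have h3 : (3 : ℝ) ≤ N := by exact_mod_cast hN
  unfold twoStar
  rw [lt_div_iff₀ (by linarith)]
  linarith

lemma inv_twoStar (hN : 3 ≤ N) : (twoStar N)⁻¹ = 2⁻¹ - (N : ℝ)⁻¹ := by
  have h3 : (3 : ℝ) ≤ N := by exact_mod_cast hN
  unfold twoStar
  have : (N : ℝ) - 2 ≠ 0 := by linarith
  have : (N : ℝ) ≠ 0 := by linarith
  field_simp

/-- The critical exponent as an extended nonnegative number. -/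
noncomputable abbrev qs (N : ℕ) : ℝ≥0∞ := ENNReal.ofReal (twoStar N)

lemma one_le_qs (hN : 3 ≤ N) : 1 ≤ qs N := by
  rw [← ENNReal.ofReal_one]
  exact ENNReal.ofReal_le_ofReal (by linarith [two_lt_twoStar hN])

lemma two_le_qs (hN : 3 ≤ N) : 2 ≤ qs N := by
  have : (2 : ℝ≥0∞) = ENNReal.ofReal 2 := by simp
  rw [this]
  exact ENNReal.ofReal_le_ofReal (by linarith [two_lt_twoStar hN])

lemma qs_ne_zero (hN : 3 ≤ N) : qs N ≠ 0 := by
  have := one_le_qs hN
  intro h
  rw [h] at this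
  simp at this

lemma qs_ne_top : qs N ≠ ⊤ := ENNReal.ofReal_ne_top

lemma qs_toReal (hN : 3 ≤ N) : (qs N).toReal = twoStar N :=
  ENNReal.toReal_ofReal (twoStar_pos hN).le

/-! ## The Sobolev inequality -/

/-- The Sobolev constant. -/
noncomputable def sobC (N : ℕ) : ℝ≥0 := SNormLESNormFDerivOfEqConst ℝ (volume : Measure (Sp N)) 2

/-- The Sobolev inequality for `C¹` functions with compact support. -/
lemma sobolev_C1 (hN : 3 ≤ N) {φ : Sp N → ℝ} (h : ContDiff ℝ 1 φ) (h' : HasCompactSupport φ) :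
    eLpNorm φ (qs N) volume ≤ sobC N * eLpNorm (gradient φ) 2 volume := by
  have hfin : Module.finrank ℝ (Sp N) = N := by simp
  have key := eLpNorm_le_eLpNorm_fderiv_of_eq (volume : Measure (Sp N)) h h' (p := 2)
    (p' := (twoStar N).toNNReal) (by norm_num) (by rw [hfin]; omega) (by
      rw [hfin, Real.coe_toNNReal _ (twoStar_pos hN).le, inv_twoStar hN]
      norm_num)
  have e1 : eLpNorm (fderiv ℝ φ) 2 volume = eLpNorm (gradient φ) 2 volume := by
    apply eLpNorm_congr_norm_ae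
    exact Eventually.of_forall fun x => (norm_gradient φ x).symm
  have e2 : ((2 : ℝ≥0) : ℝ≥0∞) = 2 := rfl
  rw [e2, e1] at key
  exact key

lemma sobolev_test (hN : 3 ≤ N) {φ : Sp N → ℝ} (h : IsTest φ) :
    eLpNorm φ (qs N) volume ≤ sobC N * eLpNorm (gradient φ) 2 volume :=
  sobolev_C1 hN (h.1.of_le (by simp)) h.2

/-! ## The Hilbert space of gradients -/

/-- The space of test functions. -/
def testSpace (N : ℕ) : Submodule ℝ (Sp N → ℝ) where
  carrier := {φ | IsTest φ}
  add_mem' := fun h h' => h.add h'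
  zero_mem' := isTest_zero
  smul_mem' := fun c _ h => h.const_mul c

/-- The gradient of a test function, as an element of `L²`. -/
noncomputable def gradL (N : ℕ) : testSpace N →ₗ[ℝ] Lp (Sp N) 2 (volume : Measure (Sp N)) where
  toFun φ := (IsTest.memLp_gradient φ.2 2).toLp (gradient φ.1)
  map_add' φ ψ := by
    rw [← MemLp.toLp_add]
    congr 1
    funext x
    exact gradient_add' (IsTest.differentiable φ.2) (IsTest.differentiable ψ.2) x
  map_smul' c φ := by
    rw [RingHom.id_apply, ← MemLp.toLp_const_smul]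
    congr 1
    funext x
    exact gradient_const_mul' (IsTest.differentiable φ.2) c x

/-- The closure in `L²` of the gradients of test functions. -/
noncomputable def gradSpace (N : ℕ) : Submodule ℝ (Lp (Sp N) 2 (volume : Measure (Sp N))) :=
  (LinearMap.range (gradL N)).topologicalClosure

/-- The gradient of a test function, as an element of `gradSpace`. -/
noncomputable def gradG (N : ℕ) : testSpace N →ₗ[ℝ] gradSpace N :=
  (gradL N).codRestrict (gradSpace N) fun φ =>
    Submodule.le_topologicalClosure _ (LinearMap.mem_range_self _ φ)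

lemma denseRange_gradG : DenseRange (gradG N) := by
  rw [DenseRange, Subtype.dense_iff]
  intro x hx
  have hx' : x ∈ closure (LinearMap.range (gradL N) : Set _) := hx
  refine closure_mono ?_ hx'
  rintro _ ⟨φ, rfl⟩
  exact ⟨gradG N φ, ⟨φ, rfl⟩, rfl⟩

instance : CompleteSpace (gradSpace N) :=
  (Submodule.isClosed_topologicalClosure _).completeSpace_coe

variable [hN : Fact (3 ≤ N)]

instance : Fact (1 ≤ qs N) := ⟨one_le_qs hN.out⟩

/-- A test function, as an element of `L^{2*}`. -/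
noncomputable def embL (N : ℕ) [Fact (3 ≤ N)] :
    testSpace N →ₗ[ℝ] Lp ℝ (qs N) (volume : Measure (Sp N)) where
  toFun φ := (IsTest.memLp φ.2 (qs N)).toLp φ.1
  map_add' φ ψ := by
    rw [← MemLp.toLp_add]; rfl
  map_smul' c φ := by
    rw [RingHom.id_apply, ← MemLp.toLp_const_smul]; rfl

lemma norm_embL_le (φ : testSpace N) : ‖embL N φ‖ ≤ sobC N * ‖gradG N φ‖ := by
  have h1 : ‖embL N φ‖ = (eLpNorm φ.1 (qs N) volume).toReal :=
    Lp.norm_toLp φ.1 (IsTest.memLp φ.2 (qs N))
  have h2 : ‖gradG N φ‖ = (eLpNorm (gradient φ.1) 2 volume).toReal :=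
    Lp.norm_toLp (gradient φ.1) (IsTest.memLp_gradient φ.2 2)
  rw [h1, h2]
  have h3 := sobolev_test hN.out φ.2
  have h4 := ENNReal.toReal_mono (ENNReal.mul_ne_top ENNReal.coe_ne_top
    (IsTest.memLp_gradient φ.2 2).eLpNorm_ne_top) h3
  rw [ENNReal.toReal_mul] at h4
  exact h4

/-- The Sobolev embedding, from gradients to functions. -/
noncomputable def sobS (N : ℕ) [Fact (3 ≤ N)] :
    gradSpace N →L[ℝ] Lp ℝ (qs N) (volume : Measure (Sp N)) :=
  (embL N).extendOfNorm (gradG N)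

lemma sobS_gradG (φ : testSpace N) : sobS N (gradG N φ) = embL N φ :=
  LinearMap.extendOfNorm_eq denseRange_gradG ⟨sobC N, norm_embL_le⟩ φ

lemma norm_sobS_le (G : gradSpace N) : ‖sobS N G‖ ≤ sobC N * ‖G‖ :=
  LinearMap.norm_extendOfNorm_apply_le denseRange_gradG _ norm_embL_le G

omit hN in
lemma tendsto_toLp {F : Type} [NormedAddCommGroup F] {r : ℝ≥0∞} [Fact (1 ≤ r)]
    {f : ℕ → Sp N → F} {g : Sp N → F}
    (hf : ∀ n, MemLp (f n) r volume) (hg : MemLp g r volume)
    (h : Tendsto (fun n => eLpNorm (fun x => f n x - g x) r volume) atTop (𝓝 0)) :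
    Tendsto (fun n => (hf n).toLp (f n)) atTop (𝓝 (hg.toLp g)) := by
  rw [tendsto_iff_edist_tendsto_0]
  have : (fun n => edist ((hf n).toLp (f n)) (hg.toLp g))
      = fun n => eLpNorm (fun x => f n x - g x) r volume := by
    funext n
    rw [Lp.edist_toLp_toLp]
    rfl
  rw [this]
  exact h

omit hN in
lemma IsD12.toLp_mem {u : Sp N → ℝ} {g : Sp N → Sp N} (h : IsD12 u g) :
    h.2.1.toLp g ∈ gradSpace N := by
  obtain ⟨hu, hg, φ, hφ, h1, h2⟩ := h
  have h3 := tendsto_toLp (fun n => (hφ n).memLp_gradient 2) hg h2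
  have h4 : ∀ n, ((hφ n).memLp_gradient 2).toLp (gradient (φ n)) ∈ (gradSpace N : Set _) :=
    fun n => (gradG N ⟨φ n, hφ n⟩).2
  exact (Submodule.isClosed_topologicalClosure _).mem_of_tendsto h3 (Eventually.of_forall h4)

/-- The gradient of a `D^{1,2}` function as an element of `gradSpace`. -/
noncomputable def IsD12.grad {u : Sp N → ℝ} {g : Sp N → Sp N} (h : IsD12 u g) : gradSpace N :=
  ⟨h.2.1.toLp g, h.toLp_mem⟩

lemma IsD12.sobS_grad {u : Sp N → ℝ} {g : Sp N → Sp N} (h : IsD12 u g) :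
    sobS N h.grad = h.1.toLp u := by
  obtain ⟨φ, hφ, h1, h2⟩ := h.2.2
  have h3 := tendsto_toLp (fun n => (hφ n).memLp_gradient 2) h.2.1 h2
  have h4 := tendsto_toLp (fun n => (hφ n).memLp (qs N)) h.1 h1
  have h5 : Tendsto (fun n => gradG N ⟨φ n, hφ n⟩) atTop (𝓝 h.grad) :=
    tendsto_subtype_rng.mpr h3
  have h6 := ((sobS N).continuous.tendsto h.grad).comp h5
  have h7 : (sobS N) ∘ (fun n => gradG N ⟨φ n, hφ n⟩)
      = fun n => ((hφ n).memLp (qs N)).toLp (φ n) := by
    funext n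
    exact sobS_gradG _
  rw [h7] at h6
  exact tendsto_nhds_unique h6 h4

/-- Conversely, an element of `gradSpace` gives a `D^{1,2}` function. -/
lemma isD12_of_gradSpace (G : gradSpace N) : IsD12 (sobS N G : Sp N → ℝ) (G.1 : Sp N → Sp N) := by
  obtain ⟨y, hy⟩ := mem_closure_iff_seq_limit.mp (denseRange_gradG (N := N) G)
  obtain ⟨hy1, hy2⟩ := hy
  choose φ hφ using hy1
  have hlim : Tendsto (fun n => gradG N (φ n)) atTop (𝓝 G) := by
    simpa only [hφ] using hy2
  refine ⟨Lp.memLp _, Lp.memLp _, fun n => (φ n).1, fun n => (φ n).2, ?_, ?_⟩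
  · have h6 := ((sobS N).continuous.tendsto G).comp hlim
    have h7 : (sobS N) ∘ (fun n => gradG N (φ n)) = fun n => embL N (φ n) := by
      funext n
      exact sobS_gradG _
    rw [h7] at h6
    have h8 := tendsto_iff_edist_tendsto_0.mp h6
    refine h8.congr fun n => ?_
    rw [Lp.edist_def]
    apply eLpNorm_congr_ae
    filter_upwards [(IsTest.memLp (φ n).2 (qs N)).coeFn_toLp] with x hx
    change (embL N (φ n) : Sp N → ℝ) x - _ = _
    rw [show (embL N (φ n) : Sp N → ℝ) x = (φ n).1 x from hx]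
  · have h6 : Tendsto (fun n => (gradG N (φ n)).1) atTop (𝓝 G.1) :=
      (continuous_subtype_val.tendsto G).comp hlim
    have h8 := tendsto_iff_edist_tendsto_0.mp h6
    refine h8.congr fun n => ?_
    rw [Lp.edist_def]
    apply eLpNorm_congr_ae
    filter_upwards [(IsTest.memLp_gradient (φ n).2 2).coeFn_toLp] with x hx
    change ((gradG N (φ n)).1 : Sp N → Sp N) x - _ = _
    rw [show ((gradG N (φ n)).1 : Sp N → Sp N) x = gradient (φ n).1 x from hx]

/-- The Sobolev inequality in `D^{1,2}`. -/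
lemma IsD12.sobolev {u : Sp N → ℝ} {g : Sp N → Sp N} (h : IsD12 u g) :
    eLpNorm u (qs N) volume ≤ sobC N * eLpNorm g 2 volume := by
  have h1 := norm_sobS_le h.grad
  rw [h.sobS_grad] at h1
  have h2 : ‖h.1.toLp u‖ = (eLpNorm u (qs N) volume).toReal := Lp.norm_toLp _ _
  have h3 : ‖h.grad‖ = (eLpNorm g 2 volume).toReal := Lp.norm_toLp _ h.2.1
  rw [h2, h3] at h1
  rw [← ENNReal.toReal_le_toReal h.1.eLpNorm_ne_top
    (ENNReal.mul_ne_top ENNReal.coe_ne_top h.2.1.eLpNorm_ne_top), ENNReal.toReal_mul]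
  exact h1

end Pool.Agent.Lib.MP_bf093f_an
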