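import Pool.Agent.Lib.MP_bf093f_an.Energy

set_option autoImplicit false

/-! # Strong convergence in `L^p` -/

namespace Pool.Agent.Lib.MP_bf093f_an

open MeasureTheory Filter Topology Metric
open scoped ContDiff ENNReal NNReal

variable {N : ℕ}

/-- The cores other than the central one. -/
def others (N : ℕ) (ε : ℝ) : Set (Sp N) :=
  ⋃ k : {k : Fin N → ℤ // k ≠ 0}, ball (cen ε k.1) 1

lemma cores_eq (ε : ℝ) : cores N ε = ball (0 : Sp N) 1 ∪ others N ε := by
  ext x
  simp only [cores, others, Set.mem_union, Set.mem_iUnion]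
  constructor
  · rintro ⟨k, hk⟩
    rcases eq_or_ne k 0 with h | h
    · left
      rwa [h, cen_zero] at hk
    · right
      exact ⟨⟨k, h⟩, hk⟩
  · rintro (h | ⟨k, hk⟩)
    · exact ⟨0, by rwa [cen_zero]⟩
    · exact ⟨k.1, hk⟩

lemma one_div_atTop {ε : ℕ → ℝ} (hε : ∀ n, 0 < ε n) (hlim : Tendsto ε atTop (𝓝 0)) :
    Tendsto (fun n => 1 / ε n) atTop atTop := by
  simp_rw [one_div]
  exact (tendsto_nhdsWithin_iff.mpr ⟨hlim, Eventually.of_forall hε⟩).inv_tendsto_nhdsGT_zero

lemma eLpNorm_le_add_compl {F : Type} [NormedAddCommGroup F] {r : ℝ≥0∞} (hr : 1 ≤ r)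
    {f : Sp N → F} (hf : AEStronglyMeasurable f volume) {S : Set (Sp N)} (hS : MeasurableSet S) :
    eLpNorm f r volume ≤ eLpNorm f r (volume.restrict S) + eLpNorm f r (volume.restrict Sᶜ) := by
  rw [← eLpNorm_indicator_eq_eLpNorm_restrict hS,
    ← eLpNorm_indicator_eq_eLpNorm_restrict hS.compl]
  refine le_trans (le_of_eq ?_) (eLpNorm_add_le (hf.indicator hS) (hf.indicator hS.compl) hr)
  rw [Set.indicator_self_add_compl]

/-- Vanishing at infinity and convergence of the norm imply strong convergence. -/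
lemma tendsto_of_norm {p : ℝ} (hp : 1 ≤ p) {f : ℕ → Sp N → ℝ} {f' : Sp N → ℝ}
    (hf : ∀ n, MemLp (f n) (ENNReal.ofReal p) volume) (hf' : MemLp f' (ENNReal.ofReal p) volume)
    (hloc : ∀ R : ℝ, Tendsto (fun n => eLpNorm (fun x => f n x - f' x) (ENNReal.ofReal p)
      (volume.restrict (ball 0 R))) atTop (𝓝 0))
    (hnorm : Tendsto (fun n => ∫ x, |f n x| ^ p) atTop (𝓝 (∫ x, |f' x| ^ p))) :
    Tendsto (fun n => eLpNorm (fun x => f n x - f' x) (ENNReal.ofReal p) volume) atTop (𝓝 0) := by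
  have hp0 : 0 < p := by linarith
  have hP := one_le_ofReal hp
  -- the tails
  have htail : ∀ R : ℝ, Tendsto (fun n => eLpNorm (f n) (ENNReal.ofReal p)
      (volume.restrict (ball 0 R)ᶜ)) atTop
      (𝓝 (eLpNorm f' (ENNReal.ofReal p) (volume.restrict (ball 0 R)ᶜ))) := by
    intro R
    have hm : MeasurableSet (ball (0 : Sp N) R) := measurableSet_ball
    have e : ∀ {k : Sp N → ℝ}, MemLp k (ENNReal.ofReal p) volume →
        ∫ x in (ball (0 : Sp N) R)ᶜ, |k x| ^ p =
          (∫ x, |k x| ^ p) - ∫ x in ball (0 : Sp N) R, |k x| ^ p := by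
      intro k hk
      rw [← integral_add_compl hm (integrable_abs_rpow hp0 hk)]
      ring
    have h1 : Tendsto (fun n => ∫ x in ball (0 : Sp N) R, |f n x| ^ p) atTop
        (𝓝 (∫ x in ball (0 : Sp N) R, |f' x| ^ p)) := by
      rw [integral_abs_rpow hp0 hf'.1.restrict]
      have h2 := tendsto_toReal_rpow hp0 (hf'.restrict (ball 0 R)).eLpNorm_ne_top
        (tendsto_eLpNorm hP (fun n => (hf n).restrict _) (hf'.restrict _) (hloc R))
      exact h2.congr fun n => (integral_abs_rpow hp0 (hf n).1.restrict).symm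
    have h3 : Tendsto (fun n => ∫ x in (ball (0 : Sp N) R)ᶜ, |f n x| ^ p) atTop
        (𝓝 (∫ x in (ball (0 : Sp N) R)ᶜ, |f' x| ^ p)) := by
      rw [e hf']
      exact (hnorm.sub h1).congr fun n => (e (hf n)).symm
    have e2 : ∀ {k : Sp N → ℝ}, MemLp k (ENNReal.ofReal p) volume →
        eLpNorm k (ENNReal.ofReal p) (volume.restrict (ball 0 R)ᶜ) =
          ENNReal.ofReal ((∫ x in (ball (0 : Sp N) R)ᶜ, |k x| ^ p) ^ (1 / p)) := by
      intro k hk
      rw [integral_abs_rpow hp0 hk.1.restrict, ← Real.rpow_mul ENNReal.toReal_nonneg,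
        mul_one_div_cancel hp0.ne', Real.rpow_one,
        ENNReal.ofReal_toReal (hk.restrict _).eLpNorm_ne_top]
    rw [e2 hf']
    have h4 := ENNReal.tendsto_ofReal (h3.rpow_const (p := 1 / p) (Or.inr (by positivity)))
    exact h4.congr fun n => (e2 (hf n)).symm
  rw [ENNReal.tendsto_nhds_zero]
  intro η hη
  have hη3 : 0 < η / 3 := ENNReal.div_pos hη.ne' (by norm_num)
  obtain ⟨m, hm⟩ := ((tendsto_tail (ofReal_ne_zero_of_pos hp0) ENNReal.ofReal_ne_top hf'
    (ρ := fun m : ℕ => (m : ℝ)) tendsto_natCast_atTop_atTop).eventually_lt_const hη3).exists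
  filter_upwards [(htail m).eventually_lt_const hm,
    ENNReal.tendsto_nhds_zero.mp (hloc m) _ hη3] with n hn1 hn2
  have hd : AEStronglyMeasurable (fun x => f n x - f' x) volume := (hf n).1.sub hf'.1
  calc eLpNorm (fun x => f n x - f' x) (ENNReal.ofReal p) volume
      ≤ eLpNorm (fun x => f n x - f' x) (ENNReal.ofReal p) (volume.restrict (ball 0 m)) +
        eLpNorm (fun x => f n x - f' x) (ENNReal.ofReal p) (volume.restrict (ball 0 m)ᶜ) :=
        eLpNorm_le_add_compl hP hd measurableSet_ball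
    _ ≤ η / 3 + (η / 3 + η / 3) := by
        refine add_le_add hn2 ?_
        exact (eLpNorm_sub_le (hf n).1.restrict hf'.1.restrict hP).trans
          (add_le_add hn1.le hm.le)
    _ = η := by
        rw [← add_assoc]
        exact ENNReal.add_thirds η

variable [hN : Fact (3 ≤ N)]

/-- The tail of the energy density goes to zero. -/
lemma LimitData.tendsto_dens_tail {p : ℝ} (hp : 2 < p) (hp' : p < twoStar N) {ε : ℕ → ℝ}
    {V : ℕ → Sp N → ℝ} {W : ℕ → Sp N → Sp N} {v : Sp N → ℝ} {g : Sp N → Sp N}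
    (h : LimitData p ε V W v g) (hv : ¬ v =ᵐ[volume] 0) :
    Tendsto (fun n => ∫⁻ x in (ball (0 : Sp N) (1 / (3 * ε n)))ᶜ, dens (ε n) (V n) (W n) x)
      atTop (𝓝 0) := by
  obtain ⟨-, -, h1, h2⟩ := h.energies hp hp' hv
  have hg : MemLp g 2 volume := h.hv.2.1
  have hWm : ∀ n, MemLp (W n) 2 volume := fun n => (h.les n).1.1.2.1
  have hρ : Tendsto (fun n => 1 / (3 * ε n)) atTop atTop := by
    have h3 : (fun n => 1 / (3 * ε n)) = fun n => (1 / 3) * (1 / ε n) := by
      funext n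
      field_simp
    rw [h3]
    exact (one_div_atTop h.eps_pos h.eps_lim).const_mul_atTop (by norm_num)
  have h3 : Tendsto (fun n => (eLpNorm (fun x => W n x - g x) 2 volume +
      eLpNorm g 2 (volume.restrict (ball 0 (1 / (3 * ε n)))ᶜ)) ^ 2 +
      ENNReal.ofReal (ε n ^ 2 * ∫ x, V n x ^ 2)) atTop (𝓝 0) := by
    have h4 := ENNReal.Tendsto.pow (n := 2) (h1.add (tendsto_tail (by norm_num) (by norm_num) hg hρ))
    have h5 := ENNReal.tendsto_ofReal h2
    rw [ENNReal.ofReal_zero] at h5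
    have h6 := h4.add h5
    simpa using h6
  refine tendsto_of_tendsto_of_tendsto_of_le_of_le tendsto_const_nhds h3 (fun _ => bot_le)
    fun n => ?_
  have hε := h.eps_pos n
  set T := (ball (0 : Sp N) (1 / (3 * ε n)))ᶜ with hT
  have e1 : ∫⁻ x in T, dens (ε n) (V n) (W n) x =
      (∫⁻ x in T, ‖W n x‖ₑ ^ 2) + ENNReal.ofReal (ε n) ^ 2 * ∫⁻ x in T, ‖V n x‖ₑ ^ 2 := by
    unfold dens
    rw [lintegral_add_left' ((hWm n).1.enorm.pow_const 2).restrict, lintegral_const_mul']
    finiteness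
  rw [e1]
  refine add_le_add ?_ ?_
  · rw [lintegral_sq_eq]
    gcongr
    have h4 := eLpNorm_add_le (μ := volume.restrict T) (f := fun x => W n x - g x) (g := g)
      (((hWm n).1.sub hg.1).restrict) hg.1.restrict (p := 2) (by norm_num)
    have e2 : (fun x => W n x - g x) + g = W n := by
      funext x
      simp
    rw [e2] at h4
    refine h4.trans ?_
    gcongr
    exact Measure.restrict_le_self
  · calc ENNReal.ofReal (ε n) ^ 2 * ∫⁻ x in T, ‖V n x‖ₑ ^ 2
        ≤ ENNReal.ofReal (ε n) ^ 2 * ∫⁻ x, ‖V n x‖ₑ ^ 2 := by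
          gcongr
          exact Measure.restrict_le_self
      _ = ENNReal.ofReal (ε n ^ 2 * ∫ x, V n x ^ 2) := by
          rw [ENNReal.ofReal_mul (sq_nonneg _), ENNReal.ofReal_pow hε.le,
            ofReal_integral_eq_lintegral_ofReal (h.les n).1.1.1.integrable_sq
              (Eventually.of_forall fun x => sq_nonneg _)]
          congr 1
          apply lintegral_congr
          intro x
          rw [← sq_abs, ENNReal.ofReal_pow (abs_nonneg _), ← Real.norm_eq_abs, ofReal_norm]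

lemma LimitData.tendsto_others {p : ℝ} (hp : 2 < p) (hp' : p < twoStar N) {ε : ℕ → ℝ}
    {V : ℕ → Sp N → ℝ} {W : ℕ → Sp N → Sp N} {v : Sp N → ℝ} {g : Sp N → Sp N}
    (h : LimitData p ε V W v g) (hv : ¬ v =ᵐ[volume] 0) :
    Tendsto (fun n => ∫⁻ x in others N (ε n), ‖V n x‖ₑ ^ p) atTop (𝓝 0) := by
  obtain ⟨C, hC⟩ := h.bdd
  set M : ℝ≥0∞ := holdC N p * (sobC N * ENNReal.ofReal √C) with hM
  have hMtop : M ≠ ⊤ := ENNReal.mul_ne_top (holdC_ne_top (by linarith) hp')
    (ENNReal.mul_ne_top ENNReal.coe_ne_top ENNReal.ofReal_ne_top)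
  have hMb : ∀ n c, eLpNorm (V n) (ENNReal.ofReal p) (volume.restrict (ball c 1)) ≤ M := by
    intro n c
    refine (eLpNorm_ball_p_le (by linarith) hp' c (h.les n).1.1.1.1).trans ?_
    rw [hM]
    gcongr
    calc eLpNorm (V n) (qs N) (volume.restrict (ball c 1)) ≤ eLpNorm (V n) (qs N) volume :=
          eLpNorm_mono_measure _ Measure.restrict_le_self
      _ ≤ sobC N * eLpNorm (W n) 2 volume := (h.les n).1.1.isD12.sobolev
      _ ≤ _ := by
          gcongr
          exact (h.les n).1.1.eLpNorm_grad_le (h.eps_pos n).le (hC n)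
  have hlim : Tendsto (fun n => M ^ (p - 2) * (holdC N p ^ 2 * cellK N) *
      ∫⁻ x in (ball (0 : Sp N) (1 / (3 * ε n)))ᶜ, dens (ε n) (V n) (W n) x) atTop (𝓝 0) := by
    have h1 : M ^ (p - 2) * (holdC N p ^ 2 * cellK N) ≠ ⊤ := by
      have h2 := holdC_ne_top (N := N) (by linarith : 0 < p) hp'
      have h3 := cellK_ne_top (N := N)
      have h4 : M ^ (p - 2) ≠ ⊤ := ENNReal.rpow_ne_top_of_nonneg (by linarith) hMtop
      finiteness
    have h2 := ENNReal.Tendsto.const_mul (h.tendsto_dens_tail hp hp' hv) (Or.inr h1)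
    rwa [mul_zero] at h2
  have hev : ∀ᶠ n in atTop, ε n ≤ 1 / 4 :=
    h.eps_lim.eventually (eventually_le_nhds (show (0 : ℝ) < 1 / 4 by norm_num))
  refine tendsto_of_tendsto_of_tendsto_of_le_of_le' tendsto_const_nhds hlim
    (Eventually.of_forall fun _ => bot_le) ?_
  filter_upwards [hev] with n hn
  have hε := h.eps_pos n
  calc ∫⁻ x in others N (ε n), ‖V n x‖ₑ ^ p
      ≤ ∑' k : {k : Fin N → ℤ // k ≠ 0}, ∫⁻ x in ball (cen (ε n) k.1) 1, ‖V n x‖ₑ ^ p :=
        lintegral_iUnion_le _ _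
    _ ≤ ∑' k : {k : Fin N → ℤ // k ≠ 0}, M ^ (p - 2) * (holdC N p ^ 2 * cellK N) *
          ∫⁻ x in cell (ε n) (cen (ε n) k.1), dens (ε n) (V n) (W n) x := by
        refine ENNReal.tsum_le_tsum fun k => ?_
        refine ((h.les n).1.1.lintegral_ball_le hp hp' hε hn _).trans ?_
        rw [mul_assoc (M ^ (p - 2))]
        refine mul_le_mul' ?_ le_rfl
        exact ENNReal.rpow_le_rpow (hMb n _) (by linarith)
    _ = M ^ (p - 2) * (holdC N p ^ 2 * cellK N) *
          ∫⁻ x in ⋃ k : {k : Fin N → ℤ // k ≠ 0}, cell (ε n) (cen (ε n) k.1),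
            dens (ε n) (V n) (W n) x := by
        rw [ENNReal.tsum_mul_left, lintegral_iUnion (fun k => measurableSet_cell)]
        intro k l hkl
        exact pairwise_disjoint_cell hε (fun h' => hkl (Subtype.ext h'))
    _ ≤ M ^ (p - 2) * (holdC N p ^ 2 * cellK N) *
          ∫⁻ x in (ball (0 : Sp N) (1 / (3 * ε n)))ᶜ, dens (ε n) (V n) (W n) x := by
        refine mul_le_mul' le_rfl (lintegral_mono_set ?_)
        intro x hx hx'
        rw [Set.mem_iUnion] at hx
        obtain ⟨k, hk⟩ := hx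
        have h1 := pairwise_disjoint_cell hε k.2
        have h2 : x ∈ cell (ε n) (cen (ε n) (0 : Fin N → ℤ)) := by
          rw [cen_zero]
          exact ball_subset_closedBall hx'
        exact Set.disjoint_left.mp h1 hk h2

/-- Strong convergence in `L^p`. -/
lemma LimitData.strong {p : ℝ} (hp : 2 < p) (hp' : p < twoStar N) {ε : ℕ → ℝ}
    {V : ℕ → Sp N → ℝ} {W : ℕ → Sp N → Sp N} {v : Sp N → ℝ} {g : Sp N → Sp N}
    (h : LimitData p ε V W v g) (hv : ¬ v =ᵐ[volume] 0) :
    MemLp v (ENNReal.ofReal p) volume ∧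
    Tendsto (fun n => eLpNorm (fun x => V n x - v x) (ENNReal.ofReal p) volume) atTop (𝓝 0) ∧
    Tendsto (fun n => eLpNorm (fun x => W n x - g x) 2 volume) atTop (𝓝 0) := by
  obtain ⟨hBA, hm, h1, h2⟩ := h.energies hp hp' hv
  obtain ⟨hvp, -⟩ := h.memLp_and_le hp hp'
  have hp0 : 0 < p := by linarith
  have hp1 : 1 ≤ p := by linarith
  have hVp : ∀ n, MemLp (V n) (ENNReal.ofReal p) volume := fun n => (h.les n).1.1.memLp_p hp hp'
  refine ⟨hvp, ?_, h1⟩
  apply tendsto_of_norm hp1 hVp hvp h.strongp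
  -- convergence of the core part
  have hball : Tendsto (fun n => ∫⁻ x in ball (0 : Sp N) 1, ‖V n x‖ₑ ^ p) atTop
      (𝓝 (∫⁻ x in ball (0 : Sp N) 1, ‖v x‖ₑ ^ p)) := by
    simp only [eLpNorm_pow_eq hp0]
    exact (tendsto_eLpNorm (one_le_ofReal hp1) (fun n => (hVp n).restrict _) (hvp.restrict _)
      (h.strongp 1)).ennrpow_const p
  have hcore : Tendsto (fun n => ∫⁻ x in cores N (ε n), ‖V n x‖ₑ ^ p) atTop
      (𝓝 (∫⁻ x in ball (0 : Sp N) 1, ‖v x‖ₑ ^ p)) := by
    have h3 := hball.add (h.tendsto_others hp hp' hv)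
    rw [add_zero] at h3
    refine tendsto_of_tendsto_of_tendsto_of_le_of_le hball h3 (fun n => ?_) fun n => ?_
    · apply lintegral_mono_set
      rw [cores_eq]
      exact Set.subset_union_left
    · dsimp only
      rw [cores_eq]
      exact lintegral_union_le _ _ _
  have hcoreR : Tendsto (fun n => ∫ x in cores N (ε n), |V n x| ^ p) atTop
      (𝓝 (∫ x in ball (0 : Sp N) 1, |v x| ^ p)) := by
    have e : ∀ {k : Sp N → ℝ} (S : Set (Sp N)), MemLp k (ENNReal.ofReal p) volume →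
        ∫ x in S, |k x| ^ p = (∫⁻ x in S, ‖k x‖ₑ ^ p).toReal := by
      intro k S hk
      rw [lintegral_rpow_eq_ofReal hp0 (hk.restrict S), ENNReal.toReal_ofReal
        (integral_nonneg fun x => by positivity)]
    rw [e _ hvp]
    have hne : ∫⁻ x in ball (0 : Sp N) 1, ‖v x‖ₑ ^ p ≠ ⊤ := by
      rw [lintegral_rpow_eq_ofReal hp0 (hvp.restrict _)]
      exact ENNReal.ofReal_ne_top
    exact ((ENNReal.tendsto_toReal hne).comp hcore).congr fun n => (e _ (hVp n)).symm
  -- the total norms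
  have e1 : ∀ n, ∫ x, |V n x| ^ p = 2 * (∫ x in cores N (ε n), |V n x| ^ p) -
      quadForm (ε n ^ 2) (V n) (W n) := by
    intro n
    have h3 := (h.les n).1.2.2
    rw [coreInt_split (Q := Qt N (ε n)) hp0 measurableSet_cores
      (fun x hx => coreSign_of_mem (h.eps_pos n) hx)
      (fun x hx => coreSign_of_notMem (h.eps_pos n) hx) (hVp n)] at h3
    rw [h3, ← integral_add_compl (measurableSet_cores (N := N) (ε := ε n))
      (integrable_abs_rpow hp0 (hVp n))]
    ring
  have e2 : ∫ x, |v x| ^ p = 2 * (∫ x in ball (0 : Sp N) 1, |v x| ^ p) -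
      ∫ x, inner ℝ (g x) (g x) := by
    rw [← hBA, coreInt_split hp0 measurableSet_ball (fun x hx => Qlim_of_mem hx)
      (fun x hx => Qlim_of_notMem hx) hvp, ← integral_add_compl
      (measurableSet_ball (x := (0 : Sp N)) (ε := 1)) (integrable_abs_rpow hp0 hvp)]
    ring
  rw [e2]
  exact ((hcoreR.const_mul 2).sub hm).congr fun n => (e1 n).symm

end Pool.Agent.Lib.MP_bf093f_an
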