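import Pool.Agent.Lib.MP_bf093f_an.Strong

set_option autoImplicit false

/-! # Uniqueness of the gradient, and the strong convergence theorem -/

namespace Pool.Agent.Lib.MP_bf093f_an

open MeasureTheory Filter Topology Metric
open scoped ContDiff ENNReal NNReal

variable {N : ℕ}

lemma inner_gradient (φ : Sp N → ℝ) (x e : Sp N) :
    inner ℝ (gradient φ x) e = fderiv ℝ φ x e := by
  rw [gradient, InnerProductSpace.toDual_symm_apply]

lemma test_by_parts {φ ψ : Sp N → ℝ} (hφ : IsTest φ) (hψ : IsTest ψ) (e : Sp N) :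
    ∫ x, φ x * inner ℝ (gradient ψ x) e = - ∫ x, inner ℝ (gradient φ x) e * ψ x := by
  simp only [inner_gradient]
  have hc : ∀ {k : Sp N → ℝ}, IsTest k → Continuous fun x => fderiv ℝ k x e := by
    intro k hk
    exact (hk.1.continuous_fderiv (by simp)).clm_apply continuous_const
  apply integral_mul_fderiv_eq_neg_fderiv_mul_of_integrable
  · apply Continuous.integrable_of_hasCompactSupport ((hc hφ).mul hψ.continuous)
    exact hψ.2.mul_left
  · apply Continuous.integrable_of_hasCompactSupport (hφ.continuous.mul (hc hψ))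
    exact hφ.2.mul_right
  · apply Continuous.integrable_of_hasCompactSupport (hφ.continuous.mul hψ.continuous)
    exact hψ.2.mul_left
  · exact fun x _ => hφ.differentiable x
  · exact fun x _ => hψ.differentiable x

variable [hN : Fact (3 ≤ N)]

lemma IsD12.by_parts {u : Sp N → ℝ} {g : Sp N → Sp N} (h : IsD12 u g) {φ : Sp N → ℝ}
    (hφ : IsTest φ) (e : Sp N) :
    ∫ x, inner ℝ (φ x • e) (g x) = - ∫ x, inner ℝ (gradient φ x) e * u x := by
  obtain ⟨ψ, hψ, h1, h2⟩ := h.2.2
  have hq1 : 1 < twoStar N := by linarith [two_lt_twoStar hN.out]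
  have hce : Continuous fun x => inner ℝ (gradient φ x) e := hφ.continuous_gradient.inner continuous_const
  have m1 : MemLp (fun x => φ x • e) 2 volume :=
    (hφ.continuous.smul continuous_const).memLp_of_hasCompactSupport hφ.2.smul_right
  have hs : HasCompactSupport fun x => inner ℝ (gradient φ x) e := by
    have := hφ.hasCompactSupport_gradient.comp_left (g := fun y : Sp N => inner ℝ y e)
      (inner_zero_left _)
    exact this
  have m2 : MemLp (fun x => inner ℝ (gradient φ x) e)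
      (ENNReal.ofReal (twoStar N / (twoStar N - 1))) volume :=
    hce.memLp_of_hasCompactSupport hs
  have t1 := tendsto_integral_inner m1 (fun n => (hψ n).memLp_gradient 2) h.2.1 h2
  have t2 := tendsto_integral_mul_p hq1 m2 (fun n => (hψ n).memLp _) h.1 h1
  have e1 : ∀ n, ∫ x, inner ℝ (φ x • e) (gradient (ψ n) x) =
      - ∫ x, inner ℝ (gradient φ x) e * ψ n x := by
    intro n
    rw [← test_by_parts hφ (hψ n) e]
    congr 1
    funext x
    rw [inner_smul_left, real_inner_comm]
    simp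
  exact tendsto_nhds_unique (t1.congr e1) t2.neg

/-- The gradient is unique. -/
lemma IsD12.unique {u u' : Sp N → ℝ} {g g' : Sp N → Sp N} (h : IsD12 u g) (h' : IsD12 u' g')
    (hu : u =ᵐ[volume] u') : g =ᵐ[volume] g' := by
  have key : ∀ e : Sp N, ∀ᵐ x, inner ℝ e (g x - g' x) = 0 := by
    intro e
    have hm : MemLp (fun x => inner ℝ e (g x - g' x)) 2 volume :=
      (h.2.1.sub h'.2.1).const_inner e
    apply ae_eq_zero_of_integral_contDiff_smul_eq_zero (hm.locallyIntegrable (by norm_num))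
    intro φ hφ1 hφ2
    have hφ : IsTest φ := ⟨hφ1, hφ2⟩
    have m1 : MemLp (fun x => φ x • e) 2 volume :=
      (hφ.continuous.smul continuous_const).memLp_of_hasCompactSupport hφ.2.smul_right
    have e1 : (fun x => φ x • inner ℝ e (g x - g' x)) = fun x =>
        inner ℝ (φ x • e) (g x) - inner ℝ (φ x • e) (g' x) := by
      funext x
      rw [inner_sub_right, inner_smul_left, inner_smul_left, smul_eq_mul]
      simp only [conj_trivial]
      ring
    rw [e1, integral_sub (integrable_inner' m1 h.2.1) (integrable_inner' m1 h'.2.1),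
      h.by_parts hφ, h'.by_parts hφ]
    have e2 : ∫ x, inner ℝ (gradient φ x) e * u x = ∫ x, inner ℝ (gradient φ x) e * u' x := by
      apply integral_congr_ae
      filter_upwards [hu] with x hx
      rw [hx]
    rw [e2, sub_self]
  have h1 : ∀ᵐ x, ∀ i : Fin N, inner ℝ (EuclideanSpace.single i (1 : ℝ)) (g x - g' x) = 0 :=
    ae_all_iff.mpr fun i => key _
  filter_upwards [h1] with x hx
  rw [← sub_eq_zero]
  ext i
  have := hx i
  rw [EuclideanSpace.inner_single_left] at this
  simpa using this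

/-- Weak convergence gives the data used above. -/
lemma limitData_of_weakConv {p : ℝ} (hp : 2 < p) (hp' : p < twoStar N) {ε : ℕ → ℝ}
    (hε : ∀ n, 0 < ε n) (hε1 : ∀ n, ε n ≤ 1) (hlim : Tendsto ε atTop (𝓝 0))
    {V : ℕ → Sp N → ℝ} {W : ℕ → Sp N → Sp N}
    (hL : ∀ n, IsLES (ε n ^ 2) (Qt N (ε n)) p (V n) (W n)) {v : Sp N → ℝ}
    (hw : WeakConv V v) : ∃ g, LimitData p ε V W v g := by
  obtain ⟨C, hC⟩ := exists_uniform_bound N hp
  obtain ⟨G, g, hG, hg, hweak⟩ := hw
  have hCn : ∀ n, quadForm (ε n ^ 2) (V n) (W n) ≤ C := fun n =>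
    hC _ (hε n) (hε1 n) _ _ (hL n)
  have hWd : ∀ n, IsD12 (V n) (W n) := fun n => (hL n).1.1.isD12
  have hGW : ∀ n, G n =ᵐ[volume] W n := fun n => (hG n).unique (hWd n) (ae_eq_refl _)
  -- weak convergence in the Hilbert space
  have hD : ∀ H : gradSpace N, Tendsto (fun n => inner ℝ (hWd n).grad H) atTop
      (𝓝 (inner ℝ hg.grad H)) := by
    intro H
    have h1 := hweak _ _ (isD12_of_gradSpace H)
    have h2 : ∀ {k : Sp N → ℝ} {K : Sp N → Sp N} (hk : IsD12 k K),
        inner ℝ hk.grad H = ∫ x, inner ℝ (K x) ((H.1 : Sp N → Sp N) x) := by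
      intro k K hk
      rw [real_inner_comm, inner_grad_left]
      congr 1
      funext x
      exact real_inner_comm _ _
    rw [h2 hg]
    refine h1.congr fun n => ?_
    rw [h2 (hWd n)]
    apply integral_congr_ae
    filter_upwards [hGW n] with x hx
    rw [hx]
  have hb : ∀ n, ‖(hWd n).grad‖ ≤ √C := fun n => norm_grad_le (hL n).1.1 _ (hε n).le (hCn n)
  have hS : ∀ {k : Sp N → ℝ} {K : Sp N → Sp N} (hk : IsD12 k K),
      (sobS N hk.grad : Sp N → ℝ) =ᵐ[volume] k := by
    intro k K hk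
    rw [hk.sobS_grad]
    exact hk.1.coeFn_toLp
  refine ⟨g, hε, hlim, hL, hg, ⟨C, hCn⟩, ?_, ?_, ?_⟩
  · intro f hf
    have h1 := tendsto_clm_of_weak hD ((innerSL ℝ (hf.toLp f)).comp (gradSpace N).subtypeL)
    have h2 : ∀ {k : Sp N → ℝ} {K : Sp N → Sp N} (hk : IsD12 k K),
        ((innerSL ℝ (hf.toLp f)).comp (gradSpace N).subtypeL) hk.grad =
          ∫ x, inner ℝ (K x) (f x) := by
      intro k K hk
      change inner ℝ (hf.toLp f) (hk.2.1.toLp K) = _
      rw [integral_inner_toLp hf hk.2.1]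
      congr 1
      funext x
      exact real_inner_comm _ _
    rw [h2 hg] at h1
    exact h1.congr fun n => h2 (hWd n)
  · intro R
    refine (tendsto_local_two hb hD R).congr fun n => ?_
    apply eLpNorm_congr_ae
    filter_upwards [ae_restrict_of_ae (hS (hWd n)), ae_restrict_of_ae (hS hg)] with x hx hx'
    rw [hx, hx']
  · intro R
    refine (tendsto_local_p hp hp' hb hD R).congr fun n => ?_
    apply eLpNorm_congr_ae
    filter_upwards [ae_restrict_of_ae (hS (hWd n)), ae_restrict_of_ae (hS hg)] with x hx hx'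
    rw [hx, hx']

/-- The strong convergence theorem. -/
theorem strong_convergence {p : ℝ} (hp : 2 < p) (hp' : p < twoStar N) {ε : ℕ → ℝ}
    (hε : ∀ n, 0 < ε n) (hε1 : ∀ n, ε n ≤ 1) (hlim : Tendsto ε atTop (𝓝 0))
    {u : ℕ → Sp N → ℝ} (hu : ∀ n, IsLeastEnergySol 1 (coreSign (ε n)) p (u n))
    (k : ℕ → Fin N → ℤ) {v : Sp N → ℝ}
    (hw : WeakConv (fun n => rescale p (ε n) (k n) (u n)) v) (hv : ¬ v =ᵐ[volume] 0) :
    (∃ (G : ℕ → Sp N → Sp N) (g : Sp N → Sp N),
      (∀ n, IsD12 (rescale p (ε n) (k n) (u n)) (G n)) ∧ IsD12 v g ∧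
      Tendsto (fun n => eLpNorm (fun x => G n x - g x) 2 volume) atTop (𝓝 0)) ∧
    (∀ n, MemLp (rescale p (ε n) (k n) (u n)) (ENNReal.ofReal p) volume) ∧
    MemLp v (ENNReal.ofReal p) volume ∧
    Tendsto (fun n => eLpNorm (fun x => rescale p (ε n) (k n) (u n) x - v x)
      (ENNReal.ofReal p) volume) atTop (𝓝 0) := by
  choose g hg using hu
  have hL : ∀ n, IsLES (ε n ^ 2) (Qt N (ε n)) p (rescale p (ε n) (k n) (u n))
      (rescaleG p (ε n) (k n) (g n)) := fun n => IsLES.rescale hp (hε n) (hg n) (k n)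
  obtain ⟨g', hdata⟩ := limitData_of_weakConv hp hp' hε hε1 hlim hL hw
  obtain ⟨h1, h2, h3⟩ := hdata.strong hp hp' hv
  exact ⟨⟨fun n => rescaleG p (ε n) (k n) (g n), g', fun n => (hL n).1.1.isD12, hdata.hv, h3⟩,
    fun n => (hL n).1.1.memLp_p hp hp', h1, h2⟩

end Pool.Agent.Lib.MP_bf093f_an
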