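import Pool.Agent.Lib.MP_bf093f_an.Bound

set_option autoImplicit false

/-! # Local strong convergence in `L^p` -/

namespace Pool.Agent.Lib.MP_bf093f_an

open MeasureTheory Filter Topology Metric
open scoped ContDiff ENNReal NNReal

variable {N : ℕ} [hN : Fact (3 ≤ N)]

lemma tendsto_interpolate {p : ℝ} (hp : 2 < p) (hp' : p < twoStar N) {μ : Measure (Sp N)}
    {f : ℕ → Sp N → ℝ} (hf : ∀ n, AEStronglyMeasurable (f n) μ) {M : ℝ≥0∞} (hM : M ≠ ⊤)
    (hb : ∀ᶠ n in atTop, eLpNorm (f n) (qs N) μ ≤ M)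
    (h : Tendsto (fun n => eLpNorm (f n) 2 μ) atTop (𝓝 0)) :
    Tendsto (fun n => eLpNorm (f n) (ENNReal.ofReal p) μ) atTop (𝓝 0) := by
  have hq := twoStar_pos hN.out
  have hq2 : 0 < twoStar N - 2 := by linarith
  set θ := (twoStar N - p) / (twoStar N - 2) with hθ
  have hθ0 : 0 < θ := div_pos (by linarith) hq2
  set θ' := (p - 2) / (twoStar N - 2) with hθ'
  have hθ0' : 0 < θ' := div_pos (by linarith) hq2
  have h1 : ∀ᶠ n in atTop, eLpNorm (f n) (ENNReal.ofReal p) μ ^ p ≤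
      (eLpNorm (f n) 2 μ ^ (2 : ℝ)) ^ θ * (M ^ twoStar N) ^ θ' := by
    filter_upwards [hb] with n hbn
    have h2 := lintegral_interpolate hp hp' (hf n)
    rw [eLpNorm_pow_eq (by linarith), eLpNorm_pow_eq hq] at h2
    have h3 : ∫⁻ x, ‖f n x‖ₑ ^ (2 : ℝ) ∂μ = eLpNorm (f n) 2 μ ^ (2 : ℝ) := by
      have := eLpNorm_pow_eq (p := 2) (by norm_num) (f n) μ
      simpa using this
    rw [h3] at h2
    refine h2.trans ?_
    gcongr
  have h2 : Tendsto (fun n => (eLpNorm (f n) 2 μ ^ (2 : ℝ)) ^ θ * (M ^ twoStar N) ^ θ') atTop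
      (𝓝 0) := by
    have h3 : Tendsto (fun n => (eLpNorm (f n) 2 μ ^ (2 : ℝ)) ^ θ) atTop (𝓝 0) := by
      have h4 := (h.ennrpow_const 2).ennrpow_const θ
      rwa [ENNReal.zero_rpow_of_pos (by norm_num), ENNReal.zero_rpow_of_pos hθ0] at h4
    have h5 : (M ^ twoStar N) ^ θ' ≠ ⊤ :=
      ENNReal.rpow_ne_top_of_nonneg hθ0'.le (ENNReal.rpow_ne_top_of_nonneg hq.le hM)
    have h6 := ENNReal.Tendsto.mul_const h3 (Or.inr h5)
    rwa [zero_mul] at h6
  have h3 : Tendsto (fun n => eLpNorm (f n) (ENNReal.ofReal p) μ ^ p) atTop (𝓝 0) :=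
    tendsto_of_tendsto_of_tendsto_of_le_of_le' tendsto_const_nhds h2
      (Eventually.of_forall fun _ => bot_le) h1
  have h4 := h3.ennrpow_const (1 / p)
  rw [ENNReal.zero_rpow_of_pos (by positivity)] at h4
  refine h4.congr fun n => ?_
  rw [← ENNReal.rpow_mul, mul_one_div_cancel (by linarith), ENNReal.rpow_one]

lemma eLpNorm_sobS_le {D : gradSpace N} {C : ℝ} (h : ‖D‖ ≤ C) (μ : Measure (Sp N))
    (hμ : μ ≤ volume) : eLpNorm (sobS N D) (qs N) μ ≤ ENNReal.ofReal (sobC N * C) := by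
  refine (eLpNorm_mono_measure _ hμ).trans ?_
  have h1 : ‖sobS N D‖ ≤ sobC N * C :=
    (norm_sobS_le _).trans (mul_le_mul_of_nonneg_left h (NNReal.coe_nonneg _))
  rw [Lp.norm_def] at h1
  rw [← ENNReal.ofReal_toReal (Lp.eLpNorm_ne_top (sobS N D))]
  exact ENNReal.ofReal_le_ofReal h1

lemma coeFn_sobS_sub (D G : gradSpace N) :
    (sobS N (D - G) : Sp N → ℝ) =ᵐ[volume] fun x => sobS N D x - sobS N G x := by
  rw [map_sub]
  exact Lp.coeFn_sub _ _

lemma tendsto_local_two {D : ℕ → gradSpace N} {G : gradSpace N} {C : ℝ} (hb : ∀ n, ‖D n‖ ≤ C)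
    (hw : ∀ H : gradSpace N, Tendsto (fun n => inner ℝ (D n) H) atTop (𝓝 (inner ℝ G H))) (R : ℝ) :
    Tendsto (fun n => eLpNorm (fun x => sobS N (D n) x - sobS N G x) 2
      (volume.restrict (ball 0 R))) atTop (𝓝 0) := by
  have h1 : Tendsto (fun n => eLpNorm (sobS N (D n - G)) 2
      (volume.restrict (ball 0 R))) atTop (𝓝 0) := by
    apply tendsto_local_zero (C := C + ‖G‖)
    · intro n
      exact (norm_sub_le _ _).trans (by gcongr; exact hb n)
    · intro H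
      have h2 := (hw H).sub_const (inner ℝ G H)
      rw [sub_self] at h2
      refine h2.congr fun n => ?_
      rw [inner_sub_left]
  refine h1.congr fun n => ?_
  exact eLpNorm_congr_ae (ae_restrict_of_ae (coeFn_sobS_sub _ _))

lemma tendsto_local_p {p : ℝ} (hp : 2 < p) (hp' : p < twoStar N) {D : ℕ → gradSpace N}
    {G : gradSpace N} {C : ℝ} (hb : ∀ n, ‖D n‖ ≤ C)
    (hw : ∀ H : gradSpace N, Tendsto (fun n => inner ℝ (D n) H) atTop (𝓝 (inner ℝ G H))) (R : ℝ) :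
    Tendsto (fun n => eLpNorm (fun x => sobS N (D n) x - sobS N G x) (ENNReal.ofReal p)
      (volume.restrict (ball 0 R))) atTop (𝓝 0) := by
  apply tendsto_interpolate hp hp' (M := ENNReal.ofReal (sobC N * (C + ‖G‖)))
    (fun n => ((Lp.aestronglyMeasurable _).sub (Lp.aestronglyMeasurable _)).restrict)
    ENNReal.ofReal_ne_top (Eventually.of_forall ?_) (tendsto_local_two hb hw R)
  intro n
  refine le_trans (le_of_eq (eLpNorm_congr_ae
    (ae_restrict_of_ae (coeFn_sobS_sub (D n) G))).symm) ?_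
  apply eLpNorm_sobS_le _ _ Measure.restrict_le_self
  exact (norm_sub_le _ _).trans (by gcongr; exact hb n)

omit hN in
/-- The sign of local limits. -/
lemma nonneg_of_local {f : ℕ → Sp N → ℝ} {g : Sp N → ℝ}
    (hf : ∀ n, AEStronglyMeasurable (f n) volume) (hg : AEStronglyMeasurable g volume)
    (hpos : ∀ n, ∀ᵐ x, 0 ≤ f n x)
    (h : ∀ R : ℝ, Tendsto (fun n => eLpNorm (fun x => f n x - g x) 2
      (volume.restrict (ball 0 R))) atTop (𝓝 0)) : ∀ᵐ x, 0 ≤ g x := by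
  have h1 : ∀ m : ℕ, ∀ᵐ x ∂(volume.restrict (ball (0 : Sp N) m)), 0 ≤ g x := by
    intro m
    obtain ⟨σ, hσ, hae⟩ := exists_subseq_ae (r := 2) (by norm_num) (fun n => (hf n).restrict)
      hg.restrict (h m)
    have h2 : ∀ᵐ x ∂(volume.restrict (ball (0 : Sp N) m)), ∀ n, 0 ≤ f n x :=
      ae_all_iff.mpr fun n => ae_restrict_of_ae (hpos n)
    filter_upwards [hae, h2] with x hx hx2
    exact ge_of_tendsto' hx fun n => hx2 _
  have h2 : ∀ᵐ x ∂(volume.restrict (⋃ m : ℕ, ball (0 : Sp N) m)), 0 ≤ g x :=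
    (ae_restrict_iUnion_iff _ _).mpr h1
  rwa [iUnion_ball_nat, Measure.restrict_univ] at h2

end Pool.Agent.Lib.MP_bf093f_an
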